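import Pool.Agent.Helper165.LT.Defs

set_option autoImplicit false

open KaehlerDifferential

namespace Pool.Agent.Helper165.LT

section br

variable (k : Type*) {K : Type*} [Field k] [Field K] [Algebra k K]

/-- The form `da ∧ db`. -/
noncomputable def br (a b : K) : ⋀[K]^2 (Ω[K⁄k]) :=
  exteriorPower.ιMulti K 2 (fun i => D k K ((![a, b] : Fin 2 → K) i))

variable {k}

lemma br_eq (a b : K) : br k a b = exteriorPower.ιMulti K 2 ![D k K a, D k K b] := by
  unfold br
  congr 1
  funext i
  fin_cases i <;> rfl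

lemma br_def' (v : Fin 2 → K) : exteriorPower.ιMulti K 2 (fun i => D k K (v i)) =
    br k (v 0) (v 1) := by
  rw [br_eq]
  congr 1
  funext i
  fin_cases i <;> rfl

lemma upd0 (m n x : Ω[K⁄k]) : Function.update ![m, n] 0 x = ![x, n] := by
  funext i
  fin_cases i <;> rfl

lemma upd1 (m n x : Ω[K⁄k]) : Function.update ![m, n] 1 x = ![m, x] := by
  funext i
  fin_cases i <;> rfl

lemma iM_add_left (m m' n : Ω[K⁄k]) : exteriorPower.ιMulti K 2 ![m + m', n] =
    exteriorPower.ιMulti K 2 ![m, n] + exteriorPower.ιMulti K 2 ![m', n] := by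
  have h := (exteriorPower.ιMulti K 2 (M := Ω[K⁄k])).map_update_add ![m, n] 0 m m'
  rwa [upd0, upd0, upd0] at h

lemma iM_add_right (m n n' : Ω[K⁄k]) : exteriorPower.ιMulti K 2 ![m, n + n'] =
    exteriorPower.ιMulti K 2 ![m, n] + exteriorPower.ιMulti K 2 ![m, n'] := by
  have h := (exteriorPower.ιMulti K 2 (M := Ω[K⁄k])).map_update_add ![m, n] 1 n n'
  rwa [upd1, upd1, upd1] at h

lemma iM_smul_left (c : K) (m n : Ω[K⁄k]) : exteriorPower.ιMulti K 2 ![c • m, n] =
    c • exteriorPower.ιMulti K 2 ![m, n] := by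
  have h := (exteriorPower.ιMulti K 2 (M := Ω[K⁄k])).map_update_smul ![m, n] 0 c m
  rwa [upd0, upd0] at h

lemma iM_smul_right (c : K) (m n : Ω[K⁄k]) : exteriorPower.ιMulti K 2 ![m, c • n] =
    c • exteriorPower.ιMulti K 2 ![m, n] := by
  have h := (exteriorPower.ιMulti K 2 (M := Ω[K⁄k])).map_update_smul ![m, n] 1 c n
  rwa [upd1, upd1] at h

lemma iM_self (m : Ω[K⁄k]) : exteriorPower.ιMulti K 2 ![m, m] = 0 :=
  (exteriorPower.ιMulti K 2 (M := Ω[K⁄k])).map_eq_zero_of_eq ![m, m] (i := 0) (j := 1) rfl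
    (by decide)

lemma iM_swap (m n : Ω[K⁄k]) : exteriorPower.ιMulti K 2 ![n, m] =
    - exteriorPower.ιMulti K 2 ![m, n] := by
  have h := iM_self (m + n)
  rw [iM_add_left, iM_add_right, iM_add_right, iM_self, iM_self, zero_add, add_zero] at h
  exact eq_neg_of_add_eq_zero_right h

lemma iM_mem_span {m n e₁ e₂ : Ω[K⁄k]} {a b c d : K} (hm : m = a • e₁ + b • e₂)
    (hn : n = c • e₁ + d • e₂) : exteriorPower.ιMulti K 2 ![m, n] =
    (a * d - b * c) • exteriorPower.ιMulti K 2 ![e₁, e₂] := by
  rw [hm, hn]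
  simp only [iM_add_left, iM_add_right, iM_smul_left, iM_smul_right, iM_self, smul_zero, zero_add,
    add_zero]
  rw [iM_swap e₁ e₂]
  module

lemma br_self (a : K) : br k a a = 0 := by
  rw [br_eq, iM_self]

lemma br_swap (a b : K) : br k b a = - br k a b := by
  rw [br_eq, br_eq, iM_swap]

lemma br_add_left (a a' b : K) : br k (a + a') b = br k a b + br k a' b := by
  simp only [br_eq, map_add, iM_add_left]

lemma br_add_right (a b b' : K) : br k a (b + b') = br k a b + br k a b' := by
  simp only [br_eq, map_add, iM_add_right]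

lemma br_mul_left (a a' b : K) : br k (a * a') b = a • br k a' b + a' • br k a b := by
  simp only [br_eq, Derivation.leibniz, iM_add_left, iM_smul_left]

lemma br_mul_right (a b b' : K) : br k a (b * b') = b • br k a b' + b' • br k a b := by
  simp only [br_eq, Derivation.leibniz, iM_add_right, iM_smul_right]

lemma br_one_left (b : K) : br k 1 b = 0 := by
  have : D k K (1 : K) = 0 := Derivation.map_one_eq_zero _
  have h := iM_smul_left (0 : K) (0 : Ω[K⁄k]) (D k K b)
  rw [br_eq, this]
  simpa using h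

lemma br_one_right (b : K) : br k b 1 = 0 := by
  rw [br_swap, br_one_left, neg_zero]

lemma br_zero_left (b : K) : br k 0 b = 0 := by
  have h := br_mul_left (k := k) (0 : K) 0 b
  simpa using h

lemma br_zero_right (b : K) : br k b 0 = 0 := by
  rw [br_swap, br_zero_left, neg_zero]

lemma D_sq [CharP K 2] (a : K) : D k K (a ^ 2) = 0 := by
  rw [Derivation.leibniz_pow]
  rw [← Nat.cast_smul_eq_nsmul K, show ((2 : ℕ) : K) = 0 from CharP.cast_eq_zero K 2, zero_smul]

lemma br_sq_left [CharP K 2] (a b : K) : br k (a ^ 2) b = 0 := by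
  have h := iM_smul_left (0 : K) (0 : Ω[K⁄k]) (D k K b)
  rw [br_eq, D_sq]
  simpa using h

lemma br_sq_right [CharP K 2] (a b : K) : br k b (a ^ 2) = 0 := by
  rw [br_swap, br_sq_left, neg_zero]

lemma br_sq_mul_left [CharP K 2] (c a b : K) : br k (c ^ 2 * a) b = c ^ 2 • br k a b := by
  rw [br_mul_left, br_sq_left, smul_zero, add_zero]

lemma br_sq_mul_right [CharP K 2] (c a b : K) : br k b (c ^ 2 * a) = c ^ 2 • br k b a := by
  rw [br_mul_right, br_sq_right, smul_zero, add_zero]

end br

section reg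

variable {k : Type*} {K : Type*} [Field k] [Field K] [Algebra k K]

lemma br_mem (O : Set K) {g a b : K} (hg : g ∈ O) (ha : a ∈ O) (hb : b ∈ O) :
    g • br k a b ∈ regularForms (D k K) O := by
  refine AddSubgroup.subset_closure ⟨g, hg, ![a, b], ?_, rfl⟩
  intro i
  fin_cases i
  · exact ha
  · exact hb

/-- Induction principle: to show that all regular forms lie in `O · ω`. -/
lemma regularForms_sub (O : Subring K) (ω : ⋀[K]^2 (Ω[K⁄k]))
    (h : ∀ a ∈ O, ∀ b ∈ O, ∃ g ∈ O, br k a b = g • ω) (η : ⋀[K]^2 (Ω[K⁄k]))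
    (hη : η ∈ regularForms (D k K) (O : Set K)) : ∃ g ∈ O, η = g • ω := by
  unfold regularForms at hη
  induction hη using AddSubgroup.closure_induction with
  | mem x hx =>
    obtain ⟨g, hg, v, hv, rfl⟩ := hx
    obtain ⟨c, hc, hc'⟩ := h (v 0) (hv 0) (v 1) (hv 1)
    refine ⟨g * c, O.mul_mem hg hc, ?_⟩
    have := br_def' (k := k) v
    rw [this, hc', smul_smul]
  | zero => exact ⟨0, O.zero_mem, by simp⟩
  | add x y hx0 hy0 hx hy =>
    obtain ⟨g, hg, rfl⟩ := hx
    obtain ⟨h, hh, rfl⟩ := hy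
    exact ⟨g + h, O.add_mem hg hh, (add_smul g h _).symm⟩
  | neg x hx0 hx =>
    obtain ⟨g, hg, rfl⟩ := hx
    exact ⟨-g, O.neg_mem hg, (neg_smul g _).symm⟩

lemma regularForms_smul (O : Subring K) {g : K} (hg : g ∈ O) {η : ⋀[K]^2 (Ω[K⁄k])}
    (hη : η ∈ regularForms (D k K) (O : Set K)) : g • η ∈ regularForms (D k K) (O : Set K) := by
  unfold regularForms at hη ⊢
  induction hη using AddSubgroup.closure_induction with
  | mem x hx =>
    obtain ⟨g', hg', v, hv, rfl⟩ := hx
    rw [smul_smul]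
    exact AddSubgroup.subset_closure ⟨g * g', O.mul_mem hg hg', v, hv, rfl⟩
  | zero => rw [smul_zero]; exact AddSubgroup.zero_mem _
  | add x y hx0 hy0 hx hy => rw [smul_add]; exact AddSubgroup.add_mem _ hx hy
  | neg x hx0 hx => rw [smul_neg]; exact AddSubgroup.neg_mem _ hx

end reg

section der

/-- Extension of a derivation to the fraction field. -/
lemma exists_derivation_fraction {k A L : Type*} [Field k] [CommRing A] [IsDomain A] [Field L]
    [Algebra k A] [Algebra A L] [Algebra k L] [IsScalarTower k A L] [IsFractionRing A L]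
    (δ : Derivation k A A) :
    ∃ Δ : Derivation k L L, ∀ f, Δ (algebraMap A L f) = algebraMap A L (δ f) := by
  let g : Ω[A⁄k] →ₗ[A] L := (Algebra.linearMap A L) ∘ₗ δ.liftKaehlerDifferential
  let F : Ω[A⁄k] →ₗ[A] Ω[L⁄k] := KaehlerDifferential.map k k A L
  have hloc : IsLocalizedModule (nonZeroDivisors A) F := inferInstance
  let G : Ω[L⁄k] →ₗ[A] L := IsLocalizedModule.lift (nonZeroDivisors A) F g
    (fun x => by
      rw [Module.End.isUnit_iff]
      have hx : algebraMap A L x ≠ 0 :=
        IsFractionRing.to_map_ne_zero_of_mem_nonZeroDivisors x.2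
      constructor
      · intro a b hab
        simp only [Module.algebraMap_end_apply, Algebra.smul_def] at hab
        exact mul_left_cancel₀ hx hab
      · intro b
        refine ⟨(algebraMap A L x)⁻¹ * b, ?_⟩
        simp only [Module.algebraMap_end_apply, Algebra.smul_def]
        rw [← mul_assoc, mul_inv_cancel₀ hx, one_mul])
  let G' : Ω[L⁄k] →ₗ[L] L := G.extendScalarsOfIsLocalization (nonZeroDivisors A) L
  refine ⟨G'.compDer (D k L), fun f => ?_⟩
  have h1 : D k L (algebraMap A L f) = F (D k A f) := by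
    simp only [F, KaehlerDifferential.map_D]
  have h2 : G'.compDer (D k L) (algebraMap A L f) = G (D k L (algebraMap A L f)) := rfl
  rw [h2, h1]
  simp only [G]
  rw [IsLocalizedModule.lift_apply]
  simp [g]

/-- The Jacobian determinant as a functional on 2-forms. -/
lemma exists_jacobian {k K L : Type*} [Field k] [Field K] [Field L] [Algebra k K] [Algebra k L]
    [Algebra K L] [IsScalarTower k K L] (Δ₁ Δ₂ : Derivation k L L) :
    ∃ J : ⋀[K]^2 (Ω[K⁄k]) →ₗ[K] L, ∀ a b : K, J (br k a b) =
      Δ₁ (algebraMap K L a) * Δ₂ (algebraMap K L b) -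
      Δ₂ (algebraMap K L a) * Δ₁ (algebraMap K L b) := by
  let ℓ₁ : Ω[K⁄k] →ₗ[K] L := (Δ₁.compAlgebraMap K).liftKaehlerDifferential
  let ℓ₂ : Ω[K⁄k] →ₗ[K] L := (Δ₂.compAlgebraMap K).liftKaehlerDifferential
  let f : (Ω[K⁄k]) [⋀^Fin 2]→ₗ[K] L :=
    { toFun := fun m => ℓ₁ (m 0) * ℓ₂ (m 1) - ℓ₂ (m 0) * ℓ₁ (m 1)
      map_update_add' := by
        intro _ m i x y
        fin_cases i
        · simp
          ring
        · simp
          ring
      map_update_smul' := by
        intro _ m i c x
        fin_cases i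
        · simp [smul_sub]
        · simp [smul_sub]
      map_eq_zero_of_eq' := by
        intro v i j hij hne
        have h01 : v 0 = v 1 := by
          fin_cases i <;> fin_cases j
          · exact absurd rfl hne
          · exact hij
          · exact hij.symm
          · exact absurd rfl hne
        rw [h01]
        ring }
  refine ⟨exteriorPower.alternatingMapLinearEquiv f, fun a b => ?_⟩
  rw [br_eq, exteriorPower.alternatingMapLinearEquiv_apply_ιMulti]
  change ℓ₁ (D k K a) * ℓ₂ (D k K b) - ℓ₂ (D k K a) * ℓ₁ (D k K b) = _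
  simp [ℓ₁, ℓ₂]

end der

end Pool.Agent.Helper165.LT
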