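import Mathlib

set_option autoImplicit false

namespace Pool.Agent.Helper165.LT

/-- The ring `k[[u,v]]` is a domain. -/
instance isDomain_mvPowerSeries (k : Type*) [Field k] : IsDomain (MvPowerSeries (Fin 2) k) :=
  NoZeroDivisors.to_isDomain _

/-- The ring of invariants `A^σ` of an automorphism `σ` of the `k`-algebra `A`. -/
def invariants {k A : Type*} [Field k] [CommRing A] [Algebra k A] (σ : A ≃ₐ[k] A) :
    Subalgebra k A :=
  AlgHom.equalizer (σ : A →ₐ[k] A) (AlgHom.id k A)

/-- `σ` generates a faithful action of `ℤ/p` on the local `k`-algebra `A`, that is on `Spec A`,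
whose only fixed point is the closed point (a prime `𝔮` is a fixed point of the action when `σ`
acts trivially on `A/𝔮`). -/
structure IsWildAction {k A : Type*} [Field k] [CommRing A] [IsLocalRing A] [Algebra k A]
    (p : ℕ) (σ : A ≃ₐ[k] A) : Prop where
  order : orderOf σ = p
  isolated : ∀ 𝔮 : Ideal A, 𝔮.IsPrime → (∀ f : A, σ f - f ∈ 𝔮) → 𝔮 = IsLocalRing.maximalIdeal A

/-- The (unipotent) linear map induced by `σ` on the cotangent space `𝔪/𝔪²` has exactly `r`
Jordan blocks: the kernel of `σ - 1` on `𝔪/𝔪²` has dimension `r`. -/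
def HasJordanBlocks {k A : Type*} [Field k] [CommRing A] [IsLocalRing A] [Algebra k A]
    (σ : A ≃ₐ[k] A) (r : ℕ) : Prop :=
  ∃ h : IsLocalRing.maximalIdeal A ≤ (IsLocalRing.maximalIdeal A).comap (σ : A →ₐ[k] A),
    Module.finrank k (LinearMap.ker ((IsLocalRing.maximalIdeal A).mapCotangent
      (IsLocalRing.maximalIdeal A) (σ : A →ₐ[k] A) h - LinearMap.id)) = r

/-- For a suitable choice of regular parameters `x, y` of `A` (generators of the maximal ideal
`𝔪`), the action is linear modulo `𝔪^(n+2)`. -/
def IsLinearUpTo {k A : Type*} [Field k] [CommRing A] [IsLocalRing A] [Algebra k A]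
    (σ : A ≃ₐ[k] A) (n : ℕ) : Prop :=
  ∃ x y : A, Ideal.span {x, y} = IsLocalRing.maximalIdeal A ∧
    ∃ a b c d : k, σ x - (a • x + b • y) ∈ IsLocalRing.maximalIdeal A ^ (n + 2) ∧
      σ y - (c • x + d • y) ∈ IsLocalRing.maximalIdeal A ^ (n + 2)

/-- The pair of numerical invariants of the action is `(r, n)`: `r` is the number of Jordan
blocks on `𝔪/𝔪²` and `n` is the largest integer such that the action is linear modulo
`𝔪^(n+2)` in suitable regular parameters. -/
def HasInvariants {k A : Type*} [Field k] [CommRing A] [IsLocalRing A] [Algebra k A]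
    (σ : A ≃ₐ[k] A) (r n : ℕ) : Prop :=
  HasJordanBlocks σ r ∧ IsGreatest {m : ℕ | IsLinearUpTo σ m} n

/-- For a field `K`, a `K`-vector space `M` with a map `d : K → M` (in practice the universal
derivation `K → Ω_{K/k}`) and a subset `O` of `K` (in practice a local ring with fraction field
`K`), the rational `2`-forms which are regular on `O`: the additive subgroup of `⋀² M` generated
by the forms `g dv₁ ∧ dv₂` with `g, v₁, v₂` in `O`. -/
noncomputable def regularForms {K M : Type*} [Field K] [AddCommGroup M] [Module K M] (d : K → M)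
    (O : Set K) : AddSubgroup (⋀[K]^2 M) :=
  AddSubgroup.closure {ω | ∃ g ∈ O, ∃ v : Fin 2 → K, (∀ i, v i ∈ O) ∧
    ω = g • exteriorPower.ιMulti K 2 (fun i => d (v i))}

/-- The rational `2`-form `ω` is nonzero and the `2`-forms regular on `O` are the `O`-multiples
of `ω`. -/
def IsGenerator {K M : Type*} [Field K] [AddCommGroup M] [Module K M] (d : K → M)
    (O : Set K) (ω : ⋀[K]^2 M) : Prop :=
  ω ≠ 0 ∧ ∀ η : ⋀[K]^2 M, η ∈ regularForms d O ↔ ∃ g ∈ O, η = g • ω

/-- The local ring `R_P`, seen inside the fraction field `K` of `R`. -/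
def localRing {R : Type*} (K : Type*) [CommRing R] [Field K] [Algebra R K] (P : Ideal R) :
    Set K :=
  {φ | ∃ a t : R, t ∉ P ∧ φ * algebraMap R K t = algebraMap R K a}

/-- The rational section `g · ω^{⊗ m}` of the `m`-th power of the canonical sheaf of the normal
surface `X = Spec R` (with `K` the fraction field of `R`, `ω` a nonzero rational `2`-form and
`g ∈ K` nonzero) is a generator at every codimension one point `P` of `X`: for some nonzero
`c ∈ K` the form `c ω` generates the `2`-forms regular at `P` and `g ω^{⊗ m} = (g/c^m) (cω)^{⊗ m}`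
with `g/c^m` a unit of `R_P`. In other words `m K_X` is Cartier, generated by `g ω^{⊗ m}`. -/
def IsPluricanonicalGenerator {R K M : Type*} [CommRing R] [Field K] [Algebra R K]
    [AddCommGroup M] [Module K M] (d : K → M) (m : ℕ) (ω : ⋀[K]^2 M) (g : K) : Prop :=
  ω ≠ 0 ∧ g ≠ 0 ∧ ∀ P : Ideal R, P.IsPrime → P.height = 1 → ∃ c : K, c ≠ 0 ∧
    IsGenerator d (localRing K P) (c • ω) ∧
    g / c ^ m ∈ localRing K P ∧ (g / c ^ m)⁻¹ ∈ localRing K P

/-- `V` is the local ring, with uniformizer `π`, of a prime divisor `E` lying over the closed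
point of the surface `X = Spec R` (`R` a local `k`-algebra with residue field `k` and fraction
field `K`): a discrete valuation ring of `K` dominating `R` whose residue field is transcendental
over `k`. -/
structure IsDivisorOver (k R : Type*) {K : Type*} [Field k] [CommRing R] [Field K] [Algebra k K]
    [Algebra R K] (V : ValuationSubring K) (π : K) : Prop where
  contains : ∀ r : R, algebraMap R K r ∈ V
  center : ∀ r : R, ¬ IsUnit r → algebraMap R K r ∈ V.nonunits
  discrete : IsDiscreteValuationRing V
  uniformizer : ∃ h : π ∈ V, Irreducible (⟨π, h⟩ : V)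
  residue : ∃ t ∈ V, ∀ q : Polynomial k, q ≠ 0 → Polynomial.aeval t q ∉ V.nonunits

/-- If `g ω^{⊗ m}` generates `m K_X`, the discrepancy `a` of the divisor `(V, π)` over `X` is
`> -1`: the pullback of `g ω^{⊗ m}` has order `m a > -m` along the divisor, that is, we can write
`g ω^{⊗ m} = (g/c^m) (cω)^{⊗ m}` with `c ω` a `2`-form regular on `V` and `g/c^m` of order `> -m`
on `V`. (The module of regular `2`-forms on `V` is free of rank one.) -/
def DiscrepancyGT {K M : Type*} [Field K] [AddCommGroup M] [Module K M] (d : K → M)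
    (V : ValuationSubring K) (π : K) (m : ℕ) (ω : ⋀[K]^2 M) (g : K) : Prop :=
  ∃ c : K, c ≠ 0 ∧ c • ω ∈ regularForms d (V : Set K) ∧ π ^ m * (g / c ^ m) ∈ V.nonunits

/-- The canonical divisor of the normal surface `X = Spec R` is Cartier. -/
def IsCanonicalCartier (k R : Type*) [Field k] [CommRing R] [IsDomain R] [Algebra k R] : Prop :=
  ∃ ω, IsPluricanonicalGenerator (R := R) (KaehlerDifferential.D k (FractionRing R)) 1 ω 1

/-- The normal surface singularity `X = Spec R` over `k` is log terminal: some positive multiple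
`m K_X` is Cartier, generated by `g ω^{⊗ m}`, and every prime divisor over the closed point of
`X` has discrepancy `> -1`. -/
def IsLogTerminal (k R : Type*) [Field k] [CommRing R] [IsDomain R] [Algebra k R] : Prop :=
  ∃ m : ℕ, 0 < m ∧ ∃ ω g, IsPluricanonicalGenerator (R := R)
    (KaehlerDifferential.D k (FractionRing R)) m ω g ∧
    ∀ (V : ValuationSubring (FractionRing R)) (π : FractionRing R), IsDivisorOver k R V π →
      DiscrepancyGT (KaehlerDifferential.D k (FractionRing R)) V π m ω g

end Pool.Agent.Helper165.LT
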