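import Pool.Agent.Helper165.LT.Br

set_option autoImplicit false

namespace Pool.Agent.Helper165.LT

namespace Job296

section
variable {K M : Type*} [Field K] [AddCommGroup M] [Module K M]

/-- the wedge of two vectors -/
noncomputable def w (a b : M) : ⋀[K]^2 M := exteriorPower.ιMulti K 2 ![a, b]

lemma upd0 (a b x : M) : Function.update ![a, b] 0 x = ![x, b] := by
  funext i; fin_cases i <;> simp

lemma upd1 (a b x : M) : Function.update ![a, b] 1 x = ![a, x] := by
  funext i; fin_cases i <;> simp

lemma w_add_left (a a' b : M) : w (K := K) (a + a') b = w a b + w a' b := by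
  unfold w
  have := (exteriorPower.ιMulti K 2 (M := M)).map_update_add ![a, b] 0 a a'
  rwa [upd0, upd0, upd0] at this

lemma w_smul_left (c : K) (a b : M) : w (K := K) (c • a) b = c • w a b := by
  unfold w
  have := (exteriorPower.ιMulti K 2 (M := M)).map_update_smul ![a, b] 0 c a
  rwa [upd0, upd0] at this

lemma w_self (a : M) : w (K := K) a a = 0 := by
  unfold w
  exact (exteriorPower.ιMulti K 2 (M := M)).map_eq_zero_of_eq ![a, a] (i := 0) (j := 1)
    (by simp) (by simp)

lemma w_add_right (a b b' : M) : w (K := K) a (b + b') = w a b + w a b' := by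
  unfold w
  have := (exteriorPower.ιMulti K 2 (M := M)).map_update_add ![a, b] 1 b b'
  rwa [upd1, upd1, upd1] at this

lemma w_swap (a b : M) : w (K := K) a b = - w b a := by
  have h := w_self (K := K) (a + b)
  rw [w_add_left, w_add_right, w_add_right, w_self, w_self] at h
  simp only [zero_add, add_zero] at h
  exact eq_neg_of_add_eq_zero_left h

lemma neg_eq_self [CharP K 2] {W : Type*} [AddCommGroup W] [Module K W] (a : W) : -a = a := by
  have h : ((2 : ℕ) : K) = 0 := CharP.cast_eq_zero K 2
  have h2 : a + a = 0 := by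
    have : ((2 : ℕ) : K) • a = 0 := by rw [h, zero_smul]
    rw [Nat.cast_smul_eq_nsmul, two_nsmul] at this
    exact this
  exact (eq_neg_of_add_eq_zero_left h2).symm

lemma w_comm [CharP K 2] (a b : M) : w (K := K) a b = w b a := by
  rw [w_swap, neg_eq_self (K := K)]

lemma w_smul_right [CharP K 2] (c : K) (a b : M) : w (K := K) a (c • b) = c • w a b := by
  rw [w_comm, w_smul_left, w_comm]

lemma mem_reg (d : K → M) (O : Set K) {g a b : K} (hg : g ∈ O) (ha : a ∈ O) (hb : b ∈ O) :
    g • w (d a) (d b) ∈ regularForms d O := by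
  apply AddSubgroup.subset_closure
  refine ⟨g, hg, ![a, b], ?_, ?_⟩
  · intro i; fin_cases i
    · exact ha
    · exact hb
  · unfold w
    congr 2
    funext i; fin_cases i <;> rfl

end

variable {k K : Type*} [Field k] [Field K] [Algebra k K] [CharP K 2]


/-- `da ∧ db` -/
noncomputable def e (k : Type*) {K : Type*} [Field k] [Field K] [Algebra k K]
    (a b : K) : ⋀[K]^2 (Ω[K⁄k]) :=
  w (KaehlerDifferential.D k K a) (KaehlerDifferential.D k K b)

lemma e_self (a : K) : e k a a = 0 := w_self _

lemma e_comm (a b : K) : e k a b = e k b a := w_comm _ _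

lemma e_add (a b c : K) : e k (a + b) c = e k a c + e k b c := by
  unfold e; rw [map_add, w_add_left]

lemma e_mul (a b c : K) : e k (a * b) c = a • e k b c + b • e k a c := by
  unfold e; rw [Derivation.leibniz, w_add_left, w_smul_left, w_smul_left]

lemma e_one (c : K) : e k 1 c = 0 := by
  unfold e; rw [Derivation.map_one_eq_zero]
  have := w_smul_left (K := K) 0 (0 : Ω[K⁄k]) (KaehlerDifferential.D k K c)
  simpa using this

lemma add_self_W {W : Type*} [AddCommGroup W] [Module K W] (a : W) : a + a = 0 := by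
  have := neg_eq_self (K := K) a
  rw [← this]; nth_rewrite 2 [this]; simp

lemma e_sq (a c : K) : e k (a ^ 2) c = 0 := by
  rw [pow_two, e_mul]
  exact add_self_W (K := K) _

lemma two0 : (2 : K) = 0 := by
  have h : ((2 : ℕ) : K) = 0 := CharP.cast_eq_zero K 2
  exact_mod_cast h

lemma aux (V : ValuationSubring K) (x y1 z1 : K) (hx : x ≠ 0) (hy : y1 ≠ 0)
    (hxV : x ∈ V) (hyV : y1 ∈ V)
    (h : z1 ^ 2 + x * y1 * z1 + x * y1 * (1 + y1) = 0) :
    (x * y1)⁻¹ • e k x y1 ∈ regularForms (KaehlerDifferential.D k K) (V : Set K) := by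
  have h2 : (2 : K) = 0 := two0
  by_cases hz : z1 / x ∈ V
  · -- case 2
    set z2 := z1 / x with hz2
    have hz1 : z1 = x * z2 := by rw [hz2]; field_simp
    have hF : x * (z2 ^ 2 + y1 * z2) + y1 * (1 + y1) = 0 := by
      rw [hz1] at h
      have : x * (x * (z2 ^ 2 + y1 * z2) + y1 * (1 + y1)) = 0 := by linear_combination h
      rcases mul_eq_zero.1 this with h' | h'
      · exact absurd h' hx
      · exact h'
    have key : ∀ c : K, (z2 ^ 2 + y1 * z2) • e k x c + (1 + x * z2) • e k y1 c
        + (x * y1) • e k z2 c = 0 := by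
      intro c
      have h0 : e k (x * (z2 ^ 2 + y1 * z2) + y1 * (1 + y1)) c = 0 := by
        rw [hF]
        have : e k (0 : K) c = 0 := by
          have := e_mul (k := k) (0 : K) 0 c
          simpa using this
        exact this
      rw [e_add, e_mul, e_add, e_sq, e_mul, e_mul, e_add, e_one] at h0
      have h3 := add_self_W (K := K) (y1 • e k y1 c)
      rw [← h0]
      have h4 : (y1 • (0 + e k y1 c) + (1 + y1) • e k y1 c) = e k y1 c := by
        rw [zero_add, add_smul, one_smul]
        calc y1 • e k y1 c + (e k y1 c + y1 • e k y1 c)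
            = e k y1 c + (y1 • e k y1 c + y1 • e k y1 c) := by abel
          _ = e k y1 c := by rw [h3, add_zero]
      rw [h4]
      module
    set om := (x * y1)⁻¹ • e k x y1 with hom
    have hxy : x * y1 ≠ 0 := mul_ne_zero hx hy
    have E1 : e k x y1 = (x * y1) • om := by
      rw [hom, smul_smul, mul_inv_cancel₀ hxy, one_smul]
    have E2 : e k z2 y1 = (z2 ^ 2 + y1 * z2) • om := by
      have := key y1
      rw [e_self, smul_zero, add_zero] at this
      have h5 : (x * y1) • e k z2 y1 = (z2 ^ 2 + y1 * z2) • e k x y1 := by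
        rw [← neg_eq_self (K := K) ((z2 ^ 2 + y1 * z2) • e k x y1)]
        exact eq_neg_of_add_eq_zero_right this
      rw [E1, smul_comm] at h5
      exact smul_right_injective _ hxy h5
    have E3 : e k z2 x = (1 + x * z2) • om := by
      have := key x
      rw [e_self, smul_zero, zero_add] at this
      have h5 : (x * y1) • e k z2 x = (1 + x * z2) • e k y1 x := by
        rw [← neg_eq_self (K := K) ((1 + x * z2) • e k y1 x)]
        exact eq_neg_of_add_eq_zero_right this
      rw [e_comm y1 x, E1, smul_comm] at h5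
      exact smul_right_injective _ hxy h5
    have hfin : om = (1 + x * z2) • e k z2 x + (x ^ 2) • e k z2 y1 + (x * z2) • e k x y1 := by
      rw [E2, E3, E1]
      clear_value om
      rw [smul_smul, smul_smul, smul_smul, ← add_smul, ← add_smul]
      have : (1 + x * z2) * (1 + x * z2) + x ^ 2 * (z2 ^ 2 + y1 * z2) + x * z2 * (x * y1) = 1 := by
        linear_combination (x * z2 + x ^ 2 * z2 ^ 2 + x ^ 2 * y1 * z2) * h2
      rw [this, one_smul]
    rw [hfin]
    refine AddSubgroup.add_mem _ (AddSubgroup.add_mem _ ?_ ?_) ?_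
    · exact mem_reg _ _ (V.add_mem _ _ V.one_mem (V.mul_mem _ _ hxV hz)) hz hxV
    · exact mem_reg _ _ (by rw [pow_two]; exact V.mul_mem _ _ hxV hxV) hz hyV
    · exact mem_reg _ _ (V.mul_mem _ _ hxV hz) hxV hyV
  · -- case 1
    have hz1 : z1 ≠ 0 := by
      intro h0; apply hz; rw [h0, zero_div]; exact V.zero_mem
    set x2 := x / z1 with hx2
    have hxz : x = z1 * x2 := by rw [hx2]; field_simp
    have hv : V.valuation x2 < 1 := by
      rw [← V.valuation_le_one_iff, not_le] at hz
      have : x2 = (z1 / x)⁻¹ := by rw [hx2, inv_div]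
      rw [this, map_inv₀]
      exact inv_lt_one_of_one_lt₀ hz
    have hx2V : x2 ∈ V := (V.valuation_le_one_iff _).1 hv.le
    set u := 1 + x2 * y1 with hu
    have huv : V.valuation u = 1 := by
      rw [hu]
      apply Valuation.map_one_add_of_lt
      rw [map_mul]
      calc V.valuation x2 * V.valuation y1 ≤ V.valuation x2 * 1 := by
            gcongr
            exact (V.valuation_le_one_iff _).2 hyV
        _ < 1 := by rw [mul_one]; exact hv
    have hu0 : u ≠ 0 := by
      intro h0; rw [h0, map_zero] at huv; exact zero_ne_one huv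
    have huV : u⁻¹ ∈ V := by
      rw [← V.valuation_le_one_iff, map_inv₀, huv, inv_one]
    have hrel : x * u = x2 ^ 2 * (y1 + y1 ^ 2) := by
      have h3 : z1 * u = x2 * (y1 + y1 ^ 2) := by
        have : z1 * (z1 * u + x2 * (y1 + y1 ^ 2)) = 0 := by
          have h' := h
          rw [hxz] at h'
          rw [hu]
          linear_combination h'
        rcases mul_eq_zero.1 this with h' | h'
        · exact absurd h' hz1
        · linear_combination h' - (x2 * (y1 + y1 ^ 2)) * h2
      calc x * u = x2 * (z1 * u) := by rw [hxz]; ring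
        _ = x2 ^ 2 * (y1 + y1 ^ 2) := by rw [h3]; ring
    have hE : u • e k x y1 = (x * y1) • e k x2 y1 := by
      have h0 : e k (x * u) y1 = e k (x2 ^ 2 * (y1 + y1 ^ 2)) y1 := by rw [hrel]
      rw [e_mul, e_mul, e_add y1, e_sq, e_sq, e_self, hu, e_add, e_one, e_mul, e_self] at h0
      simp only [smul_zero, add_zero, zero_add] at h0
      rw [← hu] at h0
      have h5 : u • e k x y1 = x • y1 • e k x2 y1 := by
        rw [← neg_eq_self (K := K) (x • y1 • e k x2 y1)]
        exact eq_neg_of_add_eq_zero_right h0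
      rw [h5, smul_smul]
    have hxy : x * y1 ≠ 0 := mul_ne_zero hx hy
    have : (x * y1)⁻¹ • e k x y1 = u⁻¹ • e k x2 y1 := by
      have h6 : e k x y1 = u⁻¹ • (x * y1) • e k x2 y1 := by
        rw [← hE, smul_smul, inv_mul_cancel₀ hu0, one_smul]
      rw [h6, smul_comm, smul_smul (x * y1)⁻¹, inv_mul_cancel₀ hxy, one_smul]
    rw [this]
    exact mem_reg _ _ huV hx2V hyV

lemma aux2 (V : ValuationSubring K) (x y z : K) (hx : x ≠ 0) (hy : y ≠ 0)
    (hxV : x ∈ V) (hyx : y / x ∈ V)
    (h : z ^ 2 + x * y * z + x ^ 2 * y + y ^ 2 * x = 0) :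
    (x * y)⁻¹ • e k x y ∈ regularForms (KaehlerDifferential.D k K) (V : Set K) := by
  set y1 := y / x with hy1
  have hyy : y = x * y1 := by rw [hy1]; field_simp
  have hy10 : y1 ≠ 0 := div_ne_zero hy hx
  have := aux (k := k) V x y1 (z / x) hx hy10 hxV hyx (by
    have h' : x ^ 2 * ((z / x) ^ 2 + x * y1 * (z / x) + x * y1 * (1 + y1)) = 0 := by
      rw [hy1]
      field_simp
      linear_combination h
    rcases mul_eq_zero.1 h' with h'' | h''
    · exact absurd (pow_eq_zero_iff (two_ne_zero) |>.1 h'') hx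
    · exact h'')
  have hE : e k x y = x • e k x y1 := by
    rw [hyy, e_comm, e_mul, e_self, smul_zero, add_zero, e_comm]
  rw [hE, smul_smul]
  have h3 : (x * y)⁻¹ * x = (x * y1)⁻¹ := by
    rw [hyy]; field_simp
  rw [h3]; exact this

end Job296

theorem regular_X1_aux {k K : Type*} [Field k] [Field K] [Algebra k K] [CharP K 2]
    (V : ValuationSubring K) (x y z : K) (hx : x ≠ 0) (hy : y ≠ 0)
    (hxV : x ∈ V) (hyV : y ∈ V) (hzV : z ∈ V)
    (h : z ^ 2 + x * y * z + x ^ 2 * y + y ^ 2 * x = 0) :
    (x * y)⁻¹ • exteriorPower.ιMulti K 2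
        (fun i => KaehlerDifferential.D k K ((![x, y] : Fin 2 → K) i)) ∈
      regularForms (KaehlerDifferential.D k K) (V : Set K) := by
  have hconv : exteriorPower.ιMulti K 2
        (fun i => KaehlerDifferential.D k K ((![x, y] : Fin 2 → K) i)) = Job296.e k x y := by
    unfold Job296.e Job296.w
    congr 1
    funext i; fin_cases i <;> rfl
  rw [hconv]
  rcases V.mem_or_inv_mem (y / x) with h1 | h1
  · exact Job296.aux2 V x y z hx hy hxV h1 h
  · rw [inv_div] at h1
    rw [Job296.e_comm, mul_comm x y]
    exact Job296.aux2 V y x z hy hx hyV h1 (by linear_combination h)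

theorem regular_X1 {k K : Type*} [Field k] [Field K] [Algebra k K] [CharP K 2]
    (V : ValuationSubring K) (x y z : K) (hx : x ≠ 0) (hy : y ≠ 0)
    (hxV : x ∈ V) (hyV : y ∈ V) (hzV : z ∈ V)
    (h : z ^ 2 + x * y * z + x ^ 2 * y + y ^ 2 * x = 0) :
    (x * y)⁻¹ • br k x y ∈ regularForms (KaehlerDifferential.D k K) (V : Set K) :=
  regular_X1_aux V x y z hx hy hxV hyV hzV h

end Pool.Agent.Helper165.LT
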