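import Pool.Agent.Helper165.LT.Om

set_option autoImplicit false

open MvPowerSeries

namespace Pool.Agent.Helper165.LT.JobB

open Pool.Agent.Helper165.LT

theorem coeff_sq_smul {k : Type*} [Field k] [CharP k 2] (D : MvPowerSeries (Fin 2) k)
    (m : Fin 2 →₀ ℕ) : coeff (2 • m) (D ^ 2) = (coeff m D) ^ 2 := by
  rw [← map_frobenius_expand 2 two_ne_zero (f := D), coeff_map, coeff_expand_smul]
  rfl

theorem coeff_sq_odd {k : Type*} [Field k] [CharP k 2] (D : MvPowerSeries (Fin 2) k)
    {d : Fin 2 →₀ ℕ} {i : Fin 2} (h : ¬ 2 ∣ d i) : coeff d (D ^ 2) = 0 := by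
  rw [← map_frobenius_expand 2 two_ne_zero (f := D), coeff_map,
    coeff_expand_of_not_dvd 2 two_ne_zero D h, map_zero]

theorem coeff_sq_mono {k : Type*} [Field k] [CharP k 2] (c : MvPowerSeries (Fin 2) k)
    (δ δ' e : Fin 2 →₀ ℕ) (h : ∀ i, δ i ≤ 1) (h' : ∀ i, δ' i ≤ 1) :
    coeff (2 • e + δ') (c ^ 2 * monomial δ 1) = if δ = δ' then (coeff e c) ^ 2 else 0 := by
  classical
  rw [coeff_mul_monomial]
  by_cases hd : δ = δ'
  · subst hd
    rw [if_pos rfl, if_pos le_add_self, add_tsub_cancel_right, mul_one, coeff_sq_smul]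
  · rw [if_neg hd]
    split_ifs with hle
    · have : ∃ i, δ i ≠ δ' i := by
        by_contra hc
        push Not at hc
        exact hd (Finsupp.ext hc)
      obtain ⟨i, hi⟩ := this
      rw [coeff_sq_odd c (i := i), zero_mul]
      have h1 := h i
      have h2 := h' i
      have h3 := hle i
      simp only [Finsupp.coe_add, Finsupp.coe_smul, Pi.add_apply, Pi.smul_apply, smul_eq_mul,
        Finsupp.coe_tsub, Pi.sub_apply] at h3 ⊢
      omega
    · rfl

noncomputable def part {k : Type*} [Field k] [CharP k 2] [PerfectRing k 2]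
    (f : MvPowerSeries (Fin 2) k) (δ : Fin 2 →₀ ℕ) : MvPowerSeries (Fin 2) k :=
  fun e => (frobeniusEquiv k 2).symm (coeff (2 • e + δ) f)

theorem part_sq {k : Type*} [Field k] [CharP k 2] [PerfectRing k 2]
    (f : MvPowerSeries (Fin 2) k) (δ e : Fin 2 →₀ ℕ) :
    (coeff e (part f δ)) ^ 2 = coeff (2 • e + δ) f := by
  have : coeff e (part f δ) = (frobeniusEquiv k 2).symm (coeff (2 • e + δ) f) := rfl
  rw [this]
  exact frobeniusEquiv_symm_pow_p k 2 _

/-- B1: over a perfect field of characteristic 2, `k[[u,v]]` is generated by `1,u,v,uv` over its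
subring of squares. -/
theorem decomp {k : Type*} [Field k] [CharP k 2] [PerfectRing k 2] (f : MvPowerSeries (Fin 2) k) :
    ∃ c₀ c₁ c₂ c₃ : MvPowerSeries (Fin 2) k,
      f = (c₀ ^ 2 + c₁ ^ 2 * X 0) + (c₂ ^ 2 + c₃ ^ 2 * X 0) * X 1 := by
  classical
  let s0 : Fin 2 →₀ ℕ := Finsupp.single 0 1
  let s1 : Fin 2 →₀ ℕ := Finsupp.single 1 1
  refine ⟨part f 0, part f s0, part f s1, part f (s0 + s1), ?_⟩
  have hX : ((part f 0) ^ 2 + (part f s0) ^ 2 * X 0) +
      ((part f s1) ^ 2 + (part f (s0 + s1)) ^ 2 * X 0) * X 1 =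
      (part f 0) ^ 2 * monomial 0 1 + (part f s0) ^ 2 * monomial s0 1 +
        (part f s1) ^ 2 * monomial s1 1 + (part f (s0 + s1)) ^ 2 * monomial (s0 + s1) 1 := by
    have e1 : (monomial (s0 + s1) (1:k)) = X 0 * X 1 := by
      rw [X, X, monomial_mul_monomial, one_mul]
    have e2 : (monomial s0 (1:k)) = X 0 := rfl
    have e3 : (monomial s1 (1:k)) = X 1 := rfl
    rw [e1, e2, e3]
    simp only [monomial_zero_one, mul_one]
    ring
  rw [hX]
  ext d
  -- decompose d
  obtain ⟨e, δ, hd, hδ⟩ : ∃ e δ : Fin 2 →₀ ℕ, d = 2 • e + δ ∧ ∀ i, δ i ≤ 1 := by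
    refine ⟨d.mapRange (fun a => a / 2) (by simp), d.mapRange (fun a => a % 2) (by simp), ?_, ?_⟩
    · ext i
      simp only [Finsupp.coe_add, Finsupp.coe_smul, Pi.add_apply, Pi.smul_apply, smul_eq_mul,
        Finsupp.mapRange_apply]
      omega
    · intro i
      simp only [Finsupp.mapRange_apply]
      omega
  have b0 : ∀ i, (0 : Fin 2 →₀ ℕ) i ≤ 1 := by intro i; simp
  have bs0 : ∀ i, s0 i ≤ 1 := by intro i; simp only [s0, Finsupp.single_apply]; split_ifs <;> omega
  have bs1 : ∀ i, s1 i ≤ 1 := by intro i; simp only [s1, Finsupp.single_apply]; split_ifs <;> omega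
  have bs : ∀ i, (s0 + s1) i ≤ 1 := by
    intro i
    fin_cases i <;> simp [s0, s1]
  subst hd
  simp only [map_add]
  rw [coeff_sq_mono _ _ _ _ b0 hδ, coeff_sq_mono _ _ _ _ bs0 hδ, coeff_sq_mono _ _ _ _ bs1 hδ,
    coeff_sq_mono _ _ _ _ bs hδ]
  simp only [part_sq]
  -- δ is one of four
  have h01 : s0 0 = 1 := by simp [s0]
  have h02 : s0 1 = 0 := by simp [s0]
  have h11 : s1 0 = 0 := by simp [s1]
  have h12 : s1 1 = 1 := by simp [s1]
  have key : ∀ γ : Fin 2 →₀ ℕ, γ = δ ↔ (γ 0 = δ 0 ∧ γ 1 = δ 1) := by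
    intro γ
    constructor
    · rintro rfl; exact ⟨rfl, rfl⟩
    · rintro ⟨h1, h2⟩
      ext i
      fin_cases i
      · exact h1
      · exact h2
  have hδ0 := hδ 0
  have hδ1 := hδ 1
  rcases Nat.le_one_iff_eq_zero_or_eq_one.1 hδ0 with a | a <;>
    rcases Nat.le_one_iff_eq_zero_or_eq_one.1 hδ1 with b | b
  · have hh : (0 : Fin 2 →₀ ℕ) = δ := by rw [key]; simp [a, b]
    have n1 : ¬ s0 = δ := by rw [key]; simp [a, b, h01]
    have n2 : ¬ s1 = δ := by rw [key]; simp [a, b, h12]
    have n3 : ¬ (s0 + s1) = δ := by rw [key]; simp [a, b, h01]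
    rw [if_pos hh, if_neg n1, if_neg n2, if_neg n3, ← hh]
    simp
  · have hh : s1 = δ := by rw [key]; simp [a, b, h11, h12]
    have n1 : ¬ s0 = δ := by rw [key]; simp [a, b, h01]
    have n2 : ¬ (0 : Fin 2 →₀ ℕ) = δ := by rw [key]; simp [a, b]
    have n3 : ¬ (s0 + s1) = δ := by rw [key]; simp [a, b, h01]
    rw [if_neg n2, if_neg n1, if_pos hh, if_neg n3, ← hh]
    simp
  · have hh : s0 = δ := by rw [key]; simp [a, b, h01, h02]
    have n1 : ¬ s1 = δ := by rw [key]; simp [a, b, h11]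
    have n2 : ¬ (0 : Fin 2 →₀ ℕ) = δ := by rw [key]; simp [a, b]
    have n3 : ¬ (s0 + s1) = δ := by rw [key]; simp [a, b, h12]
    rw [if_neg n2, if_pos hh, if_neg n1, if_neg n3, ← hh]
    simp
  · have hh : s0 + s1 = δ := by rw [key]; simp [a, b, h01, h02, h11, h12]
    have n1 : ¬ s1 = δ := by rw [key]; simp [a, b, h11]
    have n2 : ¬ (0 : Fin 2 →₀ ℕ) = δ := by rw [key]; simp [a, b]
    have n3 : ¬ s0 = δ := by rw [key]; simp [a, b, h02]
    rw [if_neg n2, if_neg n3, if_neg n1, if_pos hh, ← hh]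
    simp

theorem wX0 {k : Type*} [Field k] : weightedOrder w (X 0 : MvPowerSeries (Fin 2) k) = 2 := by
  rw [X, weightedOrder_monomial_of_ne_zero w one_ne_zero]
  simp [w, Finsupp.weight_single]

theorem wX1 {k : Type*} [Field k] : weightedOrder w (X 1 : MvPowerSeries (Fin 2) k) = 1 := by
  rw [X, weightedOrder_monomial_of_ne_zero w one_ne_zero]
  simp [w, Finsupp.weight_single]

theorem le_of_coeff {k : Type*} [Field k] (f g : MvPowerSeries (Fin 2) k)
    (h : ∀ d, coeff d f ≠ 0 → coeff d g ≠ 0) : weightedOrder w g ≤ weightedOrder w f := by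
  apply le_weightedOrder
  intro d hd
  by_contra hc
  exact absurd hd (not_lt.2 (weightedOrder_le w (h d hc)))

/-- B2: no cancellation between `D²` and `E² u`. -/
theorem weight_sq_add {k : Type*} [Field k] [CharP k 2] (D E : MvPowerSeries (Fin 2) k) :
    weightedOrder w (D ^ 2 + E ^ 2 * X 0) =
      min (2 * weightedOrder w D) (2 * weightedOrder w E + 2) := by
  classical
  have hA : weightedOrder w (D ^ 2) = 2 * weightedOrder w D := by
    rw [pow_two, weightedOrder_mul, two_mul]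
  have hB : weightedOrder w (E ^ 2 * X 0) = 2 * weightedOrder w E + 2 := by
    rw [pow_two, weightedOrder_mul, weightedOrder_mul, two_mul, wX0]
  rw [← hA, ← hB]
  have hX : ∀ d, coeff d (E ^ 2 * X 0) ≠ 0 → ¬ 2 ∣ d 0 := by
    intro d hd h2
    apply hd
    rw [X, coeff_mul_monomial]
    split_ifs with hle
    · rw [coeff_sq_odd E (i := 0), zero_mul]
      have := hle 0
      simp only [Finsupp.single_eq_same, Finsupp.coe_tsub, Pi.sub_apply] at this ⊢
      omega
    · rfl
  apply le_antisymm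
  · rw [le_min_iff]
    constructor
    · apply le_of_coeff
      intro d hd
      have h2 : 2 ∣ d 0 := by
        by_contra hc
        exact hd (coeff_sq_odd D hc)
      have h0 : coeff d (E ^ 2 * X 0) = 0 := by
        by_contra hc
        exact hX d hc h2
      rw [map_add, h0, add_zero]
      exact hd
    · apply le_of_coeff
      intro d hd
      have h0 : coeff d (D ^ 2) = 0 := coeff_sq_odd D (hX d hd)
      rw [map_add, h0, zero_add]
      exact hd
  · exact min_weightedOrder_le_add w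

/-- `G n f`: `f` has weight at least `n` and `σ f - f` has weight at least `n + 3`. -/
def G {k : Type*} [Field k] (σ : MvPowerSeries (Fin 2) k →ₐ[k] MvPowerSeries (Fin 2) k)
    (n : ℕ) (f : MvPowerSeries (Fin 2) k) : Prop :=
  (n : ℕ∞) ≤ weightedOrder w f ∧ ((n + 3 : ℕ) : ℕ∞) ≤ weightedOrder w (σ f - f)

theorem G_mono {k : Type*} [Field k]
    {σ : MvPowerSeries (Fin 2) k →ₐ[k] MvPowerSeries (Fin 2) k} {n m : ℕ} (h : n ≤ m)
    {f : MvPowerSeries (Fin 2) k} (hf : G σ m f) : G σ n f :=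
  ⟨(Nat.cast_le.2 h).trans hf.1, (Nat.cast_le.2 (by omega)).trans hf.2⟩

theorem G_mul {k : Type*} [Field k]
    {σ : MvPowerSeries (Fin 2) k →ₐ[k] MvPowerSeries (Fin 2) k}
    (hσ : ∀ f, weightedOrder w f ≤ weightedOrder w (σ f)) {n m : ℕ}
    {f g : MvPowerSeries (Fin 2) k} (hf : G σ n f) (hg : G σ m g) : G σ (n + m) (f * g) := by
  constructor
  · rw [Nat.cast_add]
    exact (add_le_add hf.1 hg.1).trans (le_weightedOrder_mul w)
  · have e : σ (f * g) - f * g = (σ f - f) * σ g + f * (σ g - g) := by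
      rw [map_mul]; ring
    rw [e]
    refine le_trans (le_min ?_ ?_) (min_weightedOrder_le_add w)
    · refine le_trans ?_ (le_weightedOrder_mul w)
      have : ((n + m + 3 : ℕ) : ℕ∞) = ((n + 3 : ℕ) : ℕ∞) + (m : ℕ∞) := by
        rw [← Nat.cast_add]; congr 1; omega
      rw [this]
      exact add_le_add hf.2 (hg.1.trans (hσ g))
    · refine le_trans ?_ (le_weightedOrder_mul w)
      have : ((n + m + 3 : ℕ) : ℕ∞) = (n : ℕ∞) + ((m + 3 : ℕ) : ℕ∞) := by
        rw [← Nat.cast_add]; congr 1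
      rw [this]
      exact add_le_add hf.1 hg.2

theorem G_add {k : Type*} [Field k]
    {σ : MvPowerSeries (Fin 2) k →ₐ[k] MvPowerSeries (Fin 2) k} {n : ℕ}
    {f g : MvPowerSeries (Fin 2) k} (hf : G σ n f) (hg : G σ n g) : G σ n (f + g) := by
  constructor
  · exact le_trans (le_min hf.1 hg.1) (min_weightedOrder_le_add w)
  · have e : σ (f + g) - (f + g) = (σ f - f) + (σ g - g) := by rw [map_add]; ring
    rw [e]
    exact le_trans (le_min hf.2 hg.2) (min_weightedOrder_le_add w)

theorem G_zero {k : Type*} [Field k]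
    (σ : MvPowerSeries (Fin 2) k →ₐ[k] MvPowerSeries (Fin 2) k) (n : ℕ) : G σ n 0 := by
  constructor
  · simp
  · simp

theorem G_C {k : Type*} [Field k]
    (σ : MvPowerSeries (Fin 2) k →ₐ[k] MvPowerSeries (Fin 2) k) (c : k) : G σ 0 (C c) := by
  constructor
  · simp
  · have : σ (C c) = C c := σ.commutes c
    rw [this, sub_self]
    simp

theorem G_pow {k : Type*} [Field k]
    {σ : MvPowerSeries (Fin 2) k →ₐ[k] MvPowerSeries (Fin 2) k}
    (hσ : ∀ f, weightedOrder w f ≤ weightedOrder w (σ f)) {n : ℕ}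
    {f : MvPowerSeries (Fin 2) k} (hf : G σ n f) (i : ℕ) : G σ (i * n) (f ^ i) := by
  induction i with
  | zero =>
    have := G_C σ (1 : k)
    simpa using this
  | succ i ih =>
    rw [pow_succ, add_mul, one_mul]
    exact G_mul hσ ih hf

theorem G_monomial {k : Type*} [Field k]
    {σ : MvPowerSeries (Fin 2) k →ₐ[k] MvPowerSeries (Fin 2) k}
    (hσ : ∀ f, weightedOrder w f ≤ weightedOrder w (σ f))
    (h0 : 5 ≤ weightedOrder w (σ (X 0) - X 0)) (h1 : 4 ≤ weightedOrder w (σ (X 1) - X 1))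
    (d : Fin 2 →₀ ℕ) (c : k) : G σ (Finsupp.weight w d) (monomial d c) := by
  have g0 : G σ 2 (X 0) := ⟨by rw [wX0]; rfl, h0⟩
  have g1 : G σ 1 (X 1) := ⟨by rw [wX1]; rfl, h1⟩
  have e : monomial d c = C c * (X 0) ^ (d 0) * (X 1) ^ (d 1) := by
    rw [monomial_eq', Finsupp.prod_fintype]
    · rw [Fin.prod_univ_two, mul_assoc]
    · intro i; simp
  have hw : Finsupp.weight w d = 0 + d 0 * 2 + d 1 * 1 := by
    rw [Finsupp.weight_apply, Finsupp.sum_fintype]
    · rw [Fin.sum_univ_two]
      simp [w]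
    · intro i; simp
  rw [e, hw]
  exact G_mul hσ (G_mul hσ (G_C σ c) (G_pow hσ g0 _)) (G_pow hσ g1 _)

theorem G_sum {k : Type*} [Field k] {ι : Type*}
    {σ : MvPowerSeries (Fin 2) k →ₐ[k] MvPowerSeries (Fin 2) k} {n : ℕ}
    (s : Finset ι) (F : ι → MvPowerSeries (Fin 2) k) (h : ∀ i ∈ s, G σ n (F i)) :
    G σ n (∑ i ∈ s, F i) := by
  classical
  induction s using Finset.induction_on with
  | empty => simpa using G_zero σ n
  | insert a s ha ih =>
    rw [Finset.sum_insert ha]
    exact G_add (h a (Finset.mem_insert_self _ _))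
      (ih fun i hi => h i (Finset.mem_insert_of_mem hi))

/-- B3: if `σ` raises the weight of `u` and `v` by at least 3 then it raises all weights by at
least 3. -/
theorem gap {k : Type*} [Field k] [CharP k 2]
    (σ : MvPowerSeries (Fin 2) k →ₐ[k] MvPowerSeries (Fin 2) k)
    (hσ : ∀ f, weightedOrder w f ≤ weightedOrder w (σ f))
    (h0 : 5 ≤ weightedOrder w (σ (X 0) - X 0)) (h1 : 4 ≤ weightedOrder w (σ (X 1) - X 1))
    (f : MvPowerSeries (Fin 2) k) :
    weightedOrder w f + 3 ≤ weightedOrder w (σ f - f) := by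
  classical
  by_cases hf : f = 0
  · subst hf
    simp
  obtain ⟨n, hn⟩ := ENat.ne_top_iff_exists.mp (fun h => hf ((weightedOrder_eq_top_iff w).1 h))
  suffices hG : G σ n f by
    rw [← hn]
    exact_mod_cast hG.2
  have hfin : {d : Fin 2 →₀ ℕ | Finsupp.weight w d < n + 3}.Finite := by
    have : {d : Fin 2 →₀ ℕ | Finsupp.weight w d < n + 3} ⊆
        (Finset.Iic (Finsupp.equivFunOnFinite.symm (fun _ : Fin 2 => n + 3)) : Set _) := by
      intro d hd
      simp only [Set.mem_ofPred_eq] at hd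
      have hw : Finsupp.weight w d = d 0 * 2 + d 1 * 1 := by
        rw [Finsupp.weight_apply, Finsupp.sum_fintype]
        · rw [Fin.sum_univ_two]
          simp [w]
        · intro i; simp
      simp only [Finset.coe_Iic, Set.mem_Iic]
      intro i
      simp only [Finsupp.equivFunOnFinite_symm_apply_apply]
      fin_cases i <;> simp <;> omega
    exact (Finset.finite_toSet _).subset this
  let s := hfin.toFinset
  have hs : ∀ d, d ∈ s ↔ Finsupp.weight w d < n + 3 := by
    intro d
    simp [s]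
  let t : MvPowerSeries (Fin 2) k := ∑ x ∈ s, monomial x (coeff x f)
  have ht : ∀ d, coeff d t = if d ∈ s then coeff d f else 0 := by
    intro d
    simp only [t, map_sum, coeff_monomial]
    rw [Finset.sum_ite_eq]
  have hGt : G σ n t := by
    apply G_sum
    intro d hd
    by_cases hlt : Finsupp.weight w d < n
    · have : coeff d f = 0 := by
        apply coeff_eq_zero_of_lt_weightedOrder w
        rw [← hn]
        exact_mod_cast hlt
      rw [this, map_zero]
      exact G_zero σ n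
    · push Not at hlt
      exact G_mono hlt (G_monomial hσ h0 h1 d _)
  have hr : ((n + 3 : ℕ) : ℕ∞) ≤ weightedOrder w (f - t) := by
    apply nat_le_weightedOrder
    intro d hd
    rw [map_sub, ht, if_pos ((hs d).2 hd), sub_self]
  have hGr : G σ n (f - t) := by
    constructor
    · exact le_trans (Nat.cast_le.2 (by omega)) hr
    · have e : σ (f - t) - (f - t) = σ (f - t) + (-(f - t)) := by ring
      rw [e]
      refine le_trans (le_min (hr.trans (hσ _)) ?_) (min_weightedOrder_le_add w)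
      rw [weightedOrder_neg]
      exact hr
  have e : f = t + (f - t) := by ring
  rw [e]
  exact G_add hGt hGr

end Pool.Agent.Helper165.LT.JobB
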