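import Pool.Agent.Helper165.LT.Om

set_option autoImplicit false

open KaehlerDifferential MvPowerSeries

namespace Pool.Agent.Helper165.LT

theorem Setup.pbasis_aux {A : Type*} [CommRing A] [CharP A 2] (x y : A)
    (P : A → Prop) (hP : ∀ s, P s → ∀ t, P t → P (s * t)) (hP1 : P 1)
    (Good : A → Prop)
    (hGood : ∀ r, Good r ↔ ∃ s c₀ c₁ c₂ c₃ : A, P s ∧
      s ^ 2 * r = c₀ ^ 2 + c₁ ^ 2 * x + c₂ ^ 2 * y + c₃ ^ 2 * (x * y)) :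
    (∀ r, Good (r ^ 2)) ∧ (∀ r r', Good r → Good r' → Good (r + r')) ∧
    (∀ r r', Good r → Good r' → Good (r * r')) := by
  refine ⟨?_, ?_, ?_⟩
  · intro r
    rw [hGood]
    exact ⟨1, r, 0, 0, 0, hP1, by ring⟩
  · intro r r' h h'
    rw [hGood] at h h' ⊢
    obtain ⟨s, c₀, c₁, c₂, c₃, hs, e⟩ := h
    obtain ⟨s', d₀, d₁, d₂, d₃, hs', e'⟩ := h'
    refine ⟨s * s', s' * c₀ + s * d₀, s' * c₁ + s * d₁, s' * c₂ + s * d₂, s' * c₃ + s * d₃,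
      hP _ hs _ hs', ?_⟩
    simp only [CharTwo.add_sq, mul_pow]
    linear_combination s' ^ 2 * e + s ^ 2 * e'
  · intro r r' h h'
    rw [hGood] at h h' ⊢
    obtain ⟨s, c₀, c₁, c₂, c₃, hs, e⟩ := h
    obtain ⟨s', d₀, d₁, d₂, d₃, hs', e'⟩ := h'
    refine ⟨s * s', c₀ * d₀ + c₁ * d₁ * x + c₂ * d₂ * y + c₃ * d₃ * (x * y),
      c₀ * d₁ + c₁ * d₀ + c₂ * d₃ * y + c₃ * d₂ * y,
      c₀ * d₂ + c₂ * d₀ + c₁ * d₃ * x + c₃ * d₁ * x,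
      c₀ * d₃ + c₃ * d₀ + c₁ * d₂ + c₂ * d₁, hP _ hs _ hs', ?_⟩
    simp only [CharTwo.add_sq, mul_pow]
    linear_combination (s' ^ 2 * r') * e +
      (c₀ ^ 2 + c₁ ^ 2 * x + c₂ ^ 2 * y + c₃ ^ 2 * (x * y)) * e'

theorem Setup.pbasis {k : Type*} [Field k] [CharP k 2] (S : Setup k)
    (decomp : ∀ f : MvPowerSeries (Fin 2) k, ∃ c₀ c₁ c₂ c₃ : MvPowerSeries (Fin 2) k,
      f = (c₀ ^ 2 + c₁ ^ 2 * X 0) + (c₂ ^ 2 + c₃ ^ 2 * X 0) * X 1)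
    (hu : ∃ s c₀ c₁ c₂ c₃ : MvPowerSeries (Fin 2) k, s ≠ 0 ∧ S.σ s = s ∧
      s ^ 2 * X 0 = c₀ ^ 2 + c₁ ^ 2 * S.x + c₂ ^ 2 * S.y + c₃ ^ 2 * (S.x * S.y))
    (hv : ∃ s c₀ c₁ c₂ c₃ : MvPowerSeries (Fin 2) k, s ≠ 0 ∧ S.σ s = s ∧
      s ^ 2 * X 1 = c₀ ^ 2 + c₁ ^ 2 * S.x + c₂ ^ 2 * S.y + c₃ ^ 2 * (S.x * S.y))
    (t : S.K) : ∃ c₀ c₁ c₂ c₃ : S.K,
      t = c₀ ^ 2 + c₁ ^ 2 * algebraMap S.R S.K S.xR + c₂ ^ 2 * algebraMap S.R S.K S.yR +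
        c₃ ^ 2 * (algebraMap S.R S.K S.xR * algebraMap S.R S.K S.yR) := by
  classical
  set A := MvPowerSeries (Fin 2) k with hA
  set Good : A → Prop := fun r => ∃ s c₀ c₁ c₂ c₃ : A, (s ≠ 0 ∧ S.σ s = s) ∧
      s ^ 2 * r = c₀ ^ 2 + c₁ ^ 2 * S.x + c₂ ^ 2 * S.y + c₃ ^ 2 * (S.x * S.y) with hGooddef
  obtain ⟨gsq, gadd, gmul⟩ := Setup.pbasis_aux S.x S.y (fun s => s ≠ 0 ∧ S.σ s = s)
    (fun s hs t ht => ⟨mul_ne_zero hs.1 ht.1, by rw [map_mul, hs.2, ht.2]⟩)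
    ⟨one_ne_zero, map_one _⟩ Good (fun r => Iff.rfl)
  have gu : Good (X 0) := by
    obtain ⟨s, c₀, c₁, c₂, c₃, h1, h2, h3⟩ := hu
    exact ⟨s, c₀, c₁, c₂, c₃, ⟨h1, h2⟩, h3⟩
  have gv : Good (X 1) := by
    obtain ⟨s, c₀, c₁, c₂, c₃, h1, h2, h3⟩ := hv
    exact ⟨s, c₀, c₁, c₂, c₃, ⟨h1, h2⟩, h3⟩
  have gall : ∀ f, Good f := by
    intro f
    obtain ⟨c₀, c₁, c₂, c₃, h⟩ := decomp f
    rw [h]
    exact gadd _ _ (gadd _ _ (gsq _) (gmul _ _ (gsq _) gu))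
      (gmul _ _ (gadd _ _ (gsq _) (gmul _ _ (gsq _) gu)) gv)
  -- invariants
  have hinv : ∀ r : A, S.σ r = r → ∃ s d₀ d₁ d₂ d₃ : S.R, s ≠ 0 ∧
      (s : A) ^ 2 * r = (d₀ : A) ^ 2 + (d₁ : A) ^ 2 * S.x + (d₂ : A) ^ 2 * S.y +
        (d₃ : A) ^ 2 * (S.x * S.y) := by
    intro r hr
    obtain ⟨s, c₀, c₁, c₂, c₃, ⟨hs0, hs⟩, e⟩ := gall r
    have hd : ∀ c : A, S.σ (X 1 * c + S.σ (X 1 * c)) = X 1 * c + S.σ (X 1 * c) := by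
      intro c
      rw [map_add, S.inv, add_comm]
    refine ⟨⟨S.b * s, by rw [S.mem_R, map_mul, S.σb, hs]⟩,
      ⟨_, (S.mem_R).2 (hd c₀)⟩, ⟨_, (S.mem_R).2 (hd c₁)⟩, ⟨_, (S.mem_R).2 (hd c₂)⟩,
      ⟨_, (S.mem_R).2 (hd c₃)⟩, ?_, ?_⟩
    · intro h
      exact mul_ne_zero S.b0 hs0 (congrArg Subtype.val h)
    · have e2 := congrArg S.σ e
      simp only [map_add, map_mul, map_pow, hs, hr, S.σx, S.σy] at e2
      simp only [CharTwo.add_sq, map_mul, mul_pow]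
      have h2 : (2 : A) = 0 := CharTwo.two_eq_zero
      have hσ : S.σ (X 1) ^ 2 = X 1 ^ 2 + S.b ^ 2 := by
        rw [S.σv, CharTwo.add_sq]
      rw [hσ]
      linear_combination (X 1 ^ 2) * e + (X 1 ^ 2 + S.b ^ 2) * e2 - (X 1 ^ 2 * s ^ 2 * r) * h2
  obtain ⟨f, g, hg, rfl⟩ := IsFractionRing.div_surjective (A := S.R) t
  have hg0 : g ≠ 0 := nonZeroDivisors.ne_zero hg
  obtain ⟨s, d₀, d₁, d₂, d₃, hs, e⟩ := hinv ((f * g : S.R) : A) (f * g).2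
  have eR : s ^ 2 * (f * g) = d₀ ^ 2 + d₁ ^ 2 * S.xR + d₂ ^ 2 * S.yR + d₃ ^ 2 * (S.xR * S.yR) :=
    Subtype.ext e
  have eK := congrArg (algebraMap S.R S.K) eR
  simp only [map_add, map_mul, map_pow] at eK
  have hsK : algebraMap S.R S.K s ≠ 0 := by
    rw [Ne, IsFractionRing.to_map_eq_zero_iff]; exact hs
  have hgK : algebraMap S.R S.K g ≠ 0 := by
    rw [Ne, IsFractionRing.to_map_eq_zero_iff]; exact hg0
  refine ⟨algebraMap S.R S.K d₀ / (algebraMap S.R S.K s * algebraMap S.R S.K g),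
    algebraMap S.R S.K d₁ / (algebraMap S.R S.K s * algebraMap S.R S.K g),
    algebraMap S.R S.K d₂ / (algebraMap S.R S.K s * algebraMap S.R S.K g),
    algebraMap S.R S.K d₃ / (algebraMap S.R S.K s * algebraMap S.R S.K g), ?_⟩
  field_simp
  linear_combination eK


end Pool.Agent.Helper165.LT
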