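import Pool.Agent.Helper165.LT.Om

set_option autoImplicit false

open KaehlerDifferential MvPowerSeries

namespace Pool.Agent.Helper165.LT

/-- over a field with `2`-basis `X, Y` every `2`-form is a multiple of `dX ∧ dY` -/
lemma br_span_gen {k K : Type*} [Field k] [Field K] [Algebra k K] [CharP K 2] (X Y : K)
    (pbasis : ∀ t : K, ∃ c₀ c₁ c₂ c₃ : K,
      t = c₀ ^ 2 + c₁ ^ 2 * X + c₂ ^ 2 * Y + c₃ ^ 2 * (X * Y))
    (η : ⋀[K]^2 (Ω[K⁄k])) : ∃ c : K, η = c • br k X Y := by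
  have hD : ∀ t : K, ∃ p q : K, D k K t = p • D k K X + q • D k K Y := by
    intro t
    obtain ⟨c₀, c₁, c₂, c₃, ht⟩ := pbasis t
    refine ⟨c₁ ^ 2 + c₃ ^ 2 * Y, c₂ ^ 2 + c₃ ^ 2 * X, ?_⟩
    have h := congrArg (D k K) ht
    rw [map_add, map_add, map_add, Derivation.leibniz _ (c₁ ^ 2), Derivation.leibniz _ (c₂ ^ 2),
      Derivation.leibniz _ (c₃ ^ 2), Derivation.leibniz _ X, D_sq, D_sq, D_sq, D_sq] at h
    rw [h]
    module
  have hm : ∀ m : Ω[K⁄k], ∃ p q : K, m = p • D k K X + q • D k K Y := by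
    intro m
    have hmem : m ∈ Submodule.span K (Set.range (D k K)) := by
      rw [KaehlerDifferential.span_range_derivation]
      exact Submodule.mem_top
    induction hmem using Submodule.span_induction with
    | mem x hx =>
      obtain ⟨t, rfl⟩ := hx
      exact hD t
    | zero => exact ⟨0, 0, by simp⟩
    | add x y _ _ hx hy =>
      obtain ⟨p, q, rfl⟩ := hx
      obtain ⟨p', q', rfl⟩ := hy
      exact ⟨p + p', q + q', by module⟩
    | smul a x _ hx =>
      obtain ⟨p, q, rfl⟩ := hx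
      exact ⟨a * p, a * q, by module⟩
  have hη : η ∈ Submodule.span K
      (Set.range (exteriorPower.ιMulti K 2 (M := Ω[K⁄k]))) := by
    rw [exteriorPower.ιMulti_span]
    exact Submodule.mem_top
  induction hη using Submodule.span_induction with
  | mem x hx =>
    obtain ⟨v, rfl⟩ := hx
    have hv : v = ![v 0, v 1] := by
      funext i
      fin_cases i <;> rfl
    obtain ⟨p, q, h0⟩ := hm (v 0)
    obtain ⟨p', q', h1⟩ := hm (v 1)
    rw [hv, iM_mem_span h0 h1, ← br_eq]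
    exact ⟨_, rfl⟩
  | zero => exact ⟨0, by simp⟩
  | add x y _ _ hx hy =>
    obtain ⟨c, rfl⟩ := hx
    obtain ⟨c', rfl⟩ := hy
    exact ⟨c + c', by module⟩
  | smul a x _ hx =>
    obtain ⟨c, rfl⟩ := hx
    exact ⟨a * c, by module⟩

theorem Setup.br_span {k : Type*} [Field k] [CharP k 2] (S : Setup k)
    (pbasis : ∀ t : S.K, ∃ c₀ c₁ c₂ c₃ : S.K,
      t = c₀ ^ 2 + c₁ ^ 2 * algebraMap S.R S.K S.xR + c₂ ^ 2 * algebraMap S.R S.K S.yR +
        c₃ ^ 2 * (algebraMap S.R S.K S.xR * algebraMap S.R S.K S.yR))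
    (η : ⋀[S.K]^2 (Ω[S.K⁄k])) : ∃ c : S.K, η = c • S.om := by
  have hchar : CharP S.K 2 := charP_of_injective_algebraMap (algebraMap k S.K).injective 2
  obtain ⟨c, hc⟩ := br_span_gen (k := k) _ _ pbasis η
  have ha : algebraMap S.R S.K S.aR ≠ 0 := by
    intro h0
    have h1 : S.aR = 0 := (IsFractionRing.injective S.R S.K) (by rw [h0, map_zero])
    exact S.a0 (congrArg Subtype.val h1)
  have hb : algebraMap S.R S.K S.bR ≠ 0 := by
    intro h0
    have h1 : S.bR = 0 := (IsFractionRing.injective S.R S.K) (by rw [h0, map_zero])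
    exact S.b0 (congrArg Subtype.val h1)
  refine ⟨c * (algebraMap S.R S.K S.aR * algebraMap S.R S.K S.bR), ?_⟩
  rw [hc]
  unfold Setup.om
  rw [smul_smul, mul_assoc, mul_inv_cancel₀ (mul_ne_zero ha hb), mul_one]


end Pool.Agent.Helper165.LT
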