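import Pool.Agent.Helper165.LT.Om

set_option autoImplicit false

open KaehlerDifferential MvPowerSeries

namespace Pool.Agent.Helper165.LT

theorem prime_X0 {k : Type*} [Field k] : Prime (X 0 : MvPowerSeries (Fin 2) k) := by
  classical
  let f : MvPowerSeries (Fin 2) k → PowerSeries k := fun φ =>
    PowerSeries.mk fun n => coeff (Finsupp.single 1 n) φ
  have hf : ∀ φ, (X 0 : MvPowerSeries (Fin 2) k) ∣ φ ↔ f φ = 0 := by
    intro φ
    rw [MvPowerSeries.X_dvd_iff]
    constructor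
    · intro h
      ext n
      simp only [f, PowerSeries.coeff_mk, map_zero]
      exact h _ (by simp)
    · intro h m hm
      have h1 := congrArg (PowerSeries.coeff (m 1)) h
      simp only [f, PowerSeries.coeff_mk, map_zero] at h1
      have h2 : m = Finsupp.single 1 (m 1) := by
        ext i
        fin_cases i
        · simpa using hm
        · simp
      rw [h2]
      exact h1
  have hmul : ∀ φ ψ, f (φ * ψ) = f φ * f ψ := by
    intro φ ψ
    ext n
    rw [PowerSeries.coeff_mul]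
    simp only [f, PowerSeries.coeff_mk]
    rw [MvPowerSeries.coeff_mul, Finsupp.antidiagonal_single, Finset.sum_map]
    rfl
  refine ⟨?_, ?_, ?_⟩
  · intro h
    have h1 := congrArg (coeff (Finsupp.single 0 1)) h
    rw [MvPowerSeries.coeff_X, if_pos rfl, map_zero] at h1
    exact one_ne_zero h1
  · intro h
    have h1 := isUnit_constantCoeff _ h
    rw [constantCoeff_X] at h1
    exact not_isUnit_zero h1
  · intro φ ψ h
    rw [hf, hmul, mul_eq_zero] at h
    rw [hf, hf]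
    exact h

theorem exists_decomp {k : Type*} [Field k] (φ : MvPowerSeries (Fin 2) k)
    (h : constantCoeff φ = 0) : ∃ p q, φ = X 0 * p + X 1 * q := by
  classical
  let ψ : MvPowerSeries (Fin 2) k := fun m => if m 0 = 0 then coeff m φ else 0
  have hψ : ∀ m, coeff m ψ = if m 0 = 0 then coeff m φ else 0 := fun m => rfl
  have h1 : (X 0 : MvPowerSeries (Fin 2) k) ∣ φ - ψ := by
    rw [MvPowerSeries.X_dvd_iff]
    intro m hm
    rw [map_sub, hψ, if_pos hm, sub_self]
  have h2 : (X 1 : MvPowerSeries (Fin 2) k) ∣ ψ := by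
    rw [MvPowerSeries.X_dvd_iff]
    intro m hm
    rw [hψ]
    split_ifs with h0
    · have : m = 0 := by
        ext i
        fin_cases i
        · simpa using h0
        · simpa using hm
      rw [this]
      exact h
    · rfl
  obtain ⟨p, hp⟩ := h1
  obtain ⟨q, hq⟩ := h2
  exact ⟨p, q, by rw [← hp, ← hq]; ring⟩

theorem Setup.mem_of_constantCoeff {k : Type*} [Field k] [CharP k 2] (S : Setup k)
    (P : Ideal S.R) [hP : P.IsPrime] (hx : S.xR ∈ P) (hy : S.yR ∈ P) (r : S.R)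
    (hr : constantCoeff (r : MvPowerSeries (Fin 2) k) = 0) : r ∈ P := by
  obtain ⟨r1, r2, hr12⟩ := exists_decomp _ hr
  have hu2 : (X 0 : MvPowerSeries (Fin 2) k) ^ 2 ∈ Ideal.span {S.x, S.y} := by
    have h1 : (X 0 : MvPowerSeries (Fin 2) k) ^ 2 = S.x - S.a * X 0 := by rw [S.hx]; ring
    rw [h1]
    exact Ideal.sub_mem _ (Ideal.subset_span (by simp)) (Ideal.mul_mem_right _ _ S.ha)
  have hv2 : (X 1 : MvPowerSeries (Fin 2) k) ^ 2 ∈ Ideal.span {S.x, S.y} := by
    have h1 : (X 1 : MvPowerSeries (Fin 2) k) ^ 2 = S.y - S.b * X 1 := by rw [S.hy]; ring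
    rw [h1]
    exact Ideal.sub_mem _ (Ideal.subset_span (by simp)) (Ideal.mul_mem_right _ _ S.hb)
  have hr3 : (r : MvPowerSeries (Fin 2) k) ^ 3 ∈ Ideal.span {S.x, S.y} := by
    have h1 : (r : MvPowerSeries (Fin 2) k) ^ 3 =
        X 0 ^ 2 * (X 0 * r1 ^ 3 + 3 * r1 ^ 2 * X 1 * r2) +
        X 1 ^ 2 * (X 1 * r2 ^ 3 + 3 * r2 ^ 2 * X 0 * r1) := by
      rw [hr12]; ring
    rw [h1]
    exact Ideal.add_mem _ (Ideal.mul_mem_right _ _ hu2) (Ideal.mul_mem_right _ _ hv2)
  obtain ⟨p, q, hpq⟩ := Ideal.mem_span_pair.mp hr3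
  have hσr : S.σ (r : MvPowerSeries (Fin 2) k) = r := r.2
  have hσpq : S.σ p * S.x + S.σ q * S.y = (r : MvPowerSeries (Fin 2) k) ^ 3 := by
    have h1 := congrArg S.σ hpq
    rw [map_add, map_mul, map_mul, map_pow, S.σx, S.σy, hσr] at h1
    exact h1
  have i1 : S.σ (p * S.σ p) = p * S.σ p := by rw [map_mul, S.inv]; ring
  have i2 : S.σ (p * S.σ q + q * S.σ p) = p * S.σ q + q * S.σ p := by
    rw [map_add, map_mul, map_mul, S.inv, S.inv]; ring
  have i3 : S.σ (q * S.σ q) = q * S.σ q := by rw [map_mul, S.inv]; ring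
  have h6 : r ^ 6 = (⟨p * S.σ p, i1⟩ : S.R) * S.xR * S.xR +
      (⟨p * S.σ q + q * S.σ p, i2⟩ : S.R) * S.yR * S.xR + (⟨q * S.σ q, i3⟩ : S.R) * S.yR * S.yR := by
    apply Subtype.ext
    change (r : MvPowerSeries (Fin 2) k) ^ 6 = (p * S.σ p) * S.x * S.x +
      (p * S.σ q + q * S.σ p) * S.y * S.x + (q * S.σ q) * S.y * S.y
    calc (r : MvPowerSeries (Fin 2) k) ^ 6 = (r : MvPowerSeries (Fin 2) k) ^ 3 *
          (r : MvPowerSeries (Fin 2) k) ^ 3 := by ring
      _ = (p * S.x + q * S.y) * (S.σ p * S.x + S.σ q * S.y) := by rw [hpq, hσpq]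
      _ = _ := by ring
  have h7 : r ^ 6 ∈ P := by
    rw [h6]
    exact P.add_mem (P.add_mem (P.mul_mem_left _ hx) (P.mul_mem_left _ hx)) (P.mul_mem_left _ hy)
  exact hP.mem_of_pow_mem 6 h7

theorem Setup.height_ne_one {k : Type*} [Field k] [CharP k 2] (S : Setup k)
    (P : Ideal S.R) [P.IsPrime] (hx : S.xR ∈ P) (hy : S.yR ∈ P) : P.height ≠ 1 := by
  have hu : Prime (X 0 : MvPowerSeries (Fin 2) k) := prime_X0
  have hprime : (Ideal.span {(X 0 : MvPowerSeries (Fin 2) k)}).IsPrime :=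
    (Ideal.span_singleton_prime hu.ne_zero).mpr hu
  let ι : S.R →+* MvPowerSeries (Fin 2) k := S.R.val.toRingHom
  let Q : Ideal S.R := (Ideal.span {(X 0 : MvPowerSeries (Fin 2) k)}).comap ι
  have hQ : Q.IsPrime := Ideal.IsPrime.comap ι
  have hmem : ∀ r : S.R, r ∈ Q ↔ (X 0 : MvPowerSeries (Fin 2) k) ∣ (r : MvPowerSeries (Fin 2) k) :=
    fun r => Ideal.mem_span_singleton
  have hxQ : S.xR ∈ Q := by
    rw [hmem]
    exact ⟨X 0 + S.a, by change S.x = _; rw [S.hx]; ring⟩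
  have hyQ : S.yR ∉ Q := by
    rw [hmem]
    exact S.ndvd
  have hσu0 : X 0 + S.a ≠ 0 := by
    rw [← S.σu]
    exact (map_ne_zero_iff S.σ S.σ.injective).mpr hu.ne_zero
  have hx0 : S.xR ≠ 0 := by
    intro h
    have h1 : S.x = 0 := congrArg (fun r : S.R => (r : MvPowerSeries (Fin 2) k)) h
    rw [S.hx, show X 0 ^ 2 + S.a * X 0 = X 0 * (X 0 + S.a) by ring] at h1
    exact mul_ne_zero hu.ne_zero hσu0 h1
  have h1 : (⊥ : Ideal S.R) < Q := by
    rw [bot_lt_iff_ne_bot]
    intro h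
    rw [h] at hxQ
    exact hx0 (by simpa using hxQ)
  have h2 : Q < P := by
    refine lt_of_le_of_ne ?_ ?_
    · intro r hr
      apply S.mem_of_constantCoeff P hx hy
      obtain ⟨c, hc⟩ := (hmem r).mp hr
      rw [hc, map_mul, constantCoeff_X, zero_mul]
    · intro h
      rw [h] at hyQ
      exact hyQ hy
  have e1 := Ideal.height_add_one_le_of_lt_of_isPrime h1
  have e2 := Ideal.height_add_one_le_of_lt_of_isPrime h2
  intro h
  rw [h] at e2
  have e3 : (1 : ℕ∞) ≤ Q.height := le_trans (by simp) e1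
  have e4 : (1 : ℕ∞) + 1 ≤ 1 := le_trans (by gcongr) e2
  norm_num at e4


end Pool.Agent.Helper165.LT
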