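import Pool.Agent.Helper165.LT.Om

set_option autoImplicit false

open KaehlerDifferential MvPowerSeries

namespace Pool.Agent.Helper165.LT

/-- A power series in two variables without constant term lies in the ideal `(u, v)`. -/
lemma mem_span_of_constantCoeff {k : Type*} [Field k] (f : MvPowerSeries (Fin 2) k)
    (hf : constantCoeff f = 0) :
    f ∈ Ideal.span {(X 0 : MvPowerSeries (Fin 2) k), X 1} := by
  classical
  let f₁ : MvPowerSeries (Fin 2) k := fun m => if m 0 = 0 then 0 else coeff m f
  let f₂ : MvPowerSeries (Fin 2) k := fun m => if m 0 = 0 then coeff m f else 0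
  have h1 : ∀ m, coeff m f₁ = if m 0 = 0 then 0 else coeff m f := fun m => rfl
  have h2 : ∀ m, coeff m f₂ = if m 0 = 0 then coeff m f else 0 := fun m => rfl
  have hsum : f = f₁ + f₂ := by
    ext m
    rw [map_add, h1, h2]
    by_cases h : m 0 = 0 <;> simp [h]
  have hd1 : (X 0 : MvPowerSeries (Fin 2) k) ∣ f₁ := by
    rw [X_dvd_iff]
    intro m hm
    rw [h1, if_pos hm]
  have hd2 : (X 1 : MvPowerSeries (Fin 2) k) ∣ f₂ := by
    rw [X_dvd_iff]
    intro m hm
    rw [h2]
    by_cases h : m 0 = 0
    · rw [if_pos h]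
      have : m = 0 := by
        ext i
        fin_cases i
        · exact h
        · exact hm
      rw [this, coeff_zero_eq_constantCoeff_apply, hf]
    · rw [if_neg h]
  obtain ⟨g₁, hg₁⟩ := hd1
  obtain ⟨g₂, hg₂⟩ := hd2
  rw [Ideal.mem_span_pair]
  exact ⟨g₁, g₂, by rw [hsum, hg₁, hg₂]; ring⟩

/-- The maximal ideal of `k[[u, v]]` has height at most two. -/
lemma height_ker_constantCoeff_le {k : Type*} [Field k] :
    (RingHom.ker (constantCoeff (σ := Fin 2) (R := k))).height ≤ 2 := by
  have hmin : RingHom.ker (constantCoeff (σ := Fin 2) (R := k)) ∈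
      (Ideal.span ({X 0, X 1} : Set (MvPowerSeries (Fin 2) k))).minimalPrimes := by
    refine ⟨⟨RingHom.ker_isPrime _, ?_⟩, ?_⟩
    · rw [Ideal.span_le]
      intro z hz
      simp only [Set.mem_insert_iff, Set.mem_singleton_iff] at hz
      rcases hz with rfl | rfl <;> simp [RingHom.mem_ker]
    · rintro J ⟨hJ, hJle⟩ _ f hf
      exact hJle (mem_span_of_constantCoeff f hf)
  have h := Ideal.height_le_card_of_mem_minimalPrimes_span
    ((Set.finite_singleton (X 1 : MvPowerSeries (Fin 2) k)).insert (X 0)) hmin
  refine h.trans ?_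
  have : ({X 0, X 1} : Set (MvPowerSeries (Fin 2) k)).ncard ≤ 2 :=
    (Set.ncard_insert_le _ _).trans (by rw [Set.ncard_singleton])
  exact_mod_cast this

lemma Setup.isIntegral_A {k : Type*} [Field k] (S : Setup k) :
    Algebra.IsIntegral S.R (MvPowerSeries (Fin 2) k) := by
  constructor
  intro f
  let s : S.R := ⟨f + S.σ f, by
    rw [S.mem_R, map_add, S.inv]
    ring⟩
  let p : S.R := ⟨f * S.σ f, by
    rw [S.mem_R, map_mul, S.inv]
    ring⟩
  refine ⟨Polynomial.X ^ 2 + ((Polynomial.C (-s)) * Polynomial.X + Polynomial.C p), ?_, ?_⟩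
  · apply Polynomial.monic_X_pow_add
    apply lt_of_le_of_lt Polynomial.degree_linear_le
    norm_num
  · simp only [Polynomial.eval₂_add, Polynomial.eval₂_pow, Polynomial.eval₂_X,
      Polynomial.eval₂_mul, Polynomial.eval₂_C]
    change f ^ 2 + (-(f + S.σ f) * f + f * S.σ f) = 0
    ring

theorem Setup.height_eq_one {k : Type*} [Field k] [CharP k 2] (S : Setup k)
    (P : Ideal S.R) [P.IsPrime] (hP : P ≠ ⊥) (h : S.xR ∉ P ∨ S.yR ∉ P) : P.height = 1 := by
  have := S.isIntegral_A
  apply le_antisymm
  · have hle := (Ideal.height_le_iff (p := P) (n := 1)).mpr (by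
      intro Q hQ hQP
      by_cases hQ0 : Q = ⊥
      · rw [hQ0, Ideal.height_bot]
        norm_num
      exfalso
      obtain ⟨Q', -, hQ'p, hQ'⟩ := Ideal.exists_ideal_over_prime_of_isIntegral Q
        (⊥ : Ideal (MvPowerSeries (Fin 2) k)) (by
          intro z hz
          have : (z : MvPowerSeries (Fin 2) k) = 0 := hz
          have : z = 0 := Subtype.ext this
          rw [this]
          exact Q.zero_mem)
      obtain ⟨P', hP'le, hP'p, hP'⟩ := Ideal.exists_ideal_over_prime_of_isIntegral_of_isPrime P
        Q' (by rw [hQ']; exact hQP.le)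
      have hlt1 : (⊥ : Ideal (MvPowerSeries (Fin 2) k)) < Q' := by
        rw [bot_lt_iff_ne_bot]
        rintro rfl
        apply hQ0
        rw [← hQ', eq_bot_iff]
        intro z hz
        have : (z : MvPowerSeries (Fin 2) k) = 0 := hz
        exact Subtype.ext this
      have hlt2 : Q' < P' := by
        refine lt_of_le_of_ne hP'le ?_
        rintro rfl
        rw [hQ'] at hP'
        exact hQP.ne hP'
      have hle3 : P' ≤ RingHom.ker (constantCoeff (σ := Fin 2) (R := k)) := by
        intro f hf
        rw [RingHom.mem_ker]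
        by_contra hne
        apply hP'p.ne_top
        apply Ideal.eq_top_of_isUnit_mem _ hf
        rw [isUnit_iff_constantCoeff]
        exact isUnit_iff_ne_zero.mpr hne
      have hlt3 : P' < RingHom.ker (constantCoeff (σ := Fin 2) (R := k)) := by
        refine lt_of_le_of_ne hle3 ?_
        rintro hEq
        have hx : S.xR ∈ P := by
          rw [← hP', Ideal.mem_comap, hEq, RingHom.mem_ker]
          change constantCoeff S.x = 0
          rw [S.hx]
          simp
        have hy : S.yR ∈ P := by
          rw [← hP', Ideal.mem_comap, hEq, RingHom.mem_ker]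
          change constantCoeff S.y = 0
          rw [S.hy]
          simp
        rcases h with h | h
        · exact h hx
        · exact h hy
      have : (RingHom.ker (constantCoeff (σ := Fin 2) (R := k))).IsPrime :=
        RingHom.ker_isPrime _
      have : (⊥ : Ideal (MvPowerSeries (Fin 2) k)).IsPrime := Ideal.isPrime_bot
      have e1 := Ideal.height_add_one_le_of_lt_of_isPrime hlt1
      have e2 := Ideal.height_add_one_le_of_lt_of_isPrime hlt2
      have e3 := Ideal.height_add_one_le_of_lt_of_isPrime hlt3
      have e4 := height_ker_constantCoeff_le (k := k)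
      have e5 : (1 : ℕ∞) ≤ Q'.height := le_trans (by simp) e1
      have e6 : (2 : ℕ∞) ≤ P'.height := by
        refine le_trans ?_ e2
        calc (2 : ℕ∞) = 1 + 1 := by norm_num
          _ ≤ Q'.height + 1 := by gcongr
      have e7 : (3 : ℕ∞) ≤ 2 := by
        calc (3 : ℕ∞) = 2 + 1 := by norm_num
          _ ≤ P'.height + 1 := by gcongr
          _ ≤ _ := e3
          _ ≤ 2 := e4
      exact absurd e7 (by decide))
    simpa using hle
  · rw [Order.one_le_iff_ne_zero]
    intro h0
    exact hP (Ideal.height_eq_zero_iff_eq_bot.mp h0)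

end Pool.Agent.Helper165.LT
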