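import Pool.Agent.Helper165.LT.Om

set_option autoImplicit false

open KaehlerDifferential MvPowerSeries

namespace Pool.Agent.Helper165.LT

theorem prime_X0' {k : Type*} [Field k] : Prime (X 0 : MvPowerSeries (Fin 2) k) := by
  classical
  let f : MvPowerSeries (Fin 2) k → PowerSeries k := fun φ =>
    PowerSeries.mk fun n => coeff (Finsupp.single 1 n) φ
  have hf : ∀ φ, (X 0 : MvPowerSeries (Fin 2) k) ∣ φ ↔ f φ = 0 := by
    intro φ
    rw [MvPowerSeries.X_dvd_iff]
    constructor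
    · intro h
      ext n
      simp only [f, PowerSeries.coeff_mk, map_zero]
      exact h _ (by simp)
    · intro h m hm
      have h1 := congrArg (PowerSeries.coeff (m 1)) h
      simp only [f, PowerSeries.coeff_mk, map_zero] at h1
      have h2 : m = Finsupp.single 1 (m 1) := by
        ext i
        fin_cases i
        · simpa using hm
        · simp
      rw [h2]
      exact h1
  have hmul : ∀ φ ψ, f (φ * ψ) = f φ * f ψ := by
    intro φ ψ
    ext n
    rw [PowerSeries.coeff_mul]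
    simp only [f, PowerSeries.coeff_mk]
    rw [MvPowerSeries.coeff_mul, Finsupp.antidiagonal_single, Finset.sum_map]
    rfl
  refine ⟨?_, ?_, ?_⟩
  · intro h
    have h1 := congrArg (coeff (Finsupp.single 0 1)) h
    rw [MvPowerSeries.coeff_X, if_pos rfl, map_zero] at h1
    exact one_ne_zero h1
  · intro h
    have h1 := isUnit_constantCoeff _ h
    rw [constantCoeff_X] at h1
    exact not_isUnit_zero h1
  · intro φ ψ h
    rw [hf, hmul, mul_eq_zero] at h
    rw [hf, hf]
    exact h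

theorem Setup.hartogs {k : Type*} [Field k] [CharP k 2] (S : Setup k)
    (height_eq_one : ∀ P : Ideal S.R, P.IsPrime → P ≠ ⊥ → (S.xR ∉ P ∨ S.yR ∉ P) → P.height = 1)
    (t : S.K) (ht : ∀ P : Ideal S.R, P.IsPrime → P.height = 1 → t ∈ localRing S.K P) :
    ∃ r : S.R, algebraMap S.R S.K r = t := by
  classical
  have hinj : Function.Injective (algebraMap S.R S.K) := IsFractionRing.injective S.R S.K
  let D : Ideal S.R :=
    { carrier := {s | ∃ r : S.R, algebraMap S.R S.K s * t = algebraMap S.R S.K r}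
      add_mem' := by
        rintro s s' ⟨r, hr⟩ ⟨r', hr'⟩
        exact ⟨r + r', by rw [map_add, map_add, add_mul, hr, hr']⟩
      zero_mem' := ⟨0, by rw [map_zero, zero_mul]⟩
      smul_mem' := by
        rintro c s ⟨r, hr⟩
        exact ⟨c * r, by rw [smul_eq_mul, map_mul, map_mul, mul_assoc, hr]⟩ }
  have hDne : ∃ s ∈ D, s ≠ 0 := by
    obtain ⟨a, s, hs, rfl⟩ := IsFractionRing.div_surjective (A := S.R) t
    have hs0 : s ≠ 0 := nonZeroDivisors.ne_zero hs
    have hs0' : algebraMap S.R S.K s ≠ 0 := (map_ne_zero_iff _ hinj).mpr hs0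
    exact ⟨s, ⟨a, by field_simp⟩, hs0⟩
  have hprime : ∀ P : Ideal S.R, P.IsPrime → D ≤ P → S.xR ∈ P ∧ S.yR ∈ P := by
    intro P hP hDP
    by_contra hcon
    have hor : S.xR ∉ P ∨ S.yR ∉ P := by
      by_contra h
      push Not at h
      exact hcon h
    have hne : P ≠ ⊥ := by
      rintro rfl
      obtain ⟨s, hsD, hs0⟩ := hDne
      exact hs0 (by simpa using hDP hsD)
    obtain ⟨r, s, hsP, hs⟩ := ht P hP (height_eq_one P hP hne hor)
    exact hsP (hDP ⟨r, by rw [mul_comm]; exact hs⟩)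
  have hxrad : S.xR ∈ D.radical := by
    rw [Ideal.radical_eq_sInf, Ideal.mem_sInf]
    rintro P ⟨hDP, hP⟩
    exact (hprime P hP hDP).1
  have hyrad : S.yR ∈ D.radical := by
    rw [Ideal.radical_eq_sInf, Ideal.mem_sInf]
    rintro P ⟨hDP, hP⟩
    exact (hprime P hP hDP).2
  obtain ⟨N, α, hα⟩ := hxrad
  obtain ⟨M, β, hβ⟩ := hyrad
  have hαβ : S.yR ^ M * α = S.xR ^ N * β := by
    apply hinj
    rw [map_mul, map_mul, ← hα, ← hβ]
    ring
  have hA : S.y ^ M * (α : MvPowerSeries (Fin 2) k) = S.x ^ N * (β : MvPowerSeries (Fin 2) k) := by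
    have := congrArg (fun r : S.R => (r : MvPowerSeries (Fin 2) k)) hαβ
    exact this
  have hu : Prime (X 0 : MvPowerSeries (Fin 2) k) := prime_X0'
  have hσu : Prime (S.σ (X 0)) := (MulEquiv.prime_iff S.σ).mpr hu
  have hx : S.x = X 0 * S.σ (X 0) := by
    rw [S.hx, S.σu]; ring
  have hndvd' : ¬ S.σ (X 0) ∣ S.y := by
    rintro ⟨c, hc⟩
    apply S.ndvd
    have h1 := congrArg S.σ hc
    rw [S.σy, map_mul, S.inv] at h1
    exact ⟨S.σ c, h1⟩
  have h1 : (X 0 : MvPowerSeries (Fin 2) k) ^ N ∣ (α : MvPowerSeries (Fin 2) k) := by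
    apply hu.pow_dvd_of_dvd_mul_left N (a := S.y ^ M)
    · intro h
      exact S.ndvd (hu.dvd_of_dvd_pow h)
    · rw [hA, hx, mul_pow, mul_assoc]
      exact Dvd.intro _ rfl
  obtain ⟨α', hα'⟩ := h1
  have h2 : S.y ^ M * α' = (S.σ (X 0)) ^ N * (β : MvPowerSeries (Fin 2) k) := by
    apply mul_left_cancel₀ (pow_ne_zero N hu.ne_zero)
    rw [hα', hx, mul_pow] at hA
    linear_combination hA
  have h3 : (S.σ (X 0)) ^ N ∣ α' := by
    apply hσu.pow_dvd_of_dvd_mul_left N (a := S.y ^ M)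
    · intro h
      exact hndvd' (hσu.dvd_of_dvd_pow h)
    · rw [h2]
      exact Dvd.intro _ rfl
  obtain ⟨g, hg⟩ := h3
  have h4 : (α : MvPowerSeries (Fin 2) k) = S.x ^ N * g := by
    rw [hα', hg, hx, mul_pow]; ring
  have hx0 : S.x ≠ 0 := by
    rw [hx]
    exact mul_ne_zero hu.ne_zero hσu.ne_zero
  have hginv : S.σ g = g := by
    have hαinv : S.σ (α : MvPowerSeries (Fin 2) k) = α := α.2
    rw [h4, map_mul, map_pow, S.σx] at hαinv
    exact mul_left_cancel₀ (pow_ne_zero N hx0) hαinv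
  refine ⟨⟨g, hginv⟩, ?_⟩
  have hxR0 : S.xR ≠ 0 := by
    intro h
    exact hx0 (congrArg (fun r : S.R => (r : MvPowerSeries (Fin 2) k)) h)
  have h5 : α = S.xR ^ N * ⟨g, hginv⟩ := by
    apply Subtype.ext
    exact h4
  apply mul_left_cancel₀ (pow_ne_zero N ((map_ne_zero_iff _ hinj).mpr hxR0))
  rw [← map_pow, ← map_mul, ← h5, hα]


end Pool.Agent.Helper165.LT
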