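import Pool.Agent.Helper165.LT.Om

set_option autoImplicit false

open KaehlerDifferential MvPowerSeries

namespace Pool.Agent.Helper165.LT

lemma jac_aux {k A K L : Type*} [Field k] [CommRing A] [IsDomain A] [Algebra k A] (σ : A ≃ₐ[k] A)
    [Field K] [Algebra (invariants σ) K] [IsFractionRing (invariants σ) K] [Algebra k K]
    [IsScalarTower k (invariants σ) K]
    [Field L] [Algebra k L] [Algebra A L] [IsScalarTower k A L] [IsFractionRing A L]
    (δ₁ δ₂ : Derivation k A A) (x y a b : invariants σ) (a0 : (a : A) ≠ 0) (b0 : (b : A) ≠ 0)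
    (ε : A) (hε : IsUnit ε)
    (hJac : δ₁ x * δ₂ y - δ₂ x * δ₁ y = ε * (a * b)) (φ : K →+* L)
    (hφ : ∀ r : invariants σ, φ (algebraMap (invariants σ) K r) = algebraMap A L (r : A)) :
    ((algebraMap (invariants σ) K a * algebraMap (invariants σ) K b)⁻¹ •
      br k (algebraMap (invariants σ) K x) (algebraMap (invariants σ) K y)) ≠ 0 ∧
    ∀ P : Ideal (invariants σ), P.IsPrime → ∀ α ∈ localRing K P, ∀ β ∈ localRing K P,
      ∀ c : K, br k α β = c • ((algebraMap (invariants σ) K a * algebraMap (invariants σ) K b)⁻¹ •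
        br k (algebraMap (invariants σ) K x) (algebraMap (invariants σ) K y)) →
        c ∈ localRing K P := by
  let ιA : A →+* L := algebraMap A L
  have hιA : Function.Injective ιA := IsFractionRing.injective A L
  letI : Algebra K L := φ.toAlgebra
  have halg : ∀ t : K, algebraMap K L t = φ t := fun t => rfl
  haveI : IsScalarTower k K L := IsScalarTower.of_algebraMap_eq (fun c => by
    rw [halg, IsScalarTower.algebraMap_apply k (invariants σ) K, hφ,
      IsScalarTower.algebraMap_apply k A L]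
    rfl)
  obtain ⟨D₁, hD₁⟩ := exists_derivation_fraction (L := L) δ₁
  obtain ⟨D₂, hD₂⟩ := exists_derivation_fraction (L := L) δ₂
  obtain ⟨J, hJ⟩ := exists_jacobian (K := K) D₁ D₂
  have hab : (ιA a * ιA b) ≠ 0 := by
    rw [← map_mul]
    exact fun h => (mul_ne_zero a0 b0) (hιA (by rw [h, map_zero]))
  have hJom : J ((algebraMap (invariants σ) K a * algebraMap (invariants σ) K b)⁻¹ •
        br k (algebraMap (invariants σ) K x) (algebraMap (invariants σ) K y)) = ιA ε := by
    rw [map_smul, hJ, Algebra.smul_def, halg, halg, halg, map_inv₀, map_mul, hφ, hφ, hφ, hφ]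
    change (ιA a * ιA b)⁻¹ * (D₁ (ιA x) * D₂ (ιA y) - D₂ (ιA x) * D₁ (ιA y)) = ιA ε
    have e1 : D₁ (ιA x) = ιA (δ₁ x) := hD₁ _
    have e2 : D₂ (ιA y) = ιA (δ₂ y) := hD₂ _
    have e3 : D₂ (ιA x) = ιA (δ₂ x) := hD₂ _
    have e4 : D₁ (ιA y) = ιA (δ₁ y) := hD₁ _
    have h6 := congrArg ιA hJac
    simp only [map_sub, map_mul] at h6
    rw [e1, e2, e3, e4, h6, mul_comm, mul_assoc, mul_inv_cancel₀ hab, mul_one]
  refine ⟨?_, ?_⟩
  · intro h
    rw [h, map_zero] at hJom
    exact hε.ne_zero (hιA (by rw [← hJom, map_zero]))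
  · intro P hP α hα β hβ c hc
    obtain ⟨p, s, hs, hps⟩ := hα
    obtain ⟨q, t, ht, hqt⟩ := hβ
    have key : ∀ (D : Derivation k L L) (δ : Derivation k A A), (∀ f, D (ιA f) = ιA (δ f)) →
        ∀ (γ : K) (p s : invariants σ),
        γ * algebraMap (invariants σ) K s = algebraMap (invariants σ) K p →
        ∃ f : A, ιA s ^ 2 * D (φ γ) = ιA f := by
      intro D δ hD γ p s h
      have h' : φ γ * ιA s = ιA p := by
        have := congrArg φ h
        rw [map_mul, hφ, hφ] at this
        exact this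
      refine ⟨s * δ p - p * δ s, ?_⟩
      have h2 := congrArg D h'
      rw [Derivation.leibniz, hD, hD] at h2
      simp only [smul_eq_mul] at h2
      rw [map_sub, map_mul, map_mul, ← h', ← h2]
      ring
    obtain ⟨f1, hf1⟩ := key D₁ _ hD₁ α p s hps
    obtain ⟨f2, hf2⟩ := key D₂ _ hD₂ α p s hps
    obtain ⟨g1, hg1⟩ := key D₁ _ hD₁ β q t hqt
    obtain ⟨g2, hg2⟩ := key D₂ _ hD₂ β q t hqt
    have hJαβ : J (br k α β) = φ c * ιA ε := by
      rw [hc, map_smul, hJom, Algebra.smul_def, halg]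
    rw [hJ, halg, halg] at hJαβ
    obtain ⟨η, hη⟩ := hε.exists_right_inv
    -- (s t)^2 c = g
    have h3 : (ιA s * ιA t) ^ 2 * φ c = ιA ((f1 * g2 - f2 * g1) * η) := by
      have hεη : ιA ε * ιA η = 1 := by rw [← map_mul, hη, map_one]
      calc (ιA s * ιA t) ^ 2 * φ c = (ιA s * ιA t) ^ 2 * (φ c * ιA ε) * ιA η := by
            linear_combination (-(ιA s * ιA t) ^ 2 * φ c) * hεη
        _ = ((ιA s ^ 2 * D₁ (φ α)) * (ιA t ^ 2 * D₂ (φ β)) -
            (ιA s ^ 2 * D₂ (φ α)) * (ιA t ^ 2 * D₁ (φ β))) * ιA η := by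
            rw [← hJαβ]; ring
        _ = _ := by
            rw [hf1, hf2, hg1, hg2]
            simp only [map_mul, map_sub]
    set g : A := (f1 * g2 - f2 * g1) * η with hg
    obtain ⟨r1, r2, hr2, hr⟩ := IsFractionRing.div_surjective (A := invariants σ) c
    have hr2' : (r2 : A) ≠ 0 := by
      intro h
      exact (nonZeroDivisors.ne_zero hr2) (Subtype.ext h)
    have hr2K : algebraMap (invariants σ) K r2 ≠ 0 := by
      intro h
      have := IsFractionRing.injective (invariants σ) K (h.trans (map_zero _).symm)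
      exact (nonZeroDivisors.ne_zero hr2) this
    have hc2 : c * algebraMap (invariants σ) K r2 = algebraMap (invariants σ) K r1 := by
      rw [← hr]; field_simp
    have hc3 : φ c * ιA r2 = ιA r1 := by
      have := congrArg φ hc2
      rw [map_mul, hφ, hφ] at this
      exact this
    have h4 : ((s : A) * t) ^ 2 * r1 = g * r2 := by
      apply hιA
      rw [map_mul, map_mul, map_pow, map_mul, ← hc3, ← h3]
      ring
    have hσg : σ g = g := by
      have h5 := congrArg σ h4
      simp only [map_mul, map_pow] at h5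
      have es : σ (s : A) = s := s.2
      have et : σ (t : A) = t := t.2
      have e1 : σ (r1 : A) = r1 := r1.2
      have e2 : σ (r2 : A) = r2 := r2.2
      rw [es, et, e1, e2, h4] at h5
      exact (mul_right_cancel₀ hr2' h5).symm
    refine ⟨⟨g, hσg⟩, (s * t) ^ 2, ?_, ?_⟩
    · intro h
      rcases hP.mem_or_mem (hP.mem_of_pow_mem 2 h) with h | h
      · exact hs h
      · exact ht h
    · apply φ.injective
      rw [map_mul, hφ, hφ]
      change φ c * ιA (((s * t) ^ 2 : invariants σ) : A) = ιA g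
      rw [← h3]
      push_cast
      rw [map_pow, map_mul]
      ring

theorem Setup.jacobian {k : Type*} [Field k] [CharP k 2] (S : Setup k)
    (hJ : ∃ ε : MvPowerSeries (Fin 2) k, IsUnit ε ∧
      pderiv k 0 S.x * pderiv k 1 S.y - pderiv k 1 S.x * pderiv k 0 S.y = ε * (S.a * S.b)) :
    S.om ≠ 0 ∧ ∀ P : Ideal S.R, P.IsPrime → ∀ α ∈ localRing S.K P, ∀ β ∈ localRing S.K P,
      ∀ c : S.K, br k α β = c • S.om → c ∈ localRing S.K P := by
  obtain ⟨ε, hε, hJac⟩ := hJ
  let ιR : S.R →+* FractionRing (MvPowerSeries (Fin 2) k) :=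
    (algebraMap (MvPowerSeries (Fin 2) k) (FractionRing (MvPowerSeries (Fin 2) k))).comp
      (algebraMap S.R (MvPowerSeries (Fin 2) k))
  have hιR : Function.Injective ιR :=
    (IsFractionRing.injective (MvPowerSeries (Fin 2) k)
      (FractionRing (MvPowerSeries (Fin 2) k))).comp Subtype.val_injective
  exact jac_aux (L := FractionRing (MvPowerSeries (Fin 2) k)) S.σ (pderiv k 0) (pderiv k 1)
    S.xR S.yR S.aR S.bR S.a0 S.b0 ε hε hJac (IsFractionRing.lift (K := S.K) hιR)
    (fun r => IsFractionRing.lift_algebraMap (K := S.K) hιR r)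


end Pool.Agent.Helper165.LT
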