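import Pool.Agent.Helper165.LT.Om

set_option autoImplicit false

open KaehlerDifferential MvPowerSeries

namespace Pool.Agent.Helper165.LT

/-- The local ring as a subring. -/
def localSubring {R : Type*} (K : Type*) [CommRing R] [Field K] [Algebra R K] (P : Ideal R)
    (hP : P.IsPrime) : Subring K where
  carrier := localRing K P
  mul_mem' := by
    rintro φ ψ ⟨a, t, ht, h⟩ ⟨a', t', ht', h'⟩
    refine ⟨a * a', t * t', fun hm => ?_, ?_⟩
    · rcases hP.mem_or_mem hm with h1 | h1
      · exact ht h1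
      · exact ht' h1
    · rw [map_mul, map_mul, ← h, ← h']; ring
  one_mem' := ⟨1, 1, fun h => hP.ne_top ((Ideal.eq_top_iff_one P).mpr h), by simp⟩
  add_mem' := by
    rintro φ ψ ⟨a, t, ht, h⟩ ⟨a', t', ht', h'⟩
    refine ⟨a * t' + a' * t, t * t', fun hm => ?_, ?_⟩
    · rcases hP.mem_or_mem hm with h1 | h1
      · exact ht h1
      · exact ht' h1
    · rw [map_mul, map_add, map_mul, map_mul, ← h, ← h']; ring
  zero_mem' := ⟨0, 1, fun h => hP.ne_top ((Ideal.eq_top_iff_one P).mpr h), by simp⟩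
  neg_mem' := by
    rintro φ ⟨a, t, ht, h⟩
    exact ⟨-a, t, ht, by rw [map_neg, ← h]; ring⟩

theorem Setup.isPluricanonicalGenerator {k : Type*} [Field k] [CharP k 2] (S : Setup k)
    (br_span : ∀ η : ⋀[S.K]^2 (Ω[S.K⁄k]), ∃ c : S.K, η = c • S.om)
    (jacobian : S.om ≠ 0 ∧ ∀ P : Ideal S.R, P.IsPrime → ∀ α ∈ localRing S.K P,
      ∀ β ∈ localRing S.K P, ∀ c : S.K, br k α β = c • S.om → c ∈ localRing S.K P)
    (hreg : ∀ P : Ideal S.R, P.IsPrime → P.height = 1 →
      S.om ∈ regularForms (D k S.K) (localRing S.K P)) :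
    IsPluricanonicalGenerator (R := S.R) (D k S.K) 1 S.om 1 := by
  refine ⟨jacobian.1, one_ne_zero, fun P hP hh => ⟨1, one_ne_zero, ⟨?_, ?_⟩, ?_, ?_⟩⟩
  · rw [one_smul]; exact jacobian.1
  · intro η
    rw [one_smul]
    constructor
    · intro hη
      refine regularForms_sub (localSubring S.K P hP) S.om (fun α hα β hβ => ?_) η hη
      obtain ⟨c, hc'⟩ := br_span (br k α β)
      exact ⟨c, jacobian.2 P hP α hα β hβ c hc', hc'⟩
    · rintro ⟨g, hg, rfl⟩
      exact regularForms_smul (localSubring S.K P hP) hg (hreg P hP hh)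
  · rw [one_pow, div_one]
    exact (localSubring S.K P hP).one_mem
  · rw [one_pow, div_one, inv_one]
    exact (localSubring S.K P hP).one_mem


end Pool.Agent.Helper165.LT

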