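import Pool.Agent.Helper165.LT.Om

set_option autoImplicit false

open KaehlerDifferential MvPowerSeries

namespace Pool.Agent.Helper165.LT

lemma ne_zero_of_notMem {k : Type*} [Field k] (S : Setup k) {P : Ideal S.R} {t : S.R}
    (h : t ∉ P) : algebraMap S.R S.K t ≠ 0 := by
  intro h0
  apply h
  have : t = 0 := by
    apply IsFractionRing.injective S.R S.K
    rw [h0, map_zero]
  rw [this]
  exact P.zero_mem

lemma mem_localRing {k : Type*} [Field k] (S : Setup k) {P : Ideal S.R} [P.IsPrime] (r : S.R) :
    algebraMap S.R S.K r ∈ localRing S.K P :=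
  ⟨r, 1, fun h => Ideal.IsPrime.ne_top ‹_› ((Ideal.eq_top_iff_one _).2 h), by rw [map_one, mul_one]⟩

lemma inv_mem_localRing {k : Type*} [Field k] (S : Setup k) {P : Ideal S.R} [P.IsPrime]
    {t : S.R} (h : t ∉ P) : (algebraMap S.R S.K t)⁻¹ ∈ localRing S.K P :=
  ⟨1, t, h, by rw [map_one, inv_mul_cancel₀ (ne_zero_of_notMem S h)]⟩

theorem Setup.reg_of_partials {k : Type*} [Field k] [CharP k 2] (S : Setup k)
    (fx fy : S.R)
    (hfx : algebraMap S.R S.K fx • S.om = br k (algebraMap S.R S.K S.yR) (algebraMap S.R S.K S.zR))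
    (hfy : algebraMap S.R S.K fy • S.om = br k (algebraMap S.R S.K S.zR) (algebraMap S.R S.K S.xR))
    (P : Ideal S.R) [P.IsPrime] (h : fx ∉ P ∨ fy ∉ P ∨ S.aR * S.bR ∉ P) :
    S.om ∈ regularForms (D k S.K) (localRing S.K P) := by
  rcases h with h | h | h
  · have h0 := ne_zero_of_notMem S h
    have : S.om = (algebraMap S.R S.K fx)⁻¹ •
        br k (algebraMap S.R S.K S.yR) (algebraMap S.R S.K S.zR) := by
      rw [← hfx, smul_smul, inv_mul_cancel₀ h0, one_smul]
    rw [this]
    exact br_mem _ (inv_mem_localRing S h) (mem_localRing S _) (mem_localRing S _)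
  · have h0 := ne_zero_of_notMem S h
    have : S.om = (algebraMap S.R S.K fy)⁻¹ •
        br k (algebraMap S.R S.K S.zR) (algebraMap S.R S.K S.xR) := by
      rw [← hfy, smul_smul, inv_mul_cancel₀ h0, one_smul]
    rw [this]
    exact br_mem _ (inv_mem_localRing S h) (mem_localRing S _) (mem_localRing S _)
  · unfold Setup.om
    rw [← map_mul]
    exact br_mem _ (inv_mem_localRing S h) (mem_localRing S _) (mem_localRing S _)

instance charP_K {k : Type*} [Field k] [CharP k 2] (S : Setup k) : CharP S.K 2 := by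
  have : CharP S.R 2 := charP_of_injective_algebraMap (algebraMap k S.R).injective 2
  exact charP_of_injective_algebraMap (IsFractionRing.injective S.R S.K) 2

lemma smul_om {k : Type*} [Field k] (S : Setup k) (ha : algebraMap S.R S.K S.aR ≠ 0)
    (hb : algebraMap S.R S.K S.bR ≠ 0) :
    (algebraMap S.R S.K S.aR * algebraMap S.R S.K S.bR) • S.om =
      br k (algebraMap S.R S.K S.xR) (algebraMap S.R S.K S.yR) := by
  unfold Setup.om
  rw [smul_smul, mul_inv_cancel₀ (mul_ne_zero ha hb), one_smul]

lemma aR_ne {k : Type*} [Field k] (S : Setup k) : algebraMap S.R S.K S.aR ≠ 0 := by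
  intro h
  apply S.a0
  have : S.aR = 0 := by
    apply IsFractionRing.injective S.R S.K
    rw [h, map_zero]
  exact congrArg Subtype.val this

lemma bR_ne {k : Type*} [Field k] (S : Setup k) : algebraMap S.R S.K S.bR ≠ 0 := by
  intro h
  apply S.b0
  have : S.bR = 0 := by
    apply IsFractionRing.injective S.R S.K
    rw [h, map_zero]
  exact congrArg Subtype.val this

/-- the two brackets in a field, first relation -/
lemma br_calc1 {k K : Type*} [Field k] [Field K] [Algebra k K] [CharP K 2] {x y z : K}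
    (hx : x ≠ 0) (hy : y ≠ 0) (hrel : z ^ 2 + x * y * z + x ^ 2 * y + y ^ 2 * x = 0)
    {om : ⋀[K]^2 (Ω[K⁄k])} (hom : (x * y) • om = br k x y) :
    br k y z = (y * (y + z)) • om ∧ br k z x = (x * (x + z)) • om := by
  have h1 : br k (z ^ 2 + x * y * z + x ^ 2 * y + y ^ 2 * x) y =
      (x * y) • br k z y + (z * y + y ^ 2) • br k x y := by
    rw [br_add_left, br_add_left, br_add_left, br_sq_left, br_mul_left (x * y) z y,
      br_mul_left x y y, br_self, br_sq_mul_left, br_self, br_sq_mul_left]
    generalize br k z y = α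
    generalize br k x y = β
    module
  have h2 : br k x (z ^ 2 + x * y * z + x ^ 2 * y + y ^ 2 * x) =
      (x * y) • br k x z + (z * x + x ^ 2) • br k x y := by
    rw [br_add_right, br_add_right, br_add_right, br_sq_right, br_mul_right x (x * y) z,
      br_mul_right x x y, br_self, br_sq_mul_right, br_sq_mul_right, br_self]
    generalize br k x z = α
    generalize br k x y = β
    module
  rw [hrel, br_zero_left, ← hom] at h1
  rw [hrel, br_zero_right, ← hom] at h2
  rw [br_swap z y, br_swap x z]
  have hxy : x * y ≠ 0 := mul_ne_zero hx hy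
  constructor
  · have h3 : (x * y) • (br k z y + (y * (y + z)) • om) = 0 := by
      rw [h1]
      generalize br k z y = α
      module
    have h4 := (smul_eq_zero_iff_right hxy).1 h3
    exact neg_eq_of_add_eq_zero_right h4
  · have h3 : (x * y) • (br k x z + (x * (x + z)) • om) = 0 := by
      rw [h2]
      generalize br k x z = α
      module
    have h4 := (smul_eq_zero_iff_right hxy).1 h3
    exact neg_eq_of_add_eq_zero_right h4


/-- the two brackets in a field, second relation -/
lemma br_calc2 {k K : Type*} [Field k] [Field K] [Algebra k K] [CharP K 2] {x y z : K}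
    (hx : x ≠ 0) (hy : y ≠ 0)
    (hrel : z ^ 2 + y ^ 3 * x * z + (y ^ 3) ^ 2 * y + x ^ 2 * x = 0)
    {om : ⋀[K]^2 (Ω[K⁄k])} (hom : (y ^ 3 * x) • om = br k x y) :
    br k y z = (y ^ 3 * z + x ^ 2) • om ∧ br k z x = (x * y ^ 2 * z + y ^ 6) • om := by
  have hy3 : br k (y ^ 3) y = 0 := by
    rw [show y ^ 3 = y ^ 2 * y by ring, br_sq_mul_left, br_self, smul_zero]
  have hy3' : br k x (y ^ 3) = y ^ 2 • br k x y := by
    rw [show y ^ 3 = y ^ 2 * y by ring, br_sq_mul_right]
  have h1 : br k (z ^ 2 + y ^ 3 * x * z + (y ^ 3) ^ 2 * y + x ^ 2 * x) y =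
      (y ^ 3 * x) • br k z y + (y ^ 3 * z + x ^ 2) • br k x y := by
    rw [br_add_left, br_add_left, br_add_left, br_sq_left, br_mul_left (y ^ 3 * x) z y,
      br_mul_left (y ^ 3) x y, hy3, br_sq_mul_left, br_self, br_sq_mul_left]
    generalize br k z y = α
    generalize br k x y = β
    module
  have h2 : br k x (z ^ 2 + y ^ 3 * x * z + (y ^ 3) ^ 2 * y + x ^ 2 * x) =
      (y ^ 3 * x) • br k x z + (x * y ^ 2 * z + y ^ 6) • br k x y := by
    rw [br_add_right, br_add_right, br_add_right, br_sq_right, br_mul_right x (y ^ 3 * x) z,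
      br_mul_right x (y ^ 3) x, br_self, hy3', br_sq_mul_right, br_sq_mul_right, br_self]
    generalize br k x z = α
    generalize br k x y = β
    module
  rw [hrel, br_zero_left, ← hom] at h1
  rw [hrel, br_zero_right, ← hom] at h2
  rw [br_swap z y, br_swap x z]
  have hxy : y ^ 3 * x ≠ 0 := mul_ne_zero (pow_ne_zero 3 hy) hx
  constructor
  · have h3 : (y ^ 3 * x) • (br k z y + (y ^ 3 * z + x ^ 2) • om) = 0 := by
      rw [h1]
      generalize br k z y = α
      module
    have h4 := (smul_eq_zero_iff_right hxy).1 h3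
    exact neg_eq_of_add_eq_zero_right h4
  · have h3 : (y ^ 3 * x) • (br k x z + (x * y ^ 2 * z + y ^ 6) • om) = 0 := by
      rw [h2]
      generalize br k x z = α
      module
    have h4 := (smul_eq_zero_iff_right hxy).1 h3
    exact neg_eq_of_add_eq_zero_right h4

theorem Setup.reg_S1 {k : Type*} [Field k] [CharP k 2] (S : Setup k)
    (hax : S.a = S.x) (hby : S.b = S.y) (P : Ideal S.R) [P.IsPrime]
    (hP : ¬ (S.xR ∈ P ∧ S.yR ∈ P)) :
    S.om ∈ regularForms (D k S.K) (localRing S.K P) := by
  have hax' : S.aR = S.xR := Subtype.ext hax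
  have hby' : S.bR = S.yR := Subtype.ext hby
  have hrel := S.rel
  have ha := aR_ne S
  have hb := bR_ne S
  have hom := smul_om S ha hb
  rw [hax'] at ha
  rw [hby'] at hb
  rw [hax', hby'] at hrel hom
  have hrelK := congrArg (algebraMap S.R S.K) hrel
  simp only [map_add, map_mul, map_pow, map_zero] at hrelK
  obtain ⟨e1, e2⟩ := br_calc1 ha hb hrelK hom
  refine S.reg_of_partials (S.yR * (S.yR + S.zR)) (S.xR * (S.xR + S.zR)) ?_ ?_ P ?_
  · rw [map_mul, map_add]; exact e1.symm
  · rw [map_mul, map_add]; exact e2.symm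
  · have hPp : P.IsPrime := inferInstance
    rw [hax', hby']
    by_cases hx : S.xR ∈ P
    · have hy : S.yR ∉ P := fun h => hP ⟨hx, h⟩
      have hz : S.zR ∈ P := by
        apply hPp.mem_of_pow_mem 2
        have : S.zR ^ 2 = S.xR * (-(S.yR * S.zR + S.xR * S.yR + S.yR ^ 2)) := by
          linear_combination hrel
        rw [this]
        exact P.mul_mem_right _ hx
      left
      intro h
      rcases hPp.mem_or_mem h with h | h
      · exact hy h
      · exact hy ((P.add_mem_iff_left hz).1 h)
    · by_cases hy : S.yR ∈ P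
      · have hz : S.zR ∈ P := by
          apply hPp.mem_of_pow_mem 2
          have : S.zR ^ 2 = S.yR * (-(S.xR * S.zR + S.xR ^ 2 + S.yR * S.xR)) := by
            linear_combination hrel
          rw [this]
          exact P.mul_mem_right _ hy
        right; left
        intro h
        rcases hPp.mem_or_mem h with h | h
        · exact hx h
        · exact hx ((P.add_mem_iff_left hz).1 h)
      · right; right
        intro h
        rcases hPp.mem_or_mem h with h | h
        · exact hx h
        · exact hy h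

theorem Setup.reg_S2 {k : Type*} [Field k] [CharP k 2] (S : Setup k)
    (hax : S.a = S.y ^ 3) (hbx : S.b = S.x) (P : Ideal S.R) [P.IsPrime]
    (hP : ¬ (S.xR ∈ P ∧ S.yR ∈ P)) :
    S.om ∈ regularForms (D k S.K) (localRing S.K P) := by
  have hax' : S.aR = S.yR ^ 3 := Subtype.ext hax
  have hbx' : S.bR = S.xR := Subtype.ext hbx
  have hrel := S.rel
  have ha := aR_ne S
  have hb := bR_ne S
  have hom := smul_om S ha hb
  rw [hax', map_pow] at ha
  rw [hbx'] at hb
  rw [hax', hbx'] at hrel hom
  rw [map_pow] at hom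
  have hrelK := congrArg (algebraMap S.R S.K) hrel
  simp only [map_add, map_mul, map_pow, map_zero] at hrelK
  have hy0 : algebraMap S.R S.K S.yR ≠ 0 := fun h => ha (by rw [h]; ring)
  obtain ⟨e1, e2⟩ := br_calc2 hb hy0 hrelK hom
  refine S.reg_of_partials (S.yR ^ 3 * S.zR + S.xR ^ 2) (S.xR * S.yR ^ 2 * S.zR + S.yR ^ 6)
    ?_ ?_ P ?_
  · simp only [map_mul, map_add, map_pow]; exact e1.symm
  · simp only [map_mul, map_add, map_pow]; exact e2.symm
  · have hPp : P.IsPrime := inferInstance
    rw [hax', hbx']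
    by_cases hx : S.xR ∈ P
    · have hy : S.yR ∉ P := fun h => hP ⟨hx, h⟩
      have hz : S.zR ∉ P := by
        intro hz
        apply hy
        apply hPp.mem_of_pow_mem 7
        have : S.yR ^ 7 = S.zR * (-(S.zR + S.yR ^ 3 * S.xR)) + S.xR * (-(S.xR ^ 2)) := by
          linear_combination hrel
        rw [this]
        exact P.add_mem (P.mul_mem_right _ hz) (P.mul_mem_right _ hx)
      left
      intro h
      have h2 : S.xR ^ 2 ∈ P := P.pow_mem_of_mem hx 2 (by norm_num)
      rcases hPp.mem_or_mem ((P.add_mem_iff_left h2).1 h) with h | h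
      · exact hy (hPp.mem_of_pow_mem 3 h)
      · exact hz h
    · by_cases hy : S.yR ∈ P
      · left
        intro h
        have h3 : S.yR ^ 3 * S.zR ∈ P := P.mul_mem_right _ (P.pow_mem_of_mem hy 3 (by norm_num))
        exact hx (hPp.mem_of_pow_mem 2 ((P.add_mem_iff_right h3).1 h))
      · right; right
        intro h
        rcases hPp.mem_or_mem h with h | h
        · exact hy (hPp.mem_of_pow_mem 3 h)
        · exact hx h

end Pool.Agent.Helper165.LT
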