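import Pool.Agent.Helper165.LT.Om

set_option autoImplicit false

open KaehlerDifferential MvPowerSeries

namespace Pool.Agent.Helper165.LT

lemma exists_decomp_of_constantCoeff_zero {k : Type*} [Field k] (f : MvPowerSeries (Fin 2) k)
    (hf : constantCoeff f = 0) : ∃ g h : MvPowerSeries (Fin 2) k, f = X 0 * g + X 1 * h := by
  classical
  let p : MvPowerSeries (Fin 2) k := fun m => if m 0 = 0 then coeff m f else 0
  have hp : ∀ m, coeff m p = if m 0 = 0 then coeff m f else 0 := fun m => rfl
  have h1 : (X 0 : MvPowerSeries (Fin 2) k) ∣ f - p := by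
    rw [X_dvd_iff]
    intro m hm
    rw [map_sub, hp, if_pos hm, sub_self]
  have h2 : (X 1 : MvPowerSeries (Fin 2) k) ∣ p := by
    rw [X_dvd_iff]
    intro m hm
    rw [hp]
    split_ifs with h0
    · have : m = 0 := by
        ext i
        fin_cases i
        · exact h0
        · exact hm
      rw [this]
      exact hf
    · rfl
  obtain ⟨g, hg⟩ := h1
  obtain ⟨h, hh⟩ := h2
  exact ⟨g, h, by rw [← hg, ← hh]; ring⟩

theorem Setup.isWildAction {k : Type*} [Field k] [CharP k 2] (S : Setup k)
    (hx : S.x ∈ (Ideal.span {S.a, S.b}).radical) (hy : S.y ∈ (Ideal.span {S.a, S.b}).radical) :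
    IsWildAction 2 S.σ := by
  refine ⟨?_, ?_⟩
  · have : Fact (Nat.Prime 2) := ⟨Nat.prime_two⟩
    apply orderOf_eq_prime
    · ext f : 1
      rw [pow_two]
      exact S.inv f
    · intro h
      apply S.a0
      have h1 := S.σu
      rw [h] at h1
      have h2 : (X 0 : MvPowerSeries (Fin 2) k) = X 0 + S.a := h1
      simpa using h2
  · intro q hq hfix
    have ha : S.a ∈ q := by
      have := hfix (X 0)
      rwa [S.σu, add_sub_cancel_left] at this
    have hb : S.b ∈ q := by
      have := hfix (X 1)
      rwa [S.σv, add_sub_cancel_left] at this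
    have hab : Ideal.span {S.a, S.b} ≤ q := by
      rw [Ideal.span_le]
      intro z hz
      rcases hz with rfl | hz
      · exact ha
      · rw [Set.mem_singleton_iff] at hz
        rw [hz]; exact hb
    have hrad : (Ideal.span {S.a, S.b}).radical ≤ q := hq.radical_le_iff.mpr hab
    have hxq : S.x ∈ q := hrad hx
    have hyq : S.y ∈ q := hrad hy
    have hu : (X 0 : MvPowerSeries (Fin 2) k) ∈ q := by
      apply hq.mem_of_pow_mem 2
      have : (X 0 : MvPowerSeries (Fin 2) k) ^ 2 = S.x - S.a * X 0 := by rw [S.hx]; ring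
      rw [this]
      exact q.sub_mem hxq (q.mul_mem_right _ ha)
    have hv : (X 1 : MvPowerSeries (Fin 2) k) ∈ q := by
      apply hq.mem_of_pow_mem 2
      have : (X 1 : MvPowerSeries (Fin 2) k) ^ 2 = S.y - S.b * X 1 := by rw [S.hy]; ring
      rw [this]
      exact q.sub_mem hyq (q.mul_mem_right _ hb)
    apply le_antisymm
    · exact IsLocalRing.le_maximalIdeal hq.ne_top
    · intro f hf
      rw [IsLocalRing.mem_maximalIdeal, mem_nonunits_iff, isUnit_iff_constantCoeff] at hf
      have hf0 : constantCoeff f = 0 := by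
        by_contra h
        exact hf (isUnit_iff_ne_zero.mpr h)
      obtain ⟨g, h, rfl⟩ := exists_decomp_of_constantCoeff_zero f hf0
      exact q.add_mem (q.mul_mem_right _ hu) (q.mul_mem_right _ hv)


end Pool.Agent.Helper165.LT
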