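import Pool.Agent.Helper165.LT.Om

set_option autoImplicit false

open KaehlerDifferential MvPowerSeries

namespace Pool.Agent.Helper165.LT


section hinv

variable {k : Type*} [Field k]

lemma hi_mem_max (f : MvPowerSeries (Fin 2) k) :
    f ∈ IsLocalRing.maximalIdeal (MvPowerSeries (Fin 2) k) ↔ constantCoeff f = 0 := by
  rw [IsLocalRing.mem_maximalIdeal, mem_nonunits_iff, MvPowerSeries.isUnit_iff_constantCoeff,
    isUnit_iff_ne_zero, not_not]

lemma hi_decomp (f : MvPowerSeries (Fin 2) k) (hf : constantCoeff f = 0) :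
    ∃ p q : MvPowerSeries (Fin 2) k, f = p * X 0 + q * X 1 := by
  let g : MvPowerSeries (Fin 2) k := fun m => if m 0 = 0 then coeff m f else 0
  have hg : ∀ m, coeff m g = if m 0 = 0 then coeff m f else 0 := fun m => rfl
  have h1 : (X 1 : MvPowerSeries (Fin 2) k) ∣ g := by
    rw [X_dvd_iff]
    intro m hm
    rw [hg]
    split_ifs with h0
    · have : m = 0 := by
        ext i
        fin_cases i
        · exact h0
        · exact hm
      rw [this, coeff_zero_eq_constantCoeff_apply, hf]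
    · rfl
  have h0 : (X 0 : MvPowerSeries (Fin 2) k) ∣ f - g := by
    rw [X_dvd_iff]
    intro m hm
    rw [map_sub, hg, if_pos hm, sub_self]
  obtain ⟨p, hp⟩ := h0
  obtain ⟨q, hq⟩ := h1
  refine ⟨p, q, ?_⟩
  rw [← sub_add_cancel f g, hp, hq]
  ring

lemma hi_X_mem (i : Fin 2) :
    (X i : MvPowerSeries (Fin 2) k) ∈ IsLocalRing.maximalIdeal (MvPowerSeries (Fin 2) k) := by
  rw [hi_mem_max, constantCoeff_X]

lemma hi_span : Ideal.span {(X 0 : MvPowerSeries (Fin 2) k), X 1} =
    IsLocalRing.maximalIdeal (MvPowerSeries (Fin 2) k) := by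
  apply le_antisymm
  · rw [Ideal.span_le]
    intro x hx
    rcases hx with rfl | hx
    · exact hi_X_mem 0
    · rw [Set.mem_singleton_iff.mp hx]; exact hi_X_mem 1
  · intro f hf
    rw [hi_mem_max] at hf
    obtain ⟨p, q, rfl⟩ := hi_decomp f hf
    rw [Ideal.mem_span_pair]
    exact ⟨p, q, rfl⟩

/-- coefficient of the linear monomials of a product -/
lemma hi_coeff_mul (i : Fin 2) (f g : MvPowerSeries (Fin 2) k) :
    coeff (Finsupp.single i 1) (f * g) =
      constantCoeff f * coeff (Finsupp.single i 1) g +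
        coeff (Finsupp.single i 1) f * constantCoeff g := by
  classical
  rw [coeff_mul, Finsupp.antidiagonal_single, Finset.sum_map]
  have : Finset.HasAntidiagonal.antidiagonal (1 : ℕ) = {((0 : ℕ), 1), (1, 0)} := by decide
  rw [this, Finset.sum_insert (by decide), Finset.sum_singleton]
  simp

lemma hi_sq_coeff (i : Fin 2) (f : MvPowerSeries (Fin 2) k)
    (hf : f ∈ IsLocalRing.maximalIdeal (MvPowerSeries (Fin 2) k) ^ 2) :
    coeff (Finsupp.single i 1) f = 0 := by
  rw [pow_two] at hf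
  refine Submodule.mul_induction_on hf ?_ ?_
  · intro a ha b hb
    rw [hi_mem_max] at ha hb
    rw [hi_coeff_mul, ha, hb, zero_mul, mul_zero, add_zero]
  · intro a b ha hb
    rw [map_add, ha, hb, add_zero]

lemma hi_coeff_X (i j : Fin 2) :
    coeff (Finsupp.single i 1) (X j : MvPowerSeries (Fin 2) k) = if i = j then 1 else 0 := by
  classical
  rw [coeff_X]
  congr 1
  rw [Finsupp.single_left_inj (by norm_num)]

/-- independence of generators modulo the square -/
lemma hi_indep (x y : MvPowerSeries (Fin 2) k)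
    (hxy : Ideal.span {x, y} = IsLocalRing.maximalIdeal (MvPowerSeries (Fin 2) k)) (α β : k)
    (h : α • x + β • y ∈ IsLocalRing.maximalIdeal (MvPowerSeries (Fin 2) k) ^ 2) :
    α = 0 ∧ β = 0 := by
  have hx : constantCoeff x = 0 := by
    rw [← hi_mem_max, ← hxy]; exact Ideal.subset_span (by simp)
  have hy : constantCoeff y = 0 := by
    rw [← hi_mem_max, ← hxy]; exact Ideal.subset_span (by simp)
  have h0 : (X 0 : MvPowerSeries (Fin 2) k) ∈ Ideal.span {x, y} := by rw [hxy]; exact hi_X_mem 0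
  have h1 : (X 1 : MvPowerSeries (Fin 2) k) ∈ Ideal.span {x, y} := by rw [hxy]; exact hi_X_mem 1
  rw [Ideal.mem_span_pair] at h0 h1
  obtain ⟨p, q, hpq⟩ := h0
  obtain ⟨r, s, hrs⟩ := h1
  let J : Matrix (Fin 2) (Fin 2) k :=
    !![coeff (Finsupp.single 0 1) x, coeff (Finsupp.single 1 1) x;
       coeff (Finsupp.single 0 1) y, coeff (Finsupp.single 1 1) y]
  let P : Matrix (Fin 2) (Fin 2) k :=
    !![constantCoeff p, constantCoeff q; constantCoeff r, constantCoeff s]
  have key : ∀ i : Fin 2, ∀ a b : MvPowerSeries (Fin 2) k,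
      coeff (Finsupp.single i 1) (a * x + b * y) =
        constantCoeff a * coeff (Finsupp.single i 1) x +
        constantCoeff b * coeff (Finsupp.single i 1) y := by
    intro i a b
    rw [map_add, hi_coeff_mul, hi_coeff_mul, hx, hy, mul_zero, mul_zero, add_zero, add_zero]
  have hPJ : P * J = 1 := by
    ext i j
    fin_cases i <;> fin_cases j
    · have := key 0 p q
      rw [hpq, hi_coeff_X] at this
      simp [P, J, Matrix.mul_apply, Fin.sum_univ_two, ← this]
    · have := key 1 p q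
      rw [hpq, hi_coeff_X] at this
      simp [P, J, Matrix.mul_apply, Fin.sum_univ_two, ← this]
    · have := key 0 r s
      rw [hrs, hi_coeff_X] at this
      simp [P, J, Matrix.mul_apply, Fin.sum_univ_two, ← this]
    · have := key 1 r s
      rw [hrs, hi_coeff_X] at this
      simp [P, J, Matrix.mul_apply, Fin.sum_univ_two, ← this]
  have hJP : J * P = 1 := mul_eq_one_comm.mp hPJ
  have hc0 := hi_sq_coeff 0 _ h
  have hc1 := hi_sq_coeff 1 _ h
  have hv : Matrix.vecMul ![α, β] J = 0 := by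
    ext j
    fin_cases j
    · simpa [J, Matrix.vecMul, dotProduct, Fin.sum_univ_two] using hc0
    · simpa [J, Matrix.vecMul, dotProduct, Fin.sum_univ_two] using hc1
  have hv2 : (![α, β] : Fin 2 → k) = 0 := by
    have := congrArg (fun v => Matrix.vecMul v P) hv
    simp only [Matrix.vecMul_vecMul, hJP, Matrix.vecMul_one, Matrix.zero_vecMul] at this
    exact this
  exact ⟨congrFun hv2 0, congrFun hv2 1⟩

lemma hi_linear_mod (f : MvPowerSeries (Fin 2) k) (hf : constantCoeff f = 0) :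
    ∃ c d : k, f - (c • X 0 + d • X 1) ∈
      IsLocalRing.maximalIdeal (MvPowerSeries (Fin 2) k) ^ 2 := by
  obtain ⟨p, q, rfl⟩ := hi_decomp f hf
  refine ⟨constantCoeff p, constantCoeff q, ?_⟩
  have h1 : p * X 0 + q * X 1 - (constantCoeff p • X 0 + constantCoeff q • X 1) =
      (p - C (constantCoeff p)) * X 0 + (q - C (constantCoeff q)) * X 1 := by
    rw [smul_eq_C_mul, smul_eq_C_mul]
    ring
  rw [h1, pow_two]
  refine Ideal.add_mem _ (Ideal.mul_mem_mul ?_ (hi_X_mem 0)) (Ideal.mul_mem_mul ?_ (hi_X_mem 1))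
  · rw [hi_mem_max]; simp
  · rw [hi_mem_max]; simp

lemma hi_finrank : Module.finrank k
    (IsLocalRing.maximalIdeal (MvPowerSeries (Fin 2) k)).Cotangent = 2 := by
  let 𝔪 := IsLocalRing.maximalIdeal (MvPowerSeries (Fin 2) k)
  let e : Fin 2 → 𝔪.Cotangent := fun i => 𝔪.toCotangent ⟨X i, hi_X_mem i⟩
  have hsm : ∀ (c : k) (z : 𝔪), c • 𝔪.toCotangent z = 𝔪.toCotangent (c • z) := by
    intro c z
    rfl
  have hli : LinearIndependent k e := by
    rw [Fintype.linearIndependent_iff]
    intro g hg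
    rw [Fin.sum_univ_two] at hg
    simp only [e, hsm] at hg
    rw [← map_add, Ideal.toCotangent_eq_zero] at hg
    have h2 : g 0 • (X 0 : MvPowerSeries (Fin 2) k) + g 1 • X 1 ∈
        IsLocalRing.maximalIdeal (MvPowerSeries (Fin 2) k) ^ 2 := hg
    obtain ⟨h0, h1⟩ := hi_indep (X 0) (X 1) hi_span _ _ h2
    intro i
    fin_cases i
    · exact h0
    · exact h1
  have hsp : ⊤ ≤ Submodule.span k (Set.range e) := by
    intro z _
    obtain ⟨⟨f, hf⟩, rfl⟩ := 𝔪.toCotangent_surjective z
    obtain ⟨c, d, hcd⟩ := hi_linear_mod f ((hi_mem_max f).mp hf)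
    have h1 : 𝔪.toCotangent ⟨f, hf⟩ = c • e 0 + d • e 1 := by
      simp only [e, hsm]
      rw [← map_add, Ideal.toCotangent_eq]
      exact hcd
    rw [h1]
    exact Submodule.add_mem _ (Submodule.smul_mem _ _ (Submodule.subset_span ⟨0, rfl⟩))
      (Submodule.smul_mem _ _ (Submodule.subset_span ⟨1, rfl⟩))
  rw [Module.finrank_eq_card_basis (Module.Basis.mk hli hsp)]
  simp

lemma hi_sub_mem (S : Setup k) (f : MvPowerSeries (Fin 2) k) :
    S.σ f - f ∈ IsLocalRing.maximalIdeal (MvPowerSeries (Fin 2) k) := by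
  rw [hi_mem_max]
  have h1 : f = algebraMap k (MvPowerSeries (Fin 2) k) (constantCoeff f) +
      (f - algebraMap k (MvPowerSeries (Fin 2) k) (constantCoeff f)) := by ring
  have h2 : constantCoeff (f - algebraMap k (MvPowerSeries (Fin 2) k) (constantCoeff f)) = 0 := by
    rw [map_sub, MvPowerSeries.algebraMap_apply]
    simp
  have h3 := S.hσ0 _ h2
  rw [map_sub, AlgEquiv.commutes, map_sub] at h3
  rw [map_sub] at h2 ⊢
  rw [sub_eq_zero] at h2 h3
  rw [h2, h3, sub_self]

/-- if `σ x - x` and `σ y - y` lie in `𝔪^n`, then so does `σ f - f` for all `f`. -/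
lemma hi_sub_pow (S : Setup k) (x y : MvPowerSeries (Fin 2) k) (n : ℕ)
    (hxy : Ideal.span {x, y} = IsLocalRing.maximalIdeal (MvPowerSeries (Fin 2) k))
    (hn : ∀ f, S.σ f - f ∈ IsLocalRing.maximalIdeal (MvPowerSeries (Fin 2) k) ^ n)
    (hx : S.σ x - x ∈ IsLocalRing.maximalIdeal (MvPowerSeries (Fin 2) k) ^ (n + 1))
    (hy : S.σ y - y ∈ IsLocalRing.maximalIdeal (MvPowerSeries (Fin 2) k) ^ (n + 1))
    (f : MvPowerSeries (Fin 2) k) :
    S.σ f - f ∈ IsLocalRing.maximalIdeal (MvPowerSeries (Fin 2) k) ^ (n + 1) := by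
  have hxm : x ∈ IsLocalRing.maximalIdeal (MvPowerSeries (Fin 2) k) := by
    rw [← hxy]; exact Ideal.subset_span (by simp)
  have hym : y ∈ IsLocalRing.maximalIdeal (MvPowerSeries (Fin 2) k) := by
    rw [← hxy]; exact Ideal.subset_span (by simp)
  have key : ∀ g, constantCoeff g = 0 →
      S.σ g - g ∈ IsLocalRing.maximalIdeal (MvPowerSeries (Fin 2) k) ^ (n + 1) := by
    intro g hg
    rw [← hi_mem_max, ← hxy, Ideal.mem_span_pair] at hg
    obtain ⟨p, q, rfl⟩ := hg
    have h1 : S.σ (p * x + q * y) - (p * x + q * y) =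
        (S.σ p - p) * x + (S.σ q - q) * y + S.σ p * (S.σ x - x) + S.σ q * (S.σ y - y) := by
      rw [map_add, map_mul, map_mul]
      ring
    rw [h1]
    refine Ideal.add_mem _ (Ideal.add_mem _ (Ideal.add_mem _ ?_ ?_) ?_) ?_
    · rw [pow_succ]; exact Ideal.mul_mem_mul (hn p) hxm
    · rw [pow_succ]; exact Ideal.mul_mem_mul (hn q) hym
    · exact Ideal.mul_mem_left _ _ hx
    · exact Ideal.mul_mem_left _ _ hy
  have h2 : constantCoeff (f - algebraMap k (MvPowerSeries (Fin 2) k) (constantCoeff f)) = 0 := by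
    rw [map_sub, MvPowerSeries.algebraMap_apply]
    simp
  have h3 := key _ h2
  rw [map_sub, AlgEquiv.commutes] at h3
  have h4 : S.σ f - algebraMap k (MvPowerSeries (Fin 2) k) (constantCoeff f) -
      (f - algebraMap k (MvPowerSeries (Fin 2) k) (constantCoeff f)) = S.σ f - f := by ring
  rwa [h4] at h3

end hinv

theorem Setup.hasInvariants {k : Type*} [Field k] [CharP k 2] (S : Setup k)
    (ha : S.a ∈ IsLocalRing.maximalIdeal (MvPowerSeries (Fin 2) k) ^ 2)
    (hb : S.b ∈ IsLocalRing.maximalIdeal (MvPowerSeries (Fin 2) k) ^ 2)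
    (hab : S.a ∉ IsLocalRing.maximalIdeal (MvPowerSeries (Fin 2) k) ^ 3 ∨
      S.b ∉ IsLocalRing.maximalIdeal (MvPowerSeries (Fin 2) k) ^ 3) :
    HasInvariants S.σ 2 0 := by
  have hu : S.σ (X 0) - X 0 = S.a := by rw [S.σu]; ring
  have hv : S.σ (X 1) - X 1 = S.b := by rw [S.σv]; ring
  have h2 : ∀ f, S.σ f - f ∈ IsLocalRing.maximalIdeal (MvPowerSeries (Fin 2) k) ^ 2 := by
    intro f
    refine hi_sub_pow S (X 0) (X 1) 1 hi_span ?_ ?_ ?_ f
    · intro g; rw [pow_one]; exact hi_sub_mem S g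
    · rw [hu]; exact ha
    · rw [hv]; exact hb
  refine ⟨?_, ?_, ?_⟩
  · -- Jordan blocks
    have h : IsLocalRing.maximalIdeal (MvPowerSeries (Fin 2) k) ≤
        (IsLocalRing.maximalIdeal (MvPowerSeries (Fin 2) k)).comap
          (S.σ : MvPowerSeries (Fin 2) k →ₐ[k] MvPowerSeries (Fin 2) k) := by
      intro f hf
      rw [Ideal.mem_comap]
      rw [hi_mem_max] at hf
      exact (hi_mem_max _).mpr (S.hσ0 f hf)
    refine ⟨h, ?_⟩
    have h0 : (IsLocalRing.maximalIdeal (MvPowerSeries (Fin 2) k)).mapCotangent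
        (IsLocalRing.maximalIdeal (MvPowerSeries (Fin 2) k))
        (S.σ : MvPowerSeries (Fin 2) k →ₐ[k] MvPowerSeries (Fin 2) k) h - LinearMap.id = 0 := by
      ext z
      obtain ⟨z, rfl⟩ := Ideal.toCotangent_surjective _ z
      rw [LinearMap.sub_apply, LinearMap.zero_apply, sub_eq_zero, LinearMap.id_apply]
      rw [Ideal.mapCotangent_toCotangent, Ideal.toCotangent_eq]
      exact h2 z
    rw [h0, LinearMap.ker_zero, finrank_top, hi_finrank]
  · -- linear up to 0
    refine ⟨X 0, X 1, hi_span, 1, 0, 0, 1, ?_, ?_⟩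
    · rw [one_smul, zero_smul, add_zero]; exact h2 (X 0)
    · have e : S.σ (X 1) - ((0 : k) • X 0 + (1 : k) • X 1) = S.σ (X 1) - X 1 := by
        rw [one_smul, zero_smul, zero_add]
      rw [e]; exact h2 (X 1)
  · -- upper bound
    intro m hm
    by_contra hlt
    rw [not_le] at hlt
    obtain ⟨x, y, hxy, a, b, c, d, h3, h4⟩ := hm
    have hpow : IsLocalRing.maximalIdeal (MvPowerSeries (Fin 2) k) ^ (m + 2) ≤
        IsLocalRing.maximalIdeal (MvPowerSeries (Fin 2) k) ^ 3 :=
      Ideal.pow_le_pow_right (by omega)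
    have hpow2 : IsLocalRing.maximalIdeal (MvPowerSeries (Fin 2) k) ^ 3 ≤
        IsLocalRing.maximalIdeal (MvPowerSeries (Fin 2) k) ^ 2 :=
      Ideal.pow_le_pow_right (by omega)
    have h3' := hpow h3
    have h4' := hpow h4
    have h5 : (a - 1) • x + b • y ∈ IsLocalRing.maximalIdeal (MvPowerSeries (Fin 2) k) ^ 2 := by
      have := Ideal.sub_mem _ (h2 x) (hpow2 h3')
      have e : S.σ x - x - (S.σ x - (a • x + b • y)) = (a - 1) • x + b • y := by
        rw [sub_smul, one_smul]; ring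
      rwa [e] at this
    have h6 : c • x + (d - 1) • y ∈ IsLocalRing.maximalIdeal (MvPowerSeries (Fin 2) k) ^ 2 := by
      have := Ideal.sub_mem _ (h2 y) (hpow2 h4')
      have e : S.σ y - y - (S.σ y - (c • x + d • y)) = c • x + (d - 1) • y := by
        rw [sub_smul, one_smul]; ring
      rwa [e] at this
    obtain ⟨ha1, hb1⟩ := hi_indep x y hxy _ _ h5
    obtain ⟨hc1, hd1⟩ := hi_indep x y hxy _ _ h6
    rw [sub_eq_zero] at ha1 hd1
    rw [ha1, hb1, one_smul, zero_smul, add_zero] at h3'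
    rw [hc1, hd1, one_smul, zero_smul, zero_add] at h4'
    have h7 := hi_sub_pow S x y 2 hxy h2 h3' h4'
    rcases hab with hab | hab
    · apply hab
      rw [← hu]
      exact h7 _
    · apply hab
      rw [← hv]
      exact h7 _


end Pool.Agent.Helper165.LT

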