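import Pool.Agent.Helper165.LT.Om

set_option autoImplicit false

open KaehlerDifferential MvPowerSeries

namespace Pool.Agent.Helper165.LT

lemma ew_min_even (x y : ℕ∞) : min (2 * x) (2 * y + 2) = ⊤ ∨
    ∃ j : ℕ, min (2 * x) (2 * y + 2) = 2 * (j : ℕ∞) := by
  induction x with
  | top =>
    induction y with
    | top => left; simp
    | coe y =>
      right
      refine ⟨y + 1, ?_⟩
      rw [ENat.mul_top (by norm_num), min_eq_right le_top]
      push_cast
      ring
  | coe x =>
    induction y with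
    | top =>
      right
      refine ⟨x, ?_⟩
      rw [ENat.mul_top (by norm_num), top_add, min_eq_left le_top]
    | coe y =>
      right
      rcases le_total (2 * (x : ℕ∞)) (2 * (y : ℕ∞) + 2) with h | h
      · exact ⟨x, by rw [min_eq_left h]⟩
      · refine ⟨y + 1, ?_⟩
        rw [min_eq_right h]
        push_cast
        ring

lemma ew_gap {k : Type*} [Field k] [CharP k 2] (S : Setup k)
    (gap : ∀ f, weightedOrder w f + 3 ≤ weightedOrder w (S.σ f - f))
    (hwa : 6 ≤ weightedOrder w S.a) (hu : weightedOrder w (X 0 : MvPowerSeries (Fin 2) k) = 2)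
    (D E : MvPowerSeries (Fin 2) k) :
    min (2 * weightedOrder w D) (2 * weightedOrder w E + 2) + 4 ≤
      weightedOrder w (S.σ (D ^ 2 + E ^ 2 * X 0) - (D ^ 2 + E ^ 2 * X 0)) := by
  have h2 : (2 : MvPowerSeries (Fin 2) k) = 0 := CharTwo.two_eq_zero
  have e : S.σ (D ^ 2 + E ^ 2 * X 0) - (D ^ 2 + E ^ 2 * X 0) =
      (S.σ D - D) ^ 2 + ((S.σ E - E) ^ 2 * (X 0 + S.a) + E ^ 2 * S.a) := by
    rw [map_add, map_mul, map_pow, map_pow, S.σu]
    linear_combination (S.σ D * D - D ^ 2 + (S.σ E * E - E ^ 2) * (X 0 + S.a)) * h2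
  rw [e]
  have g1 := gap D
  have g2 := gap E
  have w1 : weightedOrder w ((S.σ D - D) ^ 2) = weightedOrder w (S.σ D - D) +
      weightedOrder w (S.σ D - D) := by rw [sq, weightedOrder_mul]
  have w2 : weightedOrder w ((S.σ E - E) ^ 2 * (X 0 + S.a)) = weightedOrder w (S.σ E - E) +
      weightedOrder w (S.σ E - E) + weightedOrder w (X 0 + S.a) := by
    rw [weightedOrder_mul, sq, weightedOrder_mul]
  have w3 : weightedOrder w (E ^ 2 * S.a) = weightedOrder w E + weightedOrder w E +
      weightedOrder w S.a := by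
    rw [weightedOrder_mul, sq, weightedOrder_mul]
  have w4 : 2 ≤ weightedOrder w (X 0 + S.a) := by
    refine le_trans ?_ (min_weightedOrder_le_add w)
    rw [hu]
    exact le_min le_rfl (le_trans (by norm_num) hwa)
  refine le_trans ?_ (min_weightedOrder_le_add w)
  refine le_min ?_ (le_trans ?_ (min_weightedOrder_le_add w))
  · rw [w1]
    calc min (2 * weightedOrder w D) (2 * weightedOrder w E + 2) + 4
        ≤ 2 * weightedOrder w D + 4 := by gcongr; exact min_le_left _ _
      _ ≤ 2 * weightedOrder w D + 6 := by gcongr; norm_num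
      _ = (weightedOrder w D + 3) + (weightedOrder w D + 3) := by ring
      _ ≤ _ := add_le_add g1 g1
  · refine le_min ?_ ?_
    · rw [w2]
      calc min (2 * weightedOrder w D) (2 * weightedOrder w E + 2) + 4
          ≤ 2 * weightedOrder w E + 2 + 4 := by gcongr; exact min_le_right _ _
        _ ≤ 2 * weightedOrder w E + 2 + 6 := by gcongr; norm_num
        _ = (weightedOrder w E + 3) + (weightedOrder w E + 3) + 2 := by ring
        _ ≤ _ := add_le_add (add_le_add g2 g2) w4
    · rw [w3]
      calc min (2 * weightedOrder w D) (2 * weightedOrder w E + 2) + 4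
          ≤ 2 * weightedOrder w E + 2 + 4 := by gcongr; exact min_le_right _ _
        _ = weightedOrder w E + weightedOrder w E + 6 := by ring
        _ ≤ _ := by gcongr

theorem Setup.even_weight {k : Type*} [Field k] [CharP k 2] (S : Setup k)
    (decomp : ∀ f : MvPowerSeries (Fin 2) k, ∃ c₀ c₁ c₂ c₃ : MvPowerSeries (Fin 2) k,
      f = (c₀ ^ 2 + c₁ ^ 2 * X 0) + (c₂ ^ 2 + c₃ ^ 2 * X 0) * X 1)
    (weight_sq_add : ∀ D E : MvPowerSeries (Fin 2) k, weightedOrder w (D ^ 2 + E ^ 2 * X 0) =
      min (2 * weightedOrder w D) (2 * weightedOrder w E + 2))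
    (hwσ : ∀ f, weightedOrder w f ≤ weightedOrder w (S.σ f))
    (gap : ∀ f, weightedOrder w f + 3 ≤ weightedOrder w (S.σ f - f))
    (hwa : 6 ≤ weightedOrder w S.a) (hwb : weightedOrder w S.b = 4)
    (r : MvPowerSeries (Fin 2) k) (hr : S.σ r = r) (hr0 : r ≠ 0) :
    ∃ n : ℕ, weightedOrder w r = 2 * (n : ℕ∞) := by
  obtain ⟨c₀, c₁, c₂, c₃, hf⟩ := decomp r
  have hu : weightedOrder w (X 0 : MvPowerSeries (Fin 2) k) = 2 := by
    have := weight_sq_add 0 1
    rw [weightedOrder_zero, weightedOrder_one, ENat.mul_top (by norm_num)] at this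
    simpa using this
  have hv : weightedOrder w (X 1 : MvPowerSeries (Fin 2) k) = 1 := by
    rw [X, weightedOrder_monomial_of_ne_zero w one_ne_zero]
    simp [Finsupp.weight_apply, w]
  set P : MvPowerSeries (Fin 2) k := c₀ ^ 2 + c₁ ^ 2 * X 0 with hP
  set B : MvPowerSeries (Fin 2) k := c₂ ^ 2 + c₃ ^ 2 * X 0 with hB
  have wP : weightedOrder w P = min (2 * weightedOrder w c₀) (2 * weightedOrder w c₁ + 2) :=
    weight_sq_add c₀ c₁
  have wB : weightedOrder w B = min (2 * weightedOrder w c₂) (2 * weightedOrder w c₃ + 2) :=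
    weight_sq_add c₂ c₃
  have gP : weightedOrder w P + 4 ≤ weightedOrder w (S.σ P - P) := by
    rw [wP]; exact ew_gap S gap hwa hu c₀ c₁
  have gB : weightedOrder w B + 4 ≤ weightedOrder w (S.σ B - B) := by
    rw [wB]; exact ew_gap S gap hwa hu c₂ c₃
  have eP : weightedOrder w P = ⊤ ∨ ∃ j : ℕ, weightedOrder w P = 2 * (j : ℕ∞) := by
    rw [wP]; exact ew_min_even _ _
  have eB : weightedOrder w B = ⊤ ∨ ∃ j : ℕ, weightedOrder w B = 2 * (j : ℕ∞) := by
    rw [wB]; exact ew_min_even _ _
  have wBv : weightedOrder w (B * X 1) = weightedOrder w B + 1 := by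
    rw [weightedOrder_mul, hv]
  have wσB : weightedOrder w (S.σ B) = weightedOrder w B := by
    refine le_antisymm ?_ (hwσ B)
    have := hwσ (S.σ B)
    rwa [S.inv] at this
  have key : S.σ B * S.b = -((S.σ P - P) + (S.σ B - B) * X 1) := by
    have h := hr
    rw [hf, map_add, map_mul, S.σv] at h
    linear_combination h
  rcases eB with hBt | ⟨j, hj⟩
  · -- B = 0
    have hB0 : B = 0 := (weightedOrder_eq_top_iff w).1 hBt
    rcases eP with hPt | ⟨i, hi⟩
    · exfalso
      apply hr0
      rw [hf, hB0, (weightedOrder_eq_top_iff w).1 hPt]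
      simp
    · refine ⟨i, ?_⟩
      rw [hf, hB0, zero_mul, add_zero, hi]
  · -- compare
    rcases le_or_gt (weightedOrder w P) (weightedOrder w B + 1) with hle | hlt
    · have hne : weightedOrder w P ≠ weightedOrder w (B * X 1) := by
        rw [wBv, hj]
        rcases eP with hPt | ⟨i, hi⟩
        · rw [hPt]
          intro h
          exact absurd h.symm (by exact_mod_cast ENat.natCast_ne_top (2 * j + 1))
        · rw [hi]
          intro h
          have : 2 * i = 2 * j + 1 := by exact_mod_cast h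
          omega
      rcases eP with hPt | ⟨i, hi⟩
      · exfalso
        rw [hPt, hj] at hle
        exact absurd (top_le_iff.1 hle) (by exact_mod_cast ENat.natCast_ne_top (2 * j + 1))
      · refine ⟨i, ?_⟩
        rw [hf, weightedOrder_add_of_weightedOrder_ne w hne, ← hi, wBv]
        exact min_eq_left hle
    · exfalso
      have hb1 : weightedOrder w (S.σ B * S.b) = 2 * (j : ℕ∞) + 4 := by
        rw [weightedOrder_mul, wσB, hj, hwb]
      have hP2 : 2 * (j : ℕ∞) + 5 ≤ weightedOrder w (S.σ P - P) := by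
        refine le_trans ?_ gP
        have h1 : weightedOrder w B + 1 ≤ weightedOrder w P := hlt.le
        rw [hj] at h1
        calc 2 * (j : ℕ∞) + 5 = 2 * (j : ℕ∞) + 1 + 4 := by ring
          _ ≤ _ := by gcongr
      have hB2 : 2 * (j : ℕ∞) + 5 ≤ weightedOrder w ((S.σ B - B) * X 1) := by
        rw [weightedOrder_mul, hv]
        rw [hj] at gB
        calc 2 * (j : ℕ∞) + 5 = 2 * (j : ℕ∞) + 4 + 1 := by ring
          _ ≤ _ := by gcongr
      have h3 : 2 * (j : ℕ∞) + 5 ≤ weightedOrder w (S.σ B * S.b) := by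
        rw [key, weightedOrder_neg]
        exact le_trans (le_min hP2 hB2) (min_weightedOrder_le_add w)
      rw [hb1] at h3
      have : 2 * j + 5 ≤ 2 * j + 4 := by exact_mod_cast h3
      omega



end Pool.Agent.Helper165.LT
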