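import Pool.Agent.Helper165.LT.Om

set_option autoImplicit false

open KaehlerDifferential MvPowerSeries

namespace Pool.Agent.Helper165.LT

theorem Setup.exists_valuation {k : Type*} [Field k] [CharP k 2] (S : Setup k) :
    ∃ V : ValuationSubring S.K, ∀ f g : S.R, g ≠ 0 →
      (algebraMap S.R S.K f / algebraMap S.R S.K g ∈ V ↔
        weightedOrder w (g : MvPowerSeries (Fin 2) k) ≤
          weightedOrder w (f : MvPowerSeries (Fin 2) k)) := by
  classical
  let W : S.R → ℕ∞ := fun f => weightedOrder w (f : MvPowerSeries (Fin 2) k)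
  have hmul : ∀ f g, W (f * g) = W f + W g := by
    intro f g
    show weightedOrder w ((f * g : S.R) : MvPowerSeries (Fin 2) k) = _
    rw [MulMemClass.coe_mul, weightedOrder_mul]
  have hadd : ∀ f g, min (W f) (W g) ≤ W (f + g) := by
    intro f g
    exact min_weightedOrder_le_add w
  have htop : ∀ f, W f = ⊤ ↔ f = 0 := by
    intro f
    show weightedOrder w (f : MvPowerSeries (Fin 2) k) = ⊤ ↔ _
    rw [weightedOrder_eq_top_iff]
    exact ZeroMemClass.coe_eq_zero
  have hneg : ∀ f, W (-f) = W f := by
    intro f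
    show weightedOrder w ((-f : S.R) : MvPowerSeries (Fin 2) k) = _
    rw [NegMemClass.coe_neg, weightedOrder_neg]
  have hinj : Function.Injective (algebraMap S.R S.K) := IsFractionRing.injective S.R S.K
  have hne : ∀ g : S.R, g ≠ 0 → algebraMap S.R S.K g ≠ 0 := by
    intro g hg h
    exact hg (hinj (by rw [h, map_zero]))
  have key : ∀ f g f' g' : S.R, g ≠ 0 → g' ≠ 0 →
      algebraMap S.R S.K f / algebraMap S.R S.K g = algebraMap S.R S.K f' / algebraMap S.R S.K g' →
      W g' ≤ W f' → W g ≤ W f := by
    intro f g f' g' hg hg' h hle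
    rw [div_eq_div_iff (hne g hg) (hne g' hg'), ← map_mul, ← map_mul] at h
    have h2 := congrArg W (hinj h)
    rw [hmul, hmul] at h2
    have h3 : W g' + W g ≤ W g' + W f := by
      calc W g' + W g ≤ W f' + W g := by gcongr
        _ = W f + W g' := h2.symm
        _ = W g' + W f := add_comm _ _
    have h4 : W g' ≠ ⊤ := fun h => hg' ((htop g').mp h)
    exact (ENat.add_le_add_iff_left h4).mp h3
  let V : ValuationSubring S.K :=
    { carrier := {t | ∃ f g : S.R, g ≠ 0 ∧ t = algebraMap S.R S.K f / algebraMap S.R S.K g ∧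
        W g ≤ W f}
      mul_mem' := by
        rintro a b ⟨f, g, hg, rfl, h1⟩ ⟨f', g', hg', rfl, h2⟩
        refine ⟨f * f', g * g', mul_ne_zero hg hg', ?_, ?_⟩
        · rw [map_mul, map_mul, div_mul_div_comm]
        · rw [hmul, hmul]
          gcongr
      one_mem' := ⟨1, 1, one_ne_zero, by rw [div_self (hne 1 one_ne_zero)], le_rfl⟩
      add_mem' := by
        rintro a b ⟨f, g, hg, rfl, h1⟩ ⟨f', g', hg', rfl, h2⟩
        refine ⟨f * g' + g * f', g * g', mul_ne_zero hg hg', ?_, ?_⟩
        · rw [map_add, map_mul, map_mul, map_mul, div_add_div _ _ (hne g hg) (hne g' hg')]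
        · refine le_trans ?_ (hadd _ _)
          rw [hmul, hmul, hmul]
          refine le_min ?_ ?_
          · gcongr
          · gcongr
      zero_mem' := ⟨0, 1, one_ne_zero, by rw [map_zero, zero_div], by
        rw [(htop 0).mpr rfl]; exact le_top⟩
      neg_mem' := by
        rintro a ⟨f, g, hg, rfl, h1⟩
        exact ⟨-f, g, hg, by rw [map_neg, neg_div], by rw [hneg]; exact h1⟩
      mem_or_inv_mem' := by
        intro t
        obtain ⟨f, g, hg, rfl⟩ := IsFractionRing.div_surjective (A := S.R) t
        have hg0 : g ≠ 0 := nonZeroDivisors.ne_zero hg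
        rcases le_total (W g) (W f) with h | h
        · exact Or.inl ⟨f, g, hg0, rfl, h⟩
        · by_cases hf : f = 0
          · left
            refine ⟨f, g, hg0, rfl, ?_⟩
            rw [(htop f).mpr hf]
            exact le_top
          · right
            exact ⟨g, f, hf, by rw [inv_div], h⟩ }
  refine ⟨V, ?_⟩
  intro f g hg
  constructor
  · rintro ⟨f', g', hg', h, hle⟩
    exact key f g f' g' hg hg' h hle
  · intro h
    exact ⟨f, g, hg, rfl, h⟩



end Pool.Agent.Helper165.LT
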