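import Pool.Agent.Helper165.LT.Om

set_option autoImplicit false

open KaehlerDifferential MvPowerSeries

namespace Pool.Agent.Helper165.LT

lemma coe_algebraMap_R {k : Type*} [Field k] (S : Setup k) (c : k) :
    ((algebraMap k S.R c : S.R) : MvPowerSeries (Fin 2) k) = C c := by
  rw [Subalgebra.coe_algebraMap, MvPowerSeries.algebraMap_apply]
  rfl

theorem Setup.isDivisorOver {k : Type*} [Field k] [IsAlgClosed k] [CharP k 2] (S : Setup k)
    (V : ValuationSubring S.K) (hV : ∀ f g : S.R, g ≠ 0 →
      (algebraMap S.R S.K f / algebraMap S.R S.K g ∈ V ↔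
        weightedOrder w (g : MvPowerSeries (Fin 2) k) ≤
          weightedOrder w (f : MvPowerSeries (Fin 2) k)))
    (heven : ∀ r : S.R, r ≠ 0 →
      ∃ n : ℕ, weightedOrder w (r : MvPowerSeries (Fin 2) k) = 2 * (n : ℕ∞))
    (hax : S.a = S.y ^ 3) (hbx : S.b = S.x)
    (hwx : weightedOrder w S.x = 4) (hwy : weightedOrder w S.y = 2) :
    IsDivisorOver k S.R V (algebraMap S.R S.K S.yR) := by
  classical
  set φ := algebraMap S.R S.K with hφ
  have hinj : Function.Injective φ := IsFractionRing.injective S.R S.K
  have hφ0 : ∀ r : S.R, r ≠ 0 → φ r ≠ 0 := fun r hr => by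
    intro h
    exact hr (hinj (by rw [h, map_zero]))
  have hcoe0 : ∀ r : S.R, r ≠ 0 → (r : MvPowerSeries (Fin 2) k) ≠ 0 := fun r hr h =>
    hr (Subtype.ext h)
  have hval : ∀ f g : S.R, g ≠ 0 →
      (V.valuation (φ f) ≤ V.valuation (φ g) ↔ weightedOrder w (g : MvPowerSeries (Fin 2) k) ≤
        weightedOrder w (f : MvPowerSeries (Fin 2) k)) := by
    intro f g hg
    rw [← hV f g hg, ← V.valuation_le_one_iff, map_div₀]
    have hpos : 0 < V.valuation (φ g) := by
      rw [zero_lt_iff]
      exact (V.valuation.ne_zero_iff).2 (hφ0 g hg)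
    rw [div_le_one₀ hpos]
  have hval_eq : ∀ f g : S.R, f ≠ 0 → g ≠ 0 → weightedOrder w (f : MvPowerSeries (Fin 2) k) =
      weightedOrder w (g : MvPowerSeries (Fin 2) k) → V.valuation (φ f) = V.valuation (φ g) := by
    intro f g hf hg h
    exact le_antisymm ((hval f g hg).2 h.ge) ((hval g f hf).2 h.le)
  have hone : weightedOrder w ((1 : S.R) : MvPowerSeries (Fin 2) k) = 0 := by
    rw [show ((1 : S.R) : MvPowerSeries (Fin 2) k) = 1 from rfl]
    exact weightedOrder_one w
  have hle1 : ∀ r : S.R, V.valuation (φ r) ≤ 1 := by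
    intro r
    have := (hval r 1 one_ne_zero).2 (by rw [hone]; exact zero_le)
    rwa [map_one, map_one] at this
  have hlt1 : ∀ r : S.R, 0 < weightedOrder w (r : MvPowerSeries (Fin 2) k) →
      V.valuation (φ r) < 1 := by
    intro r hr
    rw [lt_iff_not_ge]
    intro h
    by_cases hr0 : r = 0
    · rw [hr0, map_zero, map_zero] at h
      exact absurd h (by simp)
    · have h2 : V.valuation (φ 1) ≤ V.valuation (φ r) := by rwa [map_one, map_one]
      have := (hval 1 r hr0).1 h2
      rw [hone] at this
      exact absurd hr (not_lt.2 this)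
  -- powers of y
  have hy0 : S.yR ≠ 0 := by
    intro h
    have h2 : S.y = 0 := congrArg Subtype.val h
    rw [h2, weightedOrder_zero] at hwy
    exact absurd hwy (by simp)
  have hx0 : S.xR ≠ 0 := by
    intro h
    have h2 : S.x = 0 := congrArg Subtype.val h
    rw [h2, weightedOrder_zero] at hwx
    exact absurd hwx (by simp)
  have hwy' : ∀ n : ℕ, weightedOrder w ((S.yR ^ n : S.R) : MvPowerSeries (Fin 2) k) =
      2 * (n : ℕ∞) := by
    intro n
    induction n with
    | zero => simpa using hone
    | succ n ih =>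
      rw [pow_succ, show ((S.yR ^ n * S.yR : S.R) : MvPowerSeries (Fin 2) k) =
        ((S.yR ^ n : S.R) : MvPowerSeries (Fin 2) k) * S.y from rfl, weightedOrder_mul, ih, hwy]
      push_cast
      ring
  have hyval : V.valuation (φ S.yR) < 1 := hlt1 _ (by
    show 0 < weightedOrder w S.y
    rw [hwy]; norm_num)
  have hypos : 0 < V.valuation (φ S.yR) := by
    rw [zero_lt_iff]
    exact (V.valuation.ne_zero_iff).2 (hφ0 _ hy0)
  -- every nonzero element of V has the valuation of a power of y
  have hpow : ∀ t : S.K, t ≠ 0 → t ∈ V → ∃ n : ℕ, V.valuation t = V.valuation (φ S.yR) ^ n := by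
    intro t ht htV
    obtain ⟨f, g, hg, rfl⟩ := IsFractionRing.div_surjective (A := S.R) t
    have hg0 : g ≠ 0 := nonZeroDivisors.ne_zero hg
    have hf0 : f ≠ 0 := by
      rintro rfl
      exact ht (by simp)
    obtain ⟨a, ha⟩ := heven f hf0
    obtain ⟨b, hb⟩ := heven g hg0
    have hle := (hV f g hg0).1 htV
    rw [ha, hb] at hle
    have hba : b ≤ a := by
      have h3 : (2 * b : ℕ) ≤ (2 * a : ℕ) := by exact_mod_cast hle
      omega
    refine ⟨a - b, ?_⟩
    have hgy : g * S.yR ^ (a - b) ≠ 0 := mul_ne_zero hg0 (pow_ne_zero _ hy0)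
    have h4 := hval_eq f (g * S.yR ^ (a - b)) hf0 hgy (by
      rw [show ((g * S.yR ^ (a - b) : S.R) : MvPowerSeries (Fin 2) k) =
        (g : MvPowerSeries (Fin 2) k) * ((S.yR ^ (a - b) : S.R) : MvPowerSeries (Fin 2) k) from rfl,
        weightedOrder_mul, hwy', ha, hb]
      have h5 : (2 * a : ℕ) = 2 * b + 2 * (a - b) := by omega
      exact_mod_cast h5)
    have hgv : V.valuation (φ g) ≠ 0 := (V.valuation.ne_zero_iff).2 (hφ0 g hg0)
    rw [map_div₀, div_eq_iff hgv]
    show V.valuation (φ f) = _
    rw [h4, map_mul, map_mul, map_pow, map_pow, mul_comm]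
  have hpowinj : ∀ a b : ℕ, V.valuation (φ S.yR) ^ a = V.valuation (φ S.yR) ^ b → a = b := by
    intro a b hab
    exact (pow_right_injective₀ hypos hyval.ne) hab
  have hyV : φ S.yR ∈ V := (V.valuation_le_one_iff _).1 (hle1 _)
  have hassoc : ∀ x : V, x ≠ 0 → ∃ n : ℕ, Associated ((⟨φ S.yR, hyV⟩ : V) ^ n) x := by
    intro x hx
    have hx' : (x : S.K) ≠ 0 := fun h => hx (Subtype.ext h)
    obtain ⟨n, hn⟩ := hpow x hx' x.2
    refine ⟨n, ?_⟩
    have hyn : (φ S.yR) ^ n ≠ 0 := pow_ne_zero _ (hφ0 _ hy0)
    have hv1 : V.valuation ((x : S.K) / φ S.yR ^ n) = 1 := by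
      rw [map_div₀, map_pow, hn, div_self]
      exact pow_ne_zero _ hypos.ne'
    have hmem : (x : S.K) / φ S.yR ^ n ∈ V := (V.valuation_le_one_iff _).1 hv1.le
    have hunit : IsUnit (⟨(x : S.K) / φ S.yR ^ n, hmem⟩ : V) := (V.valuation_eq_one_iff _).2 hv1
    obtain ⟨u, hu⟩ := hunit
    refine ⟨u, ?_⟩
    apply Subtype.ext
    rw [hu]
    show φ S.yR ^ n * ((x : S.K) / φ S.yR ^ n) = x
    field_simp
  have hirr : Irreducible (⟨φ S.yR, hyV⟩ : V) := by
    constructor
    · intro hu
      exact absurd ((V.valuation_eq_one_iff _).1 hu) hyval.ne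
    · intro a b hab
      have hab' : φ S.yR = (a : S.K) * b := congrArg Subtype.val hab
      have ha0 : (a : S.K) ≠ 0 := by
        intro h; rw [h, zero_mul] at hab'; exact hφ0 _ hy0 hab'
      have hb0 : (b : S.K) ≠ 0 := by
        intro h; rw [h, mul_zero] at hab'; exact hφ0 _ hy0 hab'
      obtain ⟨i, hi⟩ := hpow a ha0 a.2
      obtain ⟨j, hj⟩ := hpow b hb0 b.2
      have h1 : V.valuation (φ S.yR) ^ 1 = V.valuation (φ S.yR) ^ (i + j) := by
        rw [pow_add, ← hi, ← hj, ← map_mul, ← hab', pow_one]
      have h2 := hpowinj _ _ h1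
      rcases Nat.eq_zero_or_pos i with h | h
      · left
        rw [V.valuation_eq_one_iff, hi, h, pow_zero]
      · right
        have : j = 0 := by omega
        rw [V.valuation_eq_one_iff, hj, this, pow_zero]
  -- constants
  have hconst : ∀ c : k, c ≠ 0 → V.valuation (algebraMap k S.K c) = 1 := by
    intro c hc
    have h1 : algebraMap k S.K c = φ (algebraMap k S.R c) := IsScalarTower.algebraMap_apply k S.R S.K c
    rw [h1]
    have hCc : ((algebraMap k S.R c : S.R) : MvPowerSeries (Fin 2) k) = C c :=
      coe_algebraMap_R S c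
    have h2 : algebraMap k S.R c ≠ 0 := by
      intro h
      have h5 : ((algebraMap k S.R c : S.R) : MvPowerSeries (Fin 2) k) = 0 := by rw [h]; rfl
      rw [hCc] at h5
      apply hc
      have h6 := congrArg constantCoeff h5
      rwa [constantCoeff_C, map_zero] at h6
    have h3 := hval_eq (algebraMap k S.R c) 1 h2 one_ne_zero (by
      rw [hone, hCc, ← monomial_zero_eq_C_apply, weightedOrder_monomial_of_ne_zero w hc]
      simp)
    rw [h3, map_one, map_one]
  refine ⟨fun r => (V.valuation_le_one_iff _).1 (hle1 r), ?_, ?_, ⟨hyV, hirr⟩, ?_⟩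
  · -- center
    intro r hr
    rw [ValuationSubring.mem_nonunits_iff]
    apply hlt1
    have hc0 : constantCoeff (r : MvPowerSeries (Fin 2) k) = 0 := by
      by_contra hne
      apply hr
      have hu : IsUnit (r : MvPowerSeries (Fin 2) k) := by
        rw [MvPowerSeries.isUnit_iff_constantCoeff]
        exact isUnit_iff_ne_zero.2 hne
      obtain ⟨s, hs⟩ := hu.exists_right_inv
      have hσs : S.σ s = s := by
        have h1 : (r : MvPowerSeries (Fin 2) k) * S.σ s = 1 := by
          have := congrArg S.σ hs
          rw [map_mul, map_one, S.mem_R.1 r.2] at this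
          exact this
        exact hu.mul_left_cancel (by rw [h1, hs])
      exact IsUnit.of_mul_eq_one ⟨s, hσs⟩ (Subtype.ext hs)
    have h1 : ((1 : ℕ) : ℕ∞) ≤ weightedOrder w (r : MvPowerSeries (Fin 2) k) := by
      apply nat_le_weightedOrder
      intro d hd
      have hd0 : d = 0 := by
        have h2 : Finsupp.weight w d = 0 := by omega
        rw [Finsupp.weight_eq_sum, Fin.sum_univ_two] at h2
        simp only [w, smul_eq_mul] at h2
        have h3 : d 0 = 0 ∧ d 1 = 0 := by
          simp at h2
          exact h2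
        ext i
        fin_cases i
        · exact h3.1
        · exact h3.2
      rw [hd0]
      exact hc0
    exact lt_of_lt_of_le (by norm_num) h1
  · exact IsDiscreteValuationRing.ofHasUnitMulPowIrreducibleFactorization
      ⟨⟨φ S.yR, hyV⟩, hirr, fun {x} hx => hassoc x hx⟩
  · -- residue field
    have hbz : S.b = S.x := hbx
    set D : S.R := S.xR * S.yR with hD
    have hD0 : D ≠ 0 := mul_ne_zero hx0 hy0
    have hDw : weightedOrder w (D : MvPowerSeries (Fin 2) k) = 6 := by
      rw [show (D : MvPowerSeries (Fin 2) k) = S.x * S.y from rfl, weightedOrder_mul, hwx, hwy]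
      norm_num
    have hX1w : weightedOrder w (X 1 : MvPowerSeries (Fin 2) k) = 1 := by
      rw [show (X 1 : MvPowerSeries (Fin 2) k) = monomial (Finsupp.single 1 1) 1 from rfl,
        weightedOrder_monomial_of_ne_zero w one_ne_zero, Finsupp.weight_single]
      simp [w]
    have hycoef : coeff (Finsupp.single (0 : Fin 2) 1) S.y = 0 := by
      have h1 : S.y = (X 1 + S.b) * X 1 := by rw [S.hy]; ring
      exact (X_dvd_iff.1 (Dvd.intro_left _ h1.symm)) (Finsupp.single (0 : Fin 2) 1) (by simp)
    have huw : ∀ c : k, weightedOrder w (X 0 - C c * S.y : MvPowerSeries (Fin 2) k) = 2 := by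
      intro c
      apply le_antisymm
      · have h1 : coeff (Finsupp.single (0 : Fin 2) 1) (X 0 - C c * S.y) ≠ 0 := by
          rw [map_sub, MvPowerSeries.coeff_C_mul, hycoef, mul_zero, sub_zero,
            MvPowerSeries.coeff_X, if_pos rfl]
          exact one_ne_zero
        have h2 := weightedOrder_le w h1
        rw [Finsupp.weight_single] at h2
        simpa [w] using h2
      · have h1 : weightedOrder w (X 0 : MvPowerSeries (Fin 2) k) = 2 := by
          rw [show (X 0 : MvPowerSeries (Fin 2) k) = monomial (Finsupp.single 0 1) 1 from rfl,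
            weightedOrder_monomial_of_ne_zero w one_ne_zero, Finsupp.weight_single]
          simp [w]
        have h2 : (2 : ℕ∞) ≤ weightedOrder w (-(C c * S.y) : MvPowerSeries (Fin 2) k) := by
          have h3 : -(C c * S.y) = C (-c) * S.y := by rw [map_neg, neg_mul]
          rw [h3, weightedOrder_mul, hwy]
          exact le_add_self
        have h3 := min_weightedOrder_le_add w (f := (X 0 : MvPowerSeries (Fin 2) k))
          (g := -(C c * S.y))
        rw [← sub_eq_add_neg] at h3
        exact le_trans (le_min h1.ge h2) h3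
    have hzw : ∀ c : k, weightedOrder w
        ((S.zR - algebraMap k S.R c * D : S.R) : MvPowerSeries (Fin 2) k) = 6 := by
      intro c
      have h1 : ((S.zR - algebraMap k S.R c * D : S.R) : MvPowerSeries (Fin 2) k) =
          S.x * (X 0 - C c * S.y) + S.y ^ 3 * X 1 := by
        have : ((S.zR - algebraMap k S.R c * D : S.R) : MvPowerSeries (Fin 2) k) =
          (S.b * X 0 + S.a * X 1) - C c * (S.x * S.y) := rfl
        rw [this, hax, hbx]
        ring
      have h2 : weightedOrder w (S.x * (X 0 - C c * S.y)) = 6 := by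
        rw [weightedOrder_mul, huw, hwx]; norm_num
      have h3 : weightedOrder w (S.y ^ 3 * X 1) = 7 := by
        rw [weightedOrder_mul, hX1w, show S.y ^ 3 = S.y * S.y * S.y by ring, weightedOrder_mul,
          weightedOrder_mul, hwy]
        norm_num
      rw [h1, weightedOrder_add_of_weightedOrder_ne w (by rw [h2, h3]; norm_num), h2, h3]
      rfl
    set t : S.K := φ S.zR / φ D with ht
    have hDφ : φ D ≠ 0 := hφ0 D hD0
    have htc : ∀ c : k, V.valuation (t - algebraMap k S.K c) = 1 := by
      intro c
      have h1 : t - algebraMap k S.K c = φ (S.zR - algebraMap k S.R c * D) / φ D := by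
        rw [map_sub, map_mul, ← IsScalarTower.algebraMap_apply k S.R S.K c, ht]
        field_simp
      have hne : S.zR - algebraMap k S.R c * D ≠ 0 := by
        intro h
        have := hzw c
        rw [h] at this
        rw [show ((0 : S.R) : MvPowerSeries (Fin 2) k) = 0 from rfl, weightedOrder_zero] at this
        exact absurd this (by simp)
      rw [h1, map_div₀, hval_eq _ D hne hD0 (by rw [hzw, hDw]), div_self]
      exact (V.valuation.ne_zero_iff).2 hDφ
    refine ⟨t, ?_, ?_⟩
    · have := htc 0
      rw [map_zero, sub_zero] at this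
      exact (V.valuation_le_one_iff _).1 this.le
    · intro q hq hmem
      rw [ValuationSubring.mem_nonunits_iff] at hmem
      have hsplit := IsAlgClosed.splits q
      rw [hsplit.eq_prod_roots] at hmem
      rw [map_mul, map_mul, Polynomial.aeval_C, hconst _ (Polynomial.leadingCoeff_ne_zero.2 hq),
        one_mul, map_multiset_prod, map_multiset_prod, Multiset.map_map, Multiset.map_map] at hmem
      have : (Multiset.map ((⇑V.valuation ∘ ⇑(Polynomial.aeval t)) ∘ fun a => Polynomial.X - Polynomial.C a)
          q.roots).prod = 1 := by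
        apply Multiset.prod_eq_one
        intro x hx
        rw [Multiset.mem_map] at hx
        obtain ⟨c, _, rfl⟩ := hx
        show V.valuation (Polynomial.aeval t (Polynomial.X - Polynomial.C c)) = 1
        rw [map_sub, Polynomial.aeval_X, Polynomial.aeval_C]
        exact htc c
      rw [this] at hmem
      exact lt_irrefl _ hmem



end Pool.Agent.Helper165.LT
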