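import Pool.Agent.Helper165.LT.Om

set_option autoImplicit false

open KaehlerDifferential MvPowerSeries

namespace Pool.Agent.Helper165.LT

lemma enat_aux1 (a b : ℕ∞) : 4 + min (2 * (a + 1)) (2 * b + 2) = min (2 * a) (2 * b) + 6 := by
  have h2 : (2 : ℕ∞) * ⊤ = ⊤ := by simp
  induction a using ENat.recTopCoe with
  | top =>
    induction b using ENat.recTopCoe with
    | top => simp
    | coe b => 
      rw [top_add, h2, min_eq_right le_top, min_eq_right le_top]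
      norm_cast
      omega
  | coe a =>
    induction b using ENat.recTopCoe with
    | top => 
      rw [h2, top_add, min_eq_left le_top, min_eq_left le_top]
      norm_cast
      omega
    | coe b =>
      simp only [min_def]
      split_ifs with h1 h2 <;> norm_cast at * <;> omega

lemma enat_aux2 (a b : ℕ∞) : min (2 * a) (2 * b) + 6 < 2 * a + 9 ∨ (2 * a + 9 = ⊤) := by
  have h2 : (2 : ℕ∞) * ⊤ = ⊤ := by simp
  induction a using ENat.recTopCoe with
  | top => right; simp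
  | coe a =>
    left
    refine lt_of_le_of_lt (add_le_add_left (min_le_left _ _) _) ?_
    norm_cast
    omega

lemma enat_aux3 (a b : ℕ∞) : min (2 * a) (2 * b) + 6 < 2 * b + 7 ∨ (2 * b + 7 = ⊤) := by
  have h2 : (2 : ℕ∞) * ⊤ = ⊤ := by simp
  induction b using ENat.recTopCoe with
  | top => right; simp
  | coe b =>
    left
    refine lt_of_le_of_lt (add_le_add_left (min_le_right _ _) _) ?_
    norm_cast
    omega

lemma enat_aux5 (a b : ℕ∞) (ha : (∃ n : ℕ, a = 2 * (n : ℕ∞)) ∨ a = ⊤)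
    (hb : (∃ n : ℕ, b = 2 * (n : ℕ∞)) ∨ b = ⊤) : (∃ n : ℕ, min (2 * a) (2 * b) = ((4 * n : ℕ) : ℕ∞)) ∨ min (2 * a) (2 * b) = ⊤ := by
  have h2 : (2 : ℕ∞) * ⊤ = ⊤ := by simp
  rcases min_choice (2 * a) (2 * b) with h | h <;> rw [h]
  · rcases ha with ⟨n, rfl⟩ | rfl
    · left; refine ⟨n, ?_⟩; push_cast; ring
    · right; exact h2
  · rcases hb with ⟨n, rfl⟩ | rfl
    · left; refine ⟨n, ?_⟩; push_cast; ring
    · right; exact h2

lemma enat_aux6 (a b : ℕ∞) (ha : (∃ n : ℕ, a = ((4 * n : ℕ) : ℕ∞)) ∨ a = ⊤)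
    (hb : (∃ n : ℕ, b = ((4 * n : ℕ) : ℕ∞)) ∨ b = ⊤) : (a + 6 ≠ b + 6 + 2) ∨ (b + 6 + 2 = ⊤ ∧ a + 6 = ⊤) := by
  rcases ha with ⟨n, rfl⟩ | rfl <;> rcases hb with ⟨m, rfl⟩ | rfl
  · left
    intro h
    norm_cast at h
    omega
  · left; simp; norm_cast; exact ENat.natCast_ne_top _
  · left; simp; norm_cast; exact (ENat.natCast_ne_top _).symm
  · right; simp

lemma enat_aux7 (s a : ℕ∞) (h : 2 * s + 6 ≤ 2 * a + 6) : s ≤ a := by
  induction a using ENat.recTopCoe with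
  | top => exact le_top
  | coe a =>
    induction s using ENat.recTopCoe with
    | top => 
      exfalso
      have h2 : (2 : ℕ∞) * ⊤ = ⊤ := by simp
      rw [h2, top_add, top_le_iff] at h
      revert h
      norm_cast
      exact ENat.natCast_ne_top _
    | coe s => 
      norm_cast at *
      omega

lemma enat_aux8 (s a : ℕ∞) (hs : ∃ n : ℕ, s = 2 * (n : ℕ∞)) (ha : (∃ n : ℕ, a = 2 * (n : ℕ∞)) ∨ a = ⊤)
   (h : 2 * s + 6 ≤ 2 * a + 6 + 2) : s ≤ a := by
  rcases ha with ⟨n, rfl⟩ | rfl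
  · obtain ⟨m, rfl⟩ := hs
    norm_cast at *
    omega
  · exact le_top

section wt

variable {k : Type*} [Field k]

lemma wo_X0 : weightedOrder w (X 0 : MvPowerSeries (Fin 2) k) = 2 := by
  classical
  rw [X_def, weightedOrder_monomial_of_ne_zero w one_ne_zero]
  simp [Finsupp.weight_single, w]

lemma wo_X1 : weightedOrder w (X 1 : MvPowerSeries (Fin 2) k) = 1 := by
  classical
  rw [X_def, weightedOrder_monomial_of_ne_zero w one_ne_zero]
  simp [Finsupp.weight_single, w]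

lemma wo_add {f g : MvPowerSeries (Fin 2) k}
    (h : weightedOrder w f < weightedOrder w g ∨ weightedOrder w g = ⊤) :
    weightedOrder w (f + g) = weightedOrder w f := by
  rcases h with h | h
  · rw [weightedOrder_add_of_weightedOrder_ne w h.ne, inf_eq_left.2 h.le]
  · rw [weightedOrder_eq_top_iff] at h
    rw [h, add_zero]

lemma wo_sq (f : MvPowerSeries (Fin 2) k) :
    weightedOrder w (f ^ 2) = 2 * weightedOrder w f := by
  rw [pow_two, weightedOrder_mul, two_mul]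

lemma wcomb (S : Setup k)
    (weight_sq_add : ∀ D E : MvPowerSeries (Fin 2) k, weightedOrder w (D ^ 2 + E ^ 2 * X 0) =
      min (2 * weightedOrder w D) (2 * weightedOrder w E + 2))
    (hax : S.a = S.y ^ 3) (hbx : S.b = S.x)
    (hwx : weightedOrder w S.x = 4) (hwy : weightedOrder w S.y = 2)
    (p q : MvPowerSeries (Fin 2) k) :
    weightedOrder w (p ^ 2 * (S.x * S.y) + q ^ 2 * (S.b * X 0 + S.a * X 1)) =
      min (2 * weightedOrder w p) (2 * weightedOrder w q) + 6 := by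
  have e0 : p ^ 2 * (S.x * S.y) + q ^ 2 * (S.b * X 0 + S.a * X 1) =
      S.x * ((p * X 1) ^ 2 + q ^ 2 * X 0) + S.x * (p ^ 2 * S.x * X 1) +
        q ^ 2 * S.y ^ 3 * X 1 := by
    have hy := S.hy
    rw [hax, hbx]
    rw [hbx] at hy
    linear_combination p ^ 2 * S.x * hy
  have e1 : weightedOrder w (S.x * ((p * X 1) ^ 2 + q ^ 2 * X 0)) =
      min (2 * weightedOrder w p) (2 * weightedOrder w q) + 6 := by
    rw [weightedOrder_mul, weight_sq_add, weightedOrder_mul, wo_X1, hwx, enat_aux1]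
  have e2 : weightedOrder w (S.x * (p ^ 2 * S.x * X 1)) = 2 * weightedOrder w p + 9 := by
    rw [weightedOrder_mul, weightedOrder_mul, weightedOrder_mul, wo_sq, hwx, wo_X1]
    ring
  have e3 : weightedOrder w (q ^ 2 * S.y ^ 3 * X 1) = 2 * weightedOrder w q + 7 := by
    rw [weightedOrder_mul, weightedOrder_mul, wo_sq, wo_X1, pow_succ, weightedOrder_mul, wo_sq,
      hwy]
    ring
  have e4 : weightedOrder w (S.x * ((p * X 1) ^ 2 + q ^ 2 * X 0) + S.x * (p ^ 2 * S.x * X 1)) =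
      min (2 * weightedOrder w p) (2 * weightedOrder w q) + 6 := by
    rw [wo_add, e1]
    rw [e1, e2]
    exact enat_aux2 _ _
  rw [e0, wo_add, e4]
  rw [e4, e3]
  exact enat_aux3 _ _

end wt


section main

variable {k : Type*} [Field k] [CharP k 2]

lemma forms_key (S : Setup k)
    (pbasis : ∀ t : S.K, ∃ c₀ c₁ c₂ c₃ : S.K,
      t = c₀ ^ 2 + c₁ ^ 2 * algebraMap S.R S.K S.xR + c₂ ^ 2 * algebraMap S.R S.K S.yR +
        c₃ ^ 2 * (algebraMap S.R S.K S.xR * algebraMap S.R S.K S.yR))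
    (weight_sq_add : ∀ D E : MvPowerSeries (Fin 2) k, weightedOrder w (D ^ 2 + E ^ 2 * X 0) =
      min (2 * weightedOrder w D) (2 * weightedOrder w E + 2))
    (V : ValuationSubring S.K) (hV : ∀ f g : S.R, g ≠ 0 →
      (algebraMap S.R S.K f / algebraMap S.R S.K g ∈ V ↔
        weightedOrder w (g : MvPowerSeries (Fin 2) k) ≤
          weightedOrder w (f : MvPowerSeries (Fin 2) k)))
    (heven : ∀ r : S.R, r ≠ 0 →
      ∃ n : ℕ, weightedOrder w (r : MvPowerSeries (Fin 2) k) = 2 * (n : ℕ∞))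
    (hax : S.a = S.y ^ 3) (hbx : S.b = S.x)
    (hwx : weightedOrder w S.x = 4) (hwy : weightedOrder w S.y = 2) 
    (th x' : S.K) (hth : th = algebraMap S.R S.K S.zR / 
      (algebraMap S.R S.K S.xR * algebraMap S.R S.K S.yR)) 
    (hx' : x' = algebraMap S.R S.K S.xR / (algebraMap S.R S.K S.yR) ^ 2)
    (hrel : x' = th ^ 2 + (algebraMap S.R S.K S.yR) ^ 2 * th + algebraMap S.R S.K S.yR / x' ^ 2)
    (hx0 : algebraMap S.R S.K S.xR ≠ 0) (hy0 : algebraMap S.R S.K S.yR ≠ 0)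
    (t : S.K) (ht : t ∈ V) :
    ∃ c₀ c₁ c₂ c₃ : S.K, c₀ ∈ V ∧ c₁ ∈ V ∧ c₂ ∈ V ∧ c₃ ∈ V ∧ 
      t = (c₀ ^ 2 + c₁ ^ 2 * th) + (c₂ ^ 2 + c₃ ^ 2 * th) * algebraMap S.R S.K S.yR := by
  classical
  have : CharP S.K 2 := charP_of_injective_algebraMap (algebraMap k S.K).injective 2
  have h2 : (2 : S.K) = 0 := CharTwo.two_eq_zero
  obtain ⟨c₀, c₁, c₂, c₃, hc⟩ := pbasis t
  set X' := algebraMap S.R S.K S.xR with hX
  set Y := algebraMap S.R S.K S.yR with hY
  have hx'0 : x' ≠ 0 := by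
    rw [hx']
    exact div_ne_zero hx0 (pow_ne_zero 2 hy0)
  have hX' : X' = (Y * th) ^ 2 + (Y ^ 2) ^ 2 * th + (Y / x') ^ 2 * Y := by
    have : X' = Y ^ 2 * x' := by
      rw [hx']
      field_simp
    rw [this]
    conv_lhs => rw [hrel]
    field_simp
  obtain ⟨d₀, hd₀⟩ : ∃ d : S.K, d = c₀ + c₁ * (Y * th) + c₃ * (Y / x') * Y := ⟨_, rfl⟩
  obtain ⟨d₁, hd₁⟩ : ∃ d : S.K, d = c₁ * Y ^ 2 := ⟨_, rfl⟩
  obtain ⟨d₂, hd₂⟩ : ∃ d : S.K, d = c₁ * (Y / x') + c₂ + c₃ * (Y * th) := ⟨_, rfl⟩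
  obtain ⟨d₃, hd₃⟩ : ∃ d : S.K, d = c₃ * Y ^ 2 := ⟨_, rfl⟩
  have hd : t = (d₀ ^ 2 + d₁ ^ 2 * th) + (d₂ ^ 2 + d₃ ^ 2 * th) * Y := by
    rw [hc, hd₀, hd₁, hd₂, hd₃]
    rw [hX']
    generalize Y / x' = C
    linear_combination (- c₀ * c₁ * (Y * th) - c₀ * c₃ * C * Y - c₁ * (Y * th) * c₃ * C * Y
      - c₁ * C * c₂ * Y - c₁ * C * c₃ * (Y * th) * Y - c₂ * c₃ * (Y * th) * Y) * h2
  obtain ⟨s, hs⟩ := IsLocalization.exist_integer_multiples_of_finset (nonZeroDivisors S.R)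
    ({d₀, d₁, d₂, d₃} : Finset S.K)
  have hs0 : (s : S.R) ≠ 0 := nonZeroDivisors.ne_zero s.2
  have hs0' : algebraMap S.R S.K (s : S.R) ≠ 0 := by
    intro h
    exact hs0 ((IsFractionRing.injective S.R S.K) (by rw [h, map_zero]))
  have key : ∀ d ∈ ({d₀, d₁, d₂, d₃} : Finset S.K), ∃ p : S.R, 
      d = algebraMap S.R S.K p / algebraMap S.R S.K (s : S.R) := by
    intro d hd
    obtain ⟨p, hp⟩ := hs d hd
    refine ⟨p, ?_⟩
    rw [eq_div_iff hs0', hp, Algebra.smul_def, mul_comm]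
  obtain ⟨p₀, hp₀⟩ := key d₀ (by simp)
  obtain ⟨p₁, hp₁⟩ := key d₁ (by simp)
  obtain ⟨p₂, hp₂⟩ := key d₂ (by simp)
  obtain ⟨p₃, hp₃⟩ := key d₃ (by simp)
  have hF : t = algebraMap S.R S.K ((p₀ ^ 2 * (S.xR * S.yR) + p₁ ^ 2 * S.zR) + 
      (p₂ ^ 2 * (S.xR * S.yR) + p₃ ^ 2 * S.zR) * S.yR) / 
      algebraMap S.R S.K ((s : S.R) ^ 2 * (S.xR * S.yR)) := by
    rw [hd, hp₀, hp₁, hp₂, hp₃, hth]
    simp only [map_add, map_mul, map_pow]
    rw [← hX, ← hY]
    field_simp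
  have hne : (s : S.R) ^ 2 * (S.xR * S.yR) ≠ 0 := by
    refine mul_ne_zero (pow_ne_zero 2 hs0) (mul_ne_zero ?_ ?_)
    · intro h
      exact hx0 (by rw [hX, h, map_zero])
    · intro h
      exact hy0 (by rw [hY, h, map_zero])
  rw [hF, hV _ _ hne] at ht
  have ev : ∀ r : S.R, (∃ n : ℕ, weightedOrder w (r : MvPowerSeries (Fin 2) k) = 2 * (n : ℕ∞)) ∨ 
      weightedOrder w (r : MvPowerSeries (Fin 2) k) = ⊤ := by
    intro r
    by_cases h : r = 0
    · right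
      rw [h]
      simp
    · exact Or.inl (heven r h)
  have w0 : weightedOrder w (((s : S.R) ^ 2 * (S.xR * S.yR) : S.R) : MvPowerSeries (Fin 2) k) = 
      2 * weightedOrder w ((s : S.R) : MvPowerSeries (Fin 2) k) + 6 := by
    change weightedOrder w (((s : S.R) : MvPowerSeries (Fin 2) k) ^ 2 * (S.x * S.y)) = _
    rw [weightedOrder_mul, weightedOrder_mul, wo_sq, hwx, hwy]
    ring
  have w1 := wcomb S weight_sq_add hax hbx hwx hwy (p₀ : MvPowerSeries (Fin 2) k) p₁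
  have w2 := wcomb S weight_sq_add hax hbx hwx hwy (p₂ : MvPowerSeries (Fin 2) k) p₃
  have w3 : weightedOrder w ((((p₂ : MvPowerSeries (Fin 2) k)) ^ 2 * (S.x * S.y) + 
      (p₃ : MvPowerSeries (Fin 2) k) ^ 2 * (S.b * X 0 + S.a * X 1)) * S.y) = 
      min (2 * weightedOrder w (p₂ : MvPowerSeries (Fin 2) k)) 
        (2 * weightedOrder w (p₃ : MvPowerSeries (Fin 2) k)) + 6 + 2 := by
    rw [weightedOrder_mul, w2, hwy]
  have w4 : weightedOrder w (((p₀ ^ 2 * (S.xR * S.yR) + p₁ ^ 2 * S.zR) + 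
      (p₂ ^ 2 * (S.xR * S.yR) + p₃ ^ 2 * S.zR) * S.yR : S.R) : MvPowerSeries (Fin 2) k) = 
      min (min (2 * weightedOrder w (p₀ : MvPowerSeries (Fin 2) k)) 
        (2 * weightedOrder w (p₁ : MvPowerSeries (Fin 2) k)) + 6) 
      (min (2 * weightedOrder w (p₂ : MvPowerSeries (Fin 2) k)) 
        (2 * weightedOrder w (p₃ : MvPowerSeries (Fin 2) k)) + 6 + 2) := by
    change weightedOrder w (((p₀ : MvPowerSeries (Fin 2) k) ^ 2 * (S.x * S.y) + 
      (p₁ : MvPowerSeries (Fin 2) k) ^ 2 * (S.b * X 0 + S.a * X 1)) + 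
      ((((p₂ : MvPowerSeries (Fin 2) k)) ^ 2 * (S.x * S.y) + 
      (p₃ : MvPowerSeries (Fin 2) k) ^ 2 * (S.b * X 0 + S.a * X 1)) * S.y)) = _
    rcases enat_aux6 _ _ (enat_aux5 _ _ (ev p₀) (ev p₁)) (enat_aux5 _ _ (ev p₂) (ev p₃)) with h | h
    · rw [weightedOrder_add_of_weightedOrder_ne, w1, w3]
      rw [w1, w3]
      exact h
    · rw [wo_add (Or.inr (by rw [w3]; exact h.1)), w1, h.1, min_eq_left le_top]
  rw [w0, w4, le_min_iff] at ht
  obtain ⟨ht1, ht2⟩ := ht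
  have i0 : 2 * weightedOrder w ((s : S.R) : MvPowerSeries (Fin 2) k) + 6 ≤ 
      2 * weightedOrder w (p₀ : MvPowerSeries (Fin 2) k) + 6 := 
    ht1.trans (add_le_add_left (min_le_left _ _) _)
  have i1 : 2 * weightedOrder w ((s : S.R) : MvPowerSeries (Fin 2) k) + 6 ≤ 
      2 * weightedOrder w (p₁ : MvPowerSeries (Fin 2) k) + 6 := 
    ht1.trans (add_le_add_left (min_le_right _ _) _)
  have i2 : 2 * weightedOrder w ((s : S.R) : MvPowerSeries (Fin 2) k) + 6 ≤ 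
      2 * weightedOrder w (p₂ : MvPowerSeries (Fin 2) k) + 6 + 2 := 
    ht2.trans (add_le_add_left (add_le_add_left (min_le_left _ _) _) _)
  have i3 : 2 * weightedOrder w ((s : S.R) : MvPowerSeries (Fin 2) k) + 6 ≤ 
      2 * weightedOrder w (p₃ : MvPowerSeries (Fin 2) k) + 6 + 2 := 
    ht2.trans (add_le_add_left (add_le_add_left (min_le_right _ _) _) _)
  refine ⟨d₀, d₁, d₂, d₃, ?_, ?_, ?_, ?_, hd⟩
  · rw [hp₀, hV _ _ hs0]
    exact enat_aux7 _ _ i0
  · rw [hp₁, hV _ _ hs0]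
    exact enat_aux7 _ _ i1
  · rw [hp₂, hV _ _ hs0]
    exact enat_aux8 _ _ (heven _ hs0) (ev _) i2
  · rw [hp₃, hV _ _ hs0]
    exact enat_aux8 _ _ (heven _ hs0) (ev _) i3

end main

theorem Setup.forms_bound {k : Type*} [Field k] [CharP k 2] (S : Setup k)
    (pbasis : ∀ t : S.K, ∃ c₀ c₁ c₂ c₃ : S.K,
      t = c₀ ^ 2 + c₁ ^ 2 * algebraMap S.R S.K S.xR + c₂ ^ 2 * algebraMap S.R S.K S.yR +
        c₃ ^ 2 * (algebraMap S.R S.K S.xR * algebraMap S.R S.K S.yR))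
    (weight_sq_add : ∀ D E : MvPowerSeries (Fin 2) k, weightedOrder w (D ^ 2 + E ^ 2 * X 0) =
      min (2 * weightedOrder w D) (2 * weightedOrder w E + 2))
    (V : ValuationSubring S.K) (hV : ∀ f g : S.R, g ≠ 0 →
      (algebraMap S.R S.K f / algebraMap S.R S.K g ∈ V ↔
        weightedOrder w (g : MvPowerSeries (Fin 2) k) ≤
          weightedOrder w (f : MvPowerSeries (Fin 2) k)))
    (heven : ∀ r : S.R, r ≠ 0 →
      ∃ n : ℕ, weightedOrder w (r : MvPowerSeries (Fin 2) k) = 2 * (n : ℕ∞))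
    (hax : S.a = S.y ^ 3) (hbx : S.b = S.x)
    (hwx : weightedOrder w S.x = 4) (hwy : weightedOrder w S.y = 2)
    (η : ⋀[S.K]^2 (Ω[S.K⁄k])) (hη : η ∈ regularForms (D k S.K) (V : Set S.K)) :
    ∃ g ∈ V, η = g • (algebraMap S.R S.K S.yR • S.om) := by
  classical
  have : CharP S.K 2 := charP_of_injective_algebraMap (algebraMap k S.K).injective 2
  have h2 : (2 : S.K) = 0 := CharTwo.two_eq_zero
  have hxR : S.xR ≠ 0 := by
    intro h
    have : S.x = 0 := congrArg Subtype.val h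
    rw [this] at hwx
    simp at hwx
  have hyR : S.yR ≠ 0 := by
    intro h
    have : S.y = 0 := congrArg Subtype.val h
    rw [this] at hwy
    simp at hwy
  have hx0 : algebraMap S.R S.K S.xR ≠ 0 := by
    intro h
    exact hxR ((IsFractionRing.injective S.R S.K) (by rw [h, map_zero]))
  have hy0 : algebraMap S.R S.K S.yR ≠ 0 := by
    intro h
    exact hyR ((IsFractionRing.injective S.R S.K) (by rw [h, map_zero]))
  have haR : S.aR = S.yR ^ 3 := Subtype.ext hax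
  have hbR : S.bR = S.xR := Subtype.ext hbx
  obtain ⟨th, hth⟩ : ∃ th : S.K, th = algebraMap S.R S.K S.zR / 
      (algebraMap S.R S.K S.xR * algebraMap S.R S.K S.yR) := ⟨_, rfl⟩
  obtain ⟨x', hx'⟩ : ∃ x' : S.K, x' = algebraMap S.R S.K S.xR / 
      (algebraMap S.R S.K S.yR) ^ 2 := ⟨_, rfl⟩
  have hx'0 : x' ≠ 0 := by
    rw [hx']
    exact div_ne_zero hx0 (pow_ne_zero 2 hy0)
  have hrel : x' = th ^ 2 + (algebraMap S.R S.K S.yR) ^ 2 * th + 
      algebraMap S.R S.K S.yR / x' ^ 2 := by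
    have h := congrArg (algebraMap S.R S.K) S.rel
    rw [haR, hbR] at h
    simp only [map_add, map_mul, map_pow, map_zero] at h
    rw [hth, hx']
    field_simp
    linear_combination -h + (algebraMap S.R S.K S.xR) ^ 3 * h2
  have key := forms_key S pbasis weight_sq_add V hV heven hax hbx hwx hwy th x' hth hx' hrel hx0 hy0
  have hthV : th ∈ V := by
    rw [hth, ← map_mul, hV _ _ (mul_ne_zero hxR hyR)]
    have h1 := wcomb S weight_sq_add hax hbx hwx hwy 0 1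
    have h3 : weightedOrder w ((S.xR * S.yR : S.R) : MvPowerSeries (Fin 2) k) = 6 := by
      change weightedOrder w (S.x * S.y) = 6
      rw [weightedOrder_mul, hwx, hwy]
      norm_num
    have h4 : weightedOrder w ((S.zR : S.R) : MvPowerSeries (Fin 2) k) = 6 := by
      change weightedOrder w (S.b * X 0 + S.a * X 1) = 6
      simpa using h1
    rw [h3, h4]
  have hYV : algebraMap S.R S.K S.yR ∈ V := by
    have := (hV S.yR 1 one_ne_zero).2 (by
      change weightedOrder w (1 : MvPowerSeries (Fin 2) k) ≤ _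
      simp)
    simpa using this
  have hx'V : x' ∈ V := by
    rw [hx', ← map_pow, hV _ _ (pow_ne_zero 2 hyR)]
    change weightedOrder w (S.y ^ 2) ≤ weightedOrder w S.x
    rw [wo_sq, hwx, hwy]
    norm_num
  set Y := algebraMap S.R S.K S.yR with hY
  set X' := algebraMap S.R S.K S.xR with hX
  have hom : br k th Y = x' • (Y • S.om) := by
    have r1 : x' ^ 2 * x' = (x' * th) ^ 2 + (x' * Y) ^ 2 * th + Y := by
      conv_lhs =>
        arg 2
        rw [hrel]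
      field_simp
    have r2 : x' ^ 2 • br k x' Y = (x' * Y) ^ 2 • br k th Y := by
      have h := congrArg (fun t => br k t Y) r1
      simp only [br_add_left, br_sq_mul_left, br_sq_left, br_self, zero_add, add_zero] at h
      exact h
    have r3 : br k x' Y = Y ^ 2 • br k th Y := by
      have h := congrArg (fun m => (x' ^ 2)⁻¹ • m) r2
      simp only [smul_smul] at h
      rw [inv_mul_cancel₀ (pow_ne_zero 2 hx'0), one_smul] at h
      rw [h]
      congr 1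
      field_simp
    have r4 : br k X' Y = Y ^ 4 • br k th Y := by
      have : X' = Y ^ 2 * x' := by
        rw [hx']
        field_simp
      rw [this, br_sq_mul_left, r3, smul_smul]
      congr 1
      ring
    have r5 : S.om = ((algebraMap S.R S.K S.aR) * (algebraMap S.R S.K S.bR))⁻¹ • br k X' Y := rfl
    rw [r5, haR, hbR, map_pow, ← hX, ← hY, r4, smul_smul, smul_smul, smul_smul]
    have : x' * Y * (Y ^ 3 * X')⁻¹ * Y ^ 4 = 1 := by
      rw [hx']
      field_simp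
    rw [this, one_smul]
  have hbr : ∀ a ∈ V.toSubring, ∀ b ∈ V.toSubring, ∃ g ∈ V.toSubring,
      br k a b = g • (Y • S.om) := by
    intro a ha b hb
    obtain ⟨c₀, c₁, c₂, c₃, m₀, m₁, m₂, m₃, hc⟩ := key a ha
    obtain ⟨d₀, d₁, d₂, d₃, n₀, n₁, n₂, n₃, hd⟩ := key b hb
    have hDa : ∀ (c₀ c₁ c₂ c₃ : S.K), D k S.K ((c₀ ^ 2 + c₁ ^ 2 * th) + (c₂ ^ 2 + c₃ ^ 2 * th) * Y)
        = (c₁ ^ 2 + c₃ ^ 2 * Y) • D k S.K th + (c₂ ^ 2 + c₃ ^ 2 * th) • D k S.K Y := by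
      intro c₀ c₁ c₂ c₃
      have e1 : ∀ c t : S.K, D k S.K (c ^ 2 * t) = c ^ 2 • D k S.K t := by
        intro c t
        rw [Derivation.leibniz, D_sq, smul_zero, add_zero]
      have e2 : (c₀ ^ 2 + c₁ ^ 2 * th) + (c₂ ^ 2 + c₃ ^ 2 * th) * Y =
          c₀ ^ 2 + c₁ ^ 2 * th + (c₂ ^ 2 * Y + c₃ ^ 2 * (th * Y)) := by ring
      rw [e2, map_add, map_add, map_add, D_sq, e1, e1, e1, Derivation.leibniz, zero_add,
        smul_add, smul_smul, smul_smul, add_smul, add_smul]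
      abel
    have h1 := hDa c₀ c₁ c₂ c₃
    rw [← hc] at h1
    have h3 := hDa d₀ d₁ d₂ d₃
    rw [← hd] at h3
    have h5 := iM_mem_span h1 h3
    rw [← br_eq, ← br_eq, hom, smul_smul] at h5
    refine ⟨_, ?_, h5⟩
    have t1 : c₁ ^ 2 + c₃ ^ 2 * Y ∈ V := V.add_mem _ _ (pow_mem m₁ 2) (V.mul_mem _ _ (pow_mem m₃ 2) hYV)
    have t2 : c₂ ^ 2 + c₃ ^ 2 * th ∈ V := V.add_mem _ _ (pow_mem m₂ 2) (V.mul_mem _ _ (pow_mem m₃ 2) hthV)
    have t3 : d₁ ^ 2 + d₃ ^ 2 * Y ∈ V := V.add_mem _ _ (pow_mem n₁ 2) (V.mul_mem _ _ (pow_mem n₃ 2) hYV)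
    have t4 : d₂ ^ 2 + d₃ ^ 2 * th ∈ V := V.add_mem _ _ (pow_mem n₂ 2) (V.mul_mem _ _ (pow_mem n₃ 2) hthV)
    exact V.mul_mem _ _ (V.toSubring.sub_mem (V.mul_mem _ _ t1 t4) (V.mul_mem _ _ t2 t3)) hx'V
  obtain ⟨g, hg, hg'⟩ := regularForms_sub V.toSubring (Y • S.om) hbr η hη
  exact ⟨g, hg, hg'⟩

end Pool.Agent.Helper165.LT
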