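import Pool.Agent.Helper165.LT.Om

set_option autoImplicit false

open KaehlerDifferential MvPowerSeries

namespace Pool.Agent.Helper165.LT


lemma smul_inj_aux {K M : Type*} [Field K] [AddCommGroup M] [Module K M] {x : M} (hx : x ≠ 0)
    {a b : K} (h : a • x = b • x) : a = b := by
  have h1 : (a - b) • x = 0 := by rw [sub_smul, h, sub_self]
  rcases smul_eq_zero.1 h1 with h2 | h2
  · exact sub_eq_zero.1 h2
  · exact absurd h2 hx

section locR

variable {R : Type*} {K : Type*} [CommRing R] [Field K] [Algebra R K] {P : Ideal R}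

lemma localRing_one (hP : P.IsPrime) : (1 : K) ∈ localRing K P :=
  ⟨1, 1, fun h => hP.ne_top ((Ideal.eq_top_iff_one _).2 h), by simp⟩

lemma localRing_mul (hP : P.IsPrime) {a b : K} (ha : a ∈ localRing K P) (hb : b ∈ localRing K P) :
    a * b ∈ localRing K P := by
  obtain ⟨a', t, ht, e⟩ := ha
  obtain ⟨b', s, hs, e'⟩ := hb
  refine ⟨a' * b', t * s, fun h => ?_, ?_⟩
  · rcases hP.mem_or_mem h with h | h
    · exact ht h
    · exact hs h
  · rw [map_mul, map_mul, ← e, ← e']
    ring

lemma localRing_pow (hP : P.IsPrime) {a : K} (ha : a ∈ localRing K P) (n : ℕ) :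
    a ^ n ∈ localRing K P := by
  induction n with
  | zero => rw [pow_zero]; exact localRing_one hP
  | succ n ih => rw [pow_succ]; exact localRing_mul hP ih ha

end locR

theorem not_isLogTerminal {k R : Type*} [Field k] [CommRing R] [IsDomain R] [Algebra k R]
    (om : ⋀[FractionRing R]^2 (Ω[(FractionRing R)⁄k]))
    (hspan : ∀ η, ∃ c : FractionRing R, η = c • om)
    (hgen : IsPluricanonicalGenerator (R := R) (D k (FractionRing R)) 1 om 1)
    (hartogs : ∀ t : FractionRing R, (∀ P : Ideal R, P.IsPrime → P.height = 1 →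
      t ∈ localRing (FractionRing R) P) → ∃ r : R, algebraMap R (FractionRing R) r = t)
    (V : ValuationSubring (FractionRing R)) (π : FractionRing R) (hV : IsDivisorOver k R V π)
    (hb : ∀ η ∈ regularForms (D k (FractionRing R)) (V : Set (FractionRing R)),
      ∃ g ∈ V, η = g • (π • om)) :
    ¬ IsLogTerminal k R := by
  rintro ⟨m, hm, om', g, ⟨hom', hg, hgenP⟩, hdisc⟩
  obtain ⟨hom, -, hgen1⟩ := hgen
  obtain ⟨h, rfl⟩ := hspan om'
  have hh : h ≠ 0 := by
    rintro rfl
    exact hom' (zero_smul _ _)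
  have inj : ∀ a b : FractionRing R, a • om = b • om → a = b := by
    intro a b hab
    exact smul_inj_aux hom hab
  have key : ∀ P : Ideal R, P.IsPrime → P.height = 1 →
      g * h ^ m ∈ localRing (FractionRing R) P ∧ (g * h ^ m)⁻¹ ∈ localRing (FractionRing R) P := by
    intro P hP hht
    obtain ⟨c0, hc0, hG0, hu0, hu0'⟩ := hgen1 P hP hht
    obtain ⟨c, hc, hG, hu, hu'⟩ := hgenP P hP hht
    have r1 := (hG.2 (c • h • om)).2 ⟨1, localRing_one hP, (one_smul _ _).symm⟩
    have r2 := (hG0.2 (c0 • om)).2 ⟨1, localRing_one hP, (one_smul _ _).symm⟩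
    obtain ⟨e, he, e1⟩ := (hG0.2 _).1 r1
    obtain ⟨e', he', e2⟩ := (hG.2 _).1 r2
    have e3 : c * h = e * c0 := inj _ _ (by rw [mul_smul, e1, mul_smul])
    have e4 : c0 = e' * (c * h) := inj _ _ (by rw [e2, mul_smul, mul_smul])
    have l0 : c0⁻¹ ∈ localRing (FractionRing R) P := by
      have : (1 : FractionRing R) / c0 ^ 1 = c0⁻¹ := by rw [pow_one, one_div]
      rwa [this] at hu0
    have l0' : c0 ∈ localRing (FractionRing R) P := by
      have : ((1 : FractionRing R) / c0 ^ 1)⁻¹ = c0 := by rw [pow_one, one_div, inv_inv]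
      rwa [this] at hu0'
    have hch : c * h ≠ 0 := mul_ne_zero hc hh
    have l1 : c * h ∈ localRing (FractionRing R) P := by
      rw [e3]
      exact localRing_mul hP he l0'
    have l2 : (c * h)⁻¹ ∈ localRing (FractionRing R) P := by
      have : (c * h)⁻¹ = e' * c0⁻¹ := by
        rw [e4]
        have he0 : e' ≠ 0 := by
          rintro rfl
          rw [zero_mul] at e4
          exact hc0 e4
        field_simp
      rw [this]
      exact localRing_mul hP he' l0
    constructor
    · have : g * h ^ m = (g / c ^ m) * (c * h) ^ m := by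
        rw [mul_pow]
        field_simp
      rw [this]
      exact localRing_mul hP hu (localRing_pow hP l1 m)
    · have : (g * h ^ m)⁻¹ = (g / c ^ m)⁻¹ * ((c * h)⁻¹) ^ m := by
        rw [inv_pow, ← mul_inv, mul_pow]
        congr 1
        field_simp
      rw [this]
      exact localRing_mul hP hu' (localRing_pow hP l2 m)
  obtain ⟨r, hr⟩ := hartogs _ fun P hP hht => (key P hP hht).1
  obtain ⟨r', hr'⟩ := hartogs _ fun P hP hht => (key P hP hht).2
  have v2 : (g * h ^ m)⁻¹ ∈ V := hr' ▸ hV.contains r'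
  obtain ⟨c', hc', hreg, hnon⟩ := hdisc V π hV
  obtain ⟨g', hg', e⟩ := hb _ hreg
  have e5 : c' * h = g' * π := inj _ _ (by rw [mul_smul, e, mul_smul])
  have hch' : c' * h ≠ 0 := mul_ne_zero hc' hh
  have hg'0 : g' ≠ 0 := by
    rintro rfl
    rw [zero_mul] at e5
    exact hch' e5
  have hπ0 : π ≠ 0 := by
    rintro rfl
    rw [mul_zero] at e5
    exact hch' e5
  have e6 : (π ^ m * (g / c' ^ m))⁻¹ = (g * h ^ m)⁻¹ * g' ^ m := by
    have h7 : c' ^ m * h ^ m = g' ^ m * π ^ m := by rw [← mul_pow, ← mul_pow, e5]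
    field_simp
    linear_combination h7
  have v3 : (π ^ m * (g / c' ^ m))⁻¹ ∈ V := by
    rw [e6]
    exact V.mul_mem _ _ v2 (V.pow_mem hg' m)
  have hne : π ^ m * (g / c' ^ m) ≠ 0 :=
    mul_ne_zero (pow_ne_zero _ hπ0) (div_ne_zero hg (pow_ne_zero _ hc'))
  rw [ValuationSubring.mem_nonunits_iff] at hnon
  rw [← V.valuation_le_one_iff, map_inv₀] at v3
  have h8 : V.valuation (π ^ m * (g / c' ^ m)) ≠ 0 := (Valuation.ne_zero_iff _).2 hne
  have h9 := one_le_inv₀ (zero_lt_iff.2 h8) |>.2 hnon.le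
  have h10 : (V.valuation (π ^ m * (g / c' ^ m)))⁻¹ = 1 := le_antisymm v3 h9
  rw [inv_eq_one] at h10
  exact absurd h10 hnon.ne


end Pool.Agent.Helper165.LT
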