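import Pool.Agent.Helper165.LT.Om

set_option autoImplicit false

open KaehlerDifferential MvPowerSeries

namespace Pool.Agent.Helper165.LT

/-- an endomorphism of `k[[u,v]]` by substitution. -/
theorem exists_hom403 {k : Type*} [Field k] (a b : MvPowerSeries (Fin 2) k)
    (ha : constantCoeff a = 0) (hb : constantCoeff b = 0) :
    ∃ σ : MvPowerSeries (Fin 2) k →ₐ[k] MvPowerSeries (Fin 2) k,
      σ (X 0) = X 0 + a ∧ σ (X 1) = X 1 + b ∧
      (∀ f, constantCoeff f = 0 → constantCoeff (σ f) = 0) ∧
      (σ (σ (X 0)) = X 0 → σ (σ (X 1)) = X 1 → ∀ f, σ (σ f) = f) := by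
  let c : Fin 2 → MvPowerSeries (Fin 2) k := ![X 0 + a, X 1 + b]
  have hc0 : ∀ i, constantCoeff (c i) = 0 := by
    intro i
    fin_cases i
    · simp [c, ha]
    · simp [c, hb]
  have hc : HasSubst c := hasSubst_of_constantCoeff_zero hc0
  have hX : ∀ i, substAlgHom (R := k) hc (X i) = c i := fun i => substAlgHom_X hc i
  refine ⟨substAlgHom (R := k) hc, hX 0, hX 1, ?_, ?_⟩
  · intro f hf
    rw [substAlgHom_apply]
    exact constantCoeff_subst_eq_zero hc hc0 hf
  · intro h0 h1 f
    rw [substAlgHom_apply, substAlgHom_apply, subst_comp_subst_apply hc hc]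
    have : (fun s => subst c (c s)) = (X : Fin 2 → MvPowerSeries (Fin 2) k) := by
      funext i
      rw [hX 0, substAlgHom_apply] at h0
      rw [hX 1, substAlgHom_apply] at h1
      fin_cases i
      · exact h0
      · exact h1
    rw [this, subst_self]
    rfl

/-- elements of the maximal ideal have zero constant coefficient -/
theorem mem_max403 {k : Type*} [Field k] (f : MvPowerSeries (Fin 2) k) :
    f ∈ IsLocalRing.maximalIdeal (MvPowerSeries (Fin 2) k) ↔ constantCoeff f = 0 := by
  rw [IsLocalRing.mem_maximalIdeal, mem_nonunits_iff, isUnit_iff_constantCoeff, isUnit_iff_ne_zero,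
    not_not]

theorem order_pow403 {k : Type*} [Field k] (n : ℕ) (f : MvPowerSeries (Fin 2) k)
    (hf : f ∈ IsLocalRing.maximalIdeal (MvPowerSeries (Fin 2) k) ^ n) : (n : ℕ∞) ≤ f.order := by
  induction n generalizing f with
  | zero => simp
  | succ n ih =>
    rw [pow_succ] at hf
    refine Submodule.mul_induction_on hf ?_ ?_
    · intro g hg h hh
      refine le_trans ?_ le_order_mul
      push_cast
      refine add_le_add (ih g hg) ?_
      rw [one_le_order_iff_constCoeff_eq_zero]
      exact (mem_max403 h).mp hh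
    · intro g h hg hh
      exact le_trans (le_min hg hh) min_order_le_add

theorem exists_S1 (k : Type*) [Field k] [CharP k 2] : ∃ S : Setup k, S.a = S.x ∧ S.b = S.y ∧
    S.x ∉ IsLocalRing.maximalIdeal (MvPowerSeries (Fin 2) k) ^ 3 ∧
    S.x ∈ IsLocalRing.maximalIdeal (MvPowerSeries (Fin 2) k) ^ 2 ∧
    S.y ∈ IsLocalRing.maximalIdeal (MvPowerSeries (Fin 2) k) ^ 2 ∧
    (∃ ε : MvPowerSeries (Fin 2) k, IsUnit ε ∧
      pderiv k 0 S.x * pderiv k 1 S.y - pderiv k 1 S.x * pderiv k 0 S.y = ε * (S.a * S.b)) := by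
  have h2 : (2 : MvPowerSeries (Fin 2) k) = 0 := CharTwo.two_eq_zero
  -- generic facts for the variable `X i`
  have gen : ∀ i : Fin 2, ∃ p x : MvPowerSeries (Fin 2) k, (1 + X i) * p = 1 ∧ x = X i ^ 2 * p ∧
      constantCoeff x = 0 ∧ x ≠ 0 ∧ constantCoeff p = 1 ∧ pderiv k i x = p * x ∧
      ∀ j, j ≠ i → pderiv k j x = 0 := by
    intro i
    have h1 : constantCoeff (1 + X i : MvPowerSeries (Fin 2) k) ≠ 0 := by simp
    obtain ⟨p, hp⟩ : ∃ p : MvPowerSeries (Fin 2) k, (1 + X i) * p = 1 :=
      ⟨(1 + X i)⁻¹, MvPowerSeries.mul_inv_cancel _ h1⟩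
    have hp1 : constantCoeff p = 1 := by
      have := congrArg constantCoeff hp
      simpa using this
    have hp0 : p ≠ 0 := by
      rintro rfl
      simp at hp1
    have hD : ∀ j, pderiv k j p * (1 + X i) = - (p * pderiv k j (X i)) := by
      intro j
      have := congrArg (pderiv k j) hp
      rw [Derivation.leibniz] at this
      simp only [smul_eq_mul, map_add, Derivation.map_one_eq_zero, zero_add] at this
      linear_combination this
    have hX0 : (X i : MvPowerSeries (Fin 2) k) ≠ 0 := by
      intro h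
      have := congrArg (coeff (Finsupp.single i 1)) h
      rw [coeff_X] at this
      simp at this
    have h10 : (1 + X i : MvPowerSeries (Fin 2) k) ≠ 0 := by
      intro h
      rw [h] at h1
      simp at h1
    refine ⟨p, X i ^ 2 * p, hp, rfl, by simp, mul_ne_zero (pow_ne_zero _ hX0) hp0, hp1, ?_, ?_⟩
    · have hXi : pderiv k i (X i : MvPowerSeries (Fin 2) k) = 1 := by
        simp
      apply mul_right_cancel₀ h10
      rw [Derivation.leibniz, Derivation.leibniz_pow]
      simp only [smul_eq_mul, hXi, nsmul_eq_mul, Nat.cast_ofNat, h2, zero_mul, mul_zero, add_zero]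
      have := hD i
      rw [hXi] at this
      linear_combination (X i ^ 2) * this - X i ^ 2 * p * hp - X i ^ 2 * p * h2
    · intro j hj
      have hXi : pderiv k j (X i : MvPowerSeries (Fin 2) k) = 0 := by
        simp [Ne.symm hj]
      apply mul_right_cancel₀ h10
      rw [Derivation.leibniz, Derivation.leibniz_pow]
      simp only [smul_eq_mul, hXi, mul_zero, smul_zero, add_zero, zero_mul]
      have := hD j
      rw [hXi] at this
      linear_combination (X i ^ 2) * this
  obtain ⟨p, x, hp, hx, hx0, hxne, hp1, hpx, hpx'⟩ := gen 0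
  obtain ⟨q, y, hq, hy, hy0, hyne, hq1, hqy, hqy'⟩ := gen 1
  obtain ⟨σ, hσu, hσv, hσ0, hinv⟩ := exists_hom403 x y hx0 hy0
  have hxX : x * (1 + X 0) = X 0 ^ 2 := by
    rw [hx]
    linear_combination (X 0 ^ 2) * hp
  have hyX : y * (1 + X 1) = X 1 ^ 2 := by
    rw [hy]
    linear_combination (X 1 ^ 2) * hq
  have hσx : σ x = x := by
    have h := congrArg σ hxX
    rw [map_mul, map_add, map_one, map_pow, hσu] at h
    have hne : (1 + (X 0 + x) : MvPowerSeries (Fin 2) k) ≠ 0 := by
      intro h
      have := congrArg constantCoeff h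
      simp [hx0] at this
    apply mul_right_cancel₀ hne
    rw [h]
    linear_combination -hxX + X 0 * x * h2
  have hσy : σ y = y := by
    have h := congrArg σ hyX
    rw [map_mul, map_add, map_one, map_pow, hσv] at h
    have hne : (1 + (X 1 + y) : MvPowerSeries (Fin 2) k) ≠ 0 := by
      intro h
      have := congrArg constantCoeff h
      simp [hy0] at this
    apply mul_right_cancel₀ hne
    rw [h]
    linear_combination -hyX + X 1 * y * h2
  have hσσu : σ (σ (X 0)) = X 0 := by
    rw [hσu, map_add, hσu, hσx]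
    linear_combination x * h2
  have hσσv : σ (σ (X 1)) = X 1 := by
    rw [hσv, map_add, hσv, hσy]
    linear_combination y * h2
  have hii := hinv hσσu hσσv
  let e : MvPowerSeries (Fin 2) k ≃ₐ[k] MvPowerSeries (Fin 2) k :=
    AlgEquiv.ofAlgHom σ σ (AlgHom.ext hii) (AlgHom.ext hii)
  have he : ∀ f, e f = σ f := fun f => rfl
  have hmX : ∀ i : Fin 2, (X i : MvPowerSeries (Fin 2) k) ∈
      IsLocalRing.maximalIdeal (MvPowerSeries (Fin 2) k) := by
    intro i
    rw [mem_max403]
    simp
  refine ⟨{ σ := e, a := x, b := y, x := x, y := y,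
            inv := hii, σu := hσu, σv := hσv, σa := hσx, σb := hσy, σx := hσx, σy := hσy,
            hx := by linear_combination hxX - x * X 0 * h2,
            hy := by linear_combination hyX - y * X 1 * h2,
            a0 := hxne, b0 := hyne,
            ha := Ideal.subset_span (by simp),
            hb := Ideal.subset_span (by simp),
            hσ0 := hσ0,
            ndvd := ?_ }, rfl, rfl, ?_, ?_, ?_, ?_⟩
  · intro h
    have h' : (X 0 : MvPowerSeries (Fin 2) k) ∣ X 1 ^ 2 := by
      rw [← hyX]
      exact Dvd.dvd.mul_right h _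
    rw [X_dvd_iff] at h'
    have := h' (Finsupp.single 1 2) (by simp)
    rw [coeff_X_pow] at this
    simp at this
  · intro h
    have h3 := order_pow403 3 x h
    have h4 : coeff (Finsupp.single 0 2) x = 0 := by
      apply coeff_of_lt_order
      refine lt_of_lt_of_le ?_ h3
      simp
      norm_num
    have h5 : coeff (Finsupp.single 0 2) (x * (1 + X 0)) = 0 := by
      rw [mul_add, mul_one, map_add, h4, zero_add]
      apply coeff_of_lt_order
      refine lt_of_lt_of_le ?_ (le_trans h3 (le_trans le_self_add le_order_mul))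
      simp
      norm_num
    rw [hxX, coeff_X_pow] at h5
    simp at h5
  · change x ∈ _
    rw [hx]
    exact Ideal.mul_mem_right _ _ (Ideal.pow_mem_pow (hmX 0) 2)
  · change y ∈ _
    rw [hy]
    exact Ideal.mul_mem_right _ _ (Ideal.pow_mem_pow (hmX 1) 2)
  · refine ⟨p * q, ?_, ?_⟩
    · rw [isUnit_iff_constantCoeff, map_mul, hp1, hq1]
      simp
    · change pderiv k 0 x * pderiv k 1 y - pderiv k 1 x * pderiv k 0 y = p * q * (x * y)
      rw [hpx, hqy, hpx' 1 (by decide), hqy' 0 (by decide)]
      ring


end Pool.Agent.Helper165.LT
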