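import Pool.Agent.Helper165.LT.Om

set_option autoImplicit false

open KaehlerDifferential MvPowerSeries

namespace Pool.Agent.Helper165.LT

/-- C0: an involution of `k[[u,v]]` by substitution. -/
theorem exists_equiv {k : Type*} [Field k] (a b : MvPowerSeries (Fin 2) k)
    (ha : constantCoeff a = 0) (hb : constantCoeff b = 0) :
    ∃ σ : MvPowerSeries (Fin 2) k →ₐ[k] MvPowerSeries (Fin 2) k,
      σ (X 0) = X 0 + a ∧ σ (X 1) = X 1 + b ∧
      (∀ f, constantCoeff f = 0 → constantCoeff (σ f) = 0) ∧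
      (3 ≤ weightedOrder w a → 2 ≤ weightedOrder w b →
        ∀ f, weightedOrder w f ≤ weightedOrder w (σ f)) ∧
      (σ (σ (X 0)) = X 0 → σ (σ (X 1)) = X 1 → ∀ f, σ (σ f) = f) := by
  let c : Fin 2 → MvPowerSeries (Fin 2) k := ![X 0 + a, X 1 + b]
  have hc0 : ∀ i, constantCoeff (c i) = 0 := by
    intro i
    fin_cases i
    · simp [c, ha]
    · simp [c, hb]
  have hc : HasSubst c := hasSubst_of_constantCoeff_zero hc0
  have hX : ∀ i, substAlgHom (R := k) hc (X i) = c i := fun i => substAlgHom_X hc i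
  refine ⟨substAlgHom (R := k) hc, hX 0, hX 1, ?_, ?_, ?_⟩
  · intro f hf
    rw [substAlgHom_apply]
    exact constantCoeff_subst_eq_zero hc hc0 hf
  · intro h3 h2 f
    rw [substAlgHom_apply]
    refine le_trans ?_ (le_weightedOrder_subst w hc f)
    simp only [le_iInf_iff]
    intro d hd
    refine (weightedOrder_le w hd).trans ?_
    have hci : ∀ i, ((w i : ℕ) : ℕ∞) ≤ weightedOrder w (c i) := by
      intro i
      have key : ∀ (j : Fin 2) (g : MvPowerSeries (Fin 2) k),
          ((w j : ℕ) : ℕ∞) ≤ weightedOrder w g → ((w j : ℕ) : ℕ∞) ≤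
            weightedOrder w (X j + g) := by
        intro j g hg
        refine le_trans ?_ (min_weightedOrder_le_add w)
        refine le_min ?_ hg
        have : (X j : MvPowerSeries (Fin 2) k) = monomial (Finsupp.single j 1) 1 := rfl
        rw [this, weightedOrder_monomial_of_ne_zero w one_ne_zero]
        simp [Finsupp.weight_apply]
      fin_cases i
      · refine key 0 a (le_trans ?_ h3)
        simp [w]
        norm_num
      · refine key 1 b (le_trans ?_ h2)
        simp [w]
    have e1 : ((d.weight w : ℕ) : ℕ∞) = ∑ i, ((d i : ℕ) : ℕ∞) * ((w i : ℕ) : ℕ∞) := by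
      rw [Finsupp.weight_apply, Finsupp.sum_fintype _ _ (by simp)]
      push_cast
      simp
    have e2 : d.weight (weightedOrder w ∘ c)
        = ∑ i, ((d i : ℕ) : ℕ∞) * (weightedOrder w (c i)) := by
      rw [Finsupp.weight_apply, Finsupp.sum_fintype _ _ (by simp)]
      simp
    rw [e1, e2]
    exact Finset.sum_le_sum fun i _ => mul_le_mul_right (hci i) _
  · intro h0 h1 f
    rw [substAlgHom_apply, substAlgHom_apply, subst_comp_subst_apply hc hc]
    have : (fun s => subst c (c s)) = (X : Fin 2 → MvPowerSeries (Fin 2) k) := by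
      funext i
      rw [hX 0, substAlgHom_apply] at h0
      rw [hX 1, substAlgHom_apply] at h1
      fin_cases i
      · exact h0
      · exact h1
    rw [this, subst_self]
    rfl

/-- Fixed point theorem for contractions on power series. -/
theorem exists_fix {k : Type*} [Field k]
    (F : MvPowerSeries (Fin 2) k → MvPowerSeries (Fin 2) k)
    (hF : ∀ a b, (a - b).order + 1 ≤ (F a - F b).order) : ∃ x, F x = x := by
  let s : ℕ → MvPowerSeries (Fin 2) k := fun n => F^[n] 0
  have hs : ∀ n, s (n + 1) = F (s n) := fun n => Function.iterate_succ_apply' F n 0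
  have h1 : ∀ n : ℕ, ((n : ℕ) : ℕ∞) ≤ (s (n + 1) - s n).order := by
    intro n
    induction n with
    | zero => simp
    | succ n ih =>
      rw [hs (n + 1)]
      nth_rewrite 2 [hs n]
      refine le_trans ?_ (hF _ _)
      push_cast
      exact add_le_add_left ih 1
  have h2 : ∀ (d : Fin 2 →₀ ℕ) (m : ℕ), coeff d (s (d.degree + 1 + m)) = coeff d (s (d.degree + 1)) := by
    intro d m
    induction m with
    | zero => rfl
    | succ m ih =>
      rw [← ih]
      have : coeff d (s (d.degree + 1 + m + 1) - s (d.degree + 1 + m)) = 0 := by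
        apply coeff_of_lt_order
        refine lt_of_lt_of_le ?_ (h1 _)
        norm_cast
        omega
      rw [map_sub, sub_eq_zero] at this
      exact this
  let x : MvPowerSeries (Fin 2) k := fun d => coeff d (s (d.degree + 1))
  have hx : ∀ d, coeff d x = coeff d (s (d.degree + 1)) := fun d => rfl
  have h3 : ∀ n : ℕ, ((n : ℕ) : ℕ∞) ≤ (x - s n).order := by
    intro n
    apply nat_le_order
    intro d hd
    rw [map_sub, hx, sub_eq_zero]
    obtain ⟨m, rfl⟩ : ∃ m, n = d.degree + 1 + m := ⟨n - (d.degree + 1), by omega⟩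
    exact (h2 d m).symm
  refine ⟨x, ?_⟩
  have h4 : ∀ n : ℕ, ((n : ℕ) : ℕ∞) ≤ (F x - x).order := by
    intro n
    have e : F x - x = (F x - F (s n)) + (-(x - s (n + 1))) := by
      rw [hs n]; ring
    rw [e]
    refine le_trans (le_min ?_ ?_) min_order_le_add
    · refine le_trans ?_ (hF _ _)
      refine le_trans (h3 n) le_self_add
    · rw [order_neg]
      refine le_trans ?_ (h3 (n + 1))
      norm_cast
      omega
  have h5 : (F x - x).order = ⊤ := by
    rw [ENat.eq_top_iff_forall_ge]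
    exact h4
  rw [order_eq_top_iff, sub_eq_zero] at h5
  exact h5

/-- C1: the power series `x, y` in `u = X 0`, `v = X 1` with `x = u² + y³u`, `y = v² + xv`. -/
theorem exists_xy {k : Type*} [Field k] [CharP k 2] :
    ∃ x y : MvPowerSeries (Fin 2) k, constantCoeff x = 0 ∧ constantCoeff y = 0 ∧
      x = X 0 ^ 2 + y ^ 3 * X 0 ∧ y = X 1 ^ 2 + x * X 1 := by
  obtain ⟨x, hx⟩ := exists_fix (k := k)
    (fun x => X 0 ^ 2 + (X 1 ^ 2 + x * X 1) ^ 3 * X 0) (by
      intro a b
      have e : (X 0 ^ 2 + (X 1 ^ 2 + a * X 1) ^ 3 * X 0) - (X 0 ^ 2 + (X 1 ^ 2 + b * X 1) ^ 3 * X 0)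
        = (a - b) * ((X 0 : MvPowerSeries (Fin 2) k) * (X 1 * ((X 1 ^ 2 + a * X 1) ^ 2 +
          (X 1 ^ 2 + a * X 1) * (X 1 ^ 2 + b * X 1) + (X 1 ^ 2 + b * X 1) ^ 2))) := by ring
      rw [e]
      refine le_trans ?_ le_order_mul
      refine add_le_add_right ?_ _
      rw [one_le_order_iff_constCoeff_eq_zero]
      simp)
  refine ⟨x, X 1 ^ 2 + x * X 1, ?_, ?_, hx.symm, rfl⟩
  · rw [← hx]
    simp
  · simp

/-- C2: uniqueness. -/
theorem unique_xy {k : Type*} [Field k] [CharP k 2] (u v x y x' y' : MvPowerSeries (Fin 2) k)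
    (hu : constantCoeff u = 0) (hv : constantCoeff v = 0)
    (hx : x = u ^ 2 + y ^ 3 * u) (hy : y = v ^ 2 + x * v)
    (hx' : x' = u ^ 2 + y' ^ 3 * u) (hy' : y' = v ^ 2 + x' * v) : x = x' ∧ y = y' := by
  have e1 : y - y' = (x - x') * v := by
    nth_rewrite 1 [hy]
    nth_rewrite 1 [hy']
    ring
  have e2 : x - x' = (y - y') * ((y ^ 2 + y * y' + y' ^ 2) * u) := by
    nth_rewrite 1 [hx]
    nth_rewrite 1 [hx']
    ring
  have e3 : (x - x') * (1 - v * ((y ^ 2 + y * y' + y' ^ 2) * u)) = 0 := by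
    have : (x - x') = (x - x') * (v * ((y ^ 2 + y * y' + y' ^ 2) * u)) := by
      nth_rewrite 1 [e2]
      rw [e1]
      ring
    linear_combination this
  have e4 : (1 - v * ((y ^ 2 + y * y' + y' ^ 2) * u)) ≠ 0 := by
    intro h
    have := congrArg constantCoeff h
    simp [hu, hv] at this
  have e5 : x - x' = 0 := (mul_eq_zero.mp e3).resolve_right e4
  refine ⟨sub_eq_zero.mp e5, ?_⟩
  rw [e5, zero_mul] at e1
  exact sub_eq_zero.mp e1


/-- the ideal of power series of order at least `n` -/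
def ordIdeal (k : Type*) [Field k] (n : ℕ) : Ideal (MvPowerSeries (Fin 2) k) where
  carrier := {f | (n : ℕ∞) ≤ f.order}
  zero_mem' := by simp
  add_mem' := by
    intro a b ha hb
    exact le_trans (le_min ha hb) min_order_le_add
  smul_mem' := by
    intro c f hf
    have hf' : (n : ℕ∞) ≤ f.order := hf
    change (n : ℕ∞) ≤ (c * f).order
    exact le_trans (le_trans hf' le_add_self) le_order_mul

theorem mem_ordIdeal {k : Type*} [Field k] {n : ℕ} {f : MvPowerSeries (Fin 2) k} :
    f ∈ ordIdeal k n ↔ (n : ℕ∞) ≤ f.order := Iff.rfl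

theorem maxIdeal_pow_le {k : Type*} [Field k] (n : ℕ) :
    IsLocalRing.maximalIdeal (MvPowerSeries (Fin 2) k) ^ n ≤ ordIdeal k n := by
  induction n with
  | zero =>
    intro f _
    rw [mem_ordIdeal]
    simp
  | succ n ih =>
    rw [pow_succ, Ideal.mul_le]
    intro a ha b hb
    have h1 := ih ha
    rw [mem_ordIdeal] at h1 ⊢
    have h2 : (1 : ℕ∞) ≤ b.order := by
      rw [one_le_order_iff_constCoeff_eq_zero]
      by_contra h
      rw [IsLocalRing.mem_maximalIdeal, mem_nonunits_iff, isUnit_iff_constantCoeff] at hb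
      exact hb (isUnit_iff_ne_zero.mpr h)
    push_cast
    exact le_trans (add_le_add h1 h2) le_order_mul

theorem mem_maxIdeal {k : Type*} [Field k] {f : MvPowerSeries (Fin 2) k}
    (hf : constantCoeff f = 0) : f ∈ IsLocalRing.maximalIdeal (MvPowerSeries (Fin 2) k) := by
  rw [IsLocalRing.mem_maximalIdeal, mem_nonunits_iff, isUnit_iff_constantCoeff, hf]
  exact not_isUnit_zero

theorem wo_X {k : Type*} [Field k] (i : Fin 2) :
    weightedOrder w (X i : MvPowerSeries (Fin 2) k) = (w i : ℕ) := by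
  have : (X i : MvPowerSeries (Fin 2) k) = monomial (Finsupp.single i 1) 1 := rfl
  rw [this, weightedOrder_monomial_of_ne_zero w one_ne_zero]
  simp [Finsupp.weight_apply]

theorem one_le_wo {k : Type*} [Field k] {f : MvPowerSeries (Fin 2) k}
    (hf : constantCoeff f = 0) : (1 : ℕ∞) ≤ weightedOrder w f := by
  refine le_weightedOrder w fun d hd => ?_
  have h0 : d = 0 := by
    rw [Finsupp.weight_apply, Finsupp.sum_fintype _ _ (by simp), Fin.sum_univ_two] at hd
    have hd' : d 0 * 2 + d 1 * 1 < 1 := by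
      have : ((d 0 • w 0 + d 1 • w 1 : ℕ) : ℕ∞) < ((1 : ℕ) : ℕ∞) := by simpa using hd
      have := Nat.cast_lt.mp this
      simpa [w] using this
    ext i
    fin_cases i
    · simp; omega
    · simp; omega
  rw [h0]
  simpa using hf

theorem exists_S2 (k : Type*) [Field k] [CharP k 2] : ∃ S : Setup k, S.a = S.y ^ 3 ∧ S.b = S.x ∧
    S.x ∉ IsLocalRing.maximalIdeal (MvPowerSeries (Fin 2) k) ^ 3 ∧
    S.x ∈ IsLocalRing.maximalIdeal (MvPowerSeries (Fin 2) k) ^ 2 ∧
    S.y ∈ IsLocalRing.maximalIdeal (MvPowerSeries (Fin 2) k) ^ 2 ∧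
    weightedOrder w S.x = 4 ∧ weightedOrder w S.y = 2 ∧
    (∀ f, weightedOrder w f ≤ weightedOrder w (S.σ f)) ∧
    (∃ ε : MvPowerSeries (Fin 2) k, IsUnit ε ∧
      pderiv k 0 S.x * pderiv k 1 S.y - pderiv k 1 S.x * pderiv k 0 S.y = ε * (S.a * S.b)) := by
  obtain ⟨x, y, hx0, hy0, hx, hy⟩ := exists_xy (k := k)
  have h2 : (2 : MvPowerSeries (Fin 2) k) = 0 := CharTwo.two_eq_zero
  obtain ⟨σ, hσu, hσv, hσ0, hσw, hσi⟩ := exists_equiv (y^3) x (by simp [hy0]) hx0
  have hx1 : σ x = (X 0 + y^3)^2 + (σ y)^3 * (X 0 + y^3) := by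
    conv_lhs => rw [hx]
    rw [map_add, map_mul, map_pow, map_pow, hσu]
  have hy1 : σ y = (X 1 + x)^2 + (σ x) * (X 1 + x) := by
    conv_lhs => rw [hy]
    rw [map_add, map_mul, map_pow, hσv]
  have hx2 : x = (X 0 + y^3)^2 + y^3 * (X 0 + y^3) := by
    linear_combination hx - (X 0 * y^3 + y^6) * h2
  have hy2 : y = (X 1 + x)^2 + x * (X 1 + x) := by
    linear_combination hy - (X 1 * x + x^2) * h2
  obtain ⟨hσx, hσy⟩ := unique_xy (X 0 + y^3) (X 1 + x) (σ x) (σ y) x y (by simp [hy0])
    (by simp [hx0]) hx1 hy1 hx2 hy2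
  have hu : σ (σ (X 0)) = X 0 := by
    rw [hσu, map_add, map_pow, hσy, hσu]
    linear_combination (y^3) * h2
  have hv : σ (σ (X 1)) = X 1 := by
    rw [hσv, map_add, hσx, hσv]
    linear_combination x * h2
  have hinv := hσi hu hv
  -- weights
  have hwy1 : (1 : ℕ∞) ≤ weightedOrder w y := one_le_wo hy0
  have hwX0 : weightedOrder w (X 0 : MvPowerSeries (Fin 2) k) = 2 := by rw [wo_X]; rfl
  have hwX1 : weightedOrder w (X 1 : MvPowerSeries (Fin 2) k) = 1 := by rw [wo_X]; rfl
  have hwx : weightedOrder w x = 4 := by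
    have e1 : weightedOrder w ((X 0 : MvPowerSeries (Fin 2) k) ^ 2) = 4 := by
      rw [pow_two, weightedOrder_mul, hwX0]; rfl
    have e2 : (5 : ℕ∞) ≤ weightedOrder w (y ^ 3 * X 0) := by
      rw [weightedOrder_mul, pow_succ, pow_two, weightedOrder_mul, weightedOrder_mul, hwX0]
      calc (5 : ℕ∞) = 1 + 1 + 1 + 2 := by norm_num
        _ ≤ _ := by gcongr
    rw [hx, weightedOrder_add_of_weightedOrder_ne, e1]
    · exact min_eq_left (le_trans (by norm_num) e2)
    · rw [e1]
      intro h
      rw [← h] at e2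
      exact absurd e2 (by norm_num)
  have hwy : weightedOrder w y = 2 := by
    have e1 : weightedOrder w ((X 1 : MvPowerSeries (Fin 2) k) ^ 2) = 2 := by
      rw [pow_two, weightedOrder_mul, hwX1]; rfl
    have e2 : weightedOrder w (x * X 1) = 5 := by
      rw [weightedOrder_mul, hwx, hwX1]; rfl
    rw [hy, weightedOrder_add_of_weightedOrder_ne, e1, e2]
    · exact min_eq_left (by norm_num)
    · rw [e1, e2]
      norm_num
  have hyne : y ≠ 0 := by
    rintro rfl
    simp at hwy
  have hxne : x ≠ 0 := by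
    rintro rfl
    simp at hwx
  have hm0 : (X 0 : MvPowerSeries (Fin 2) k) ∈ IsLocalRing.maximalIdeal (MvPowerSeries (Fin 2) k) :=
    mem_maxIdeal (by simp)
  have hm1 : (X 1 : MvPowerSeries (Fin 2) k) ∈ IsLocalRing.maximalIdeal (MvPowerSeries (Fin 2) k) :=
    mem_maxIdeal (by simp)
  have hmx : x ∈ IsLocalRing.maximalIdeal (MvPowerSeries (Fin 2) k) := mem_maxIdeal hx0
  have hmy : y ∈ IsLocalRing.maximalIdeal (MvPowerSeries (Fin 2) k) := mem_maxIdeal hy0
  have hσx' : ∀ f, σ (σ f) = f := hinv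
  refine ⟨{ σ := AlgEquiv.ofAlgHom σ σ (AlgHom.ext hinv) (AlgHom.ext hinv)
            a := y ^ 3
            b := x
            x := x
            y := y
            inv := hinv
            σu := hσu
            σv := hσv
            σa := by
              change σ (y ^ 3) = y ^ 3
              rw [map_pow, hσy]
            σb := hσx
            σx := hσx
            σy := hσy
            hx := hx
            hy := hy
            a0 := pow_ne_zero 3 hyne
            b0 := hxne
            ha := by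
              have : y ∈ Ideal.span {x, y} := Ideal.subset_span (by simp)
              rw [pow_succ]
              exact Ideal.mul_mem_left _ _ this
            hb := Ideal.subset_span (by simp)
            hσ0 := hσ0
            ndvd := ?_ }, rfl, rfl, ?_, ?_, ?_, hwx, hwy, ?_, ?_⟩
  · rintro ⟨c, hc⟩
    have hd : (X 0 : MvPowerSeries (Fin 2) k) ∣ X 1 ^ 2 := by
      refine ⟨c + (X 0 + y ^ 3) * X 1, ?_⟩
      have e1 : (X 1 : MvPowerSeries (Fin 2) k) ^ 2 = y - x * X 1 := by
        linear_combination -hy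
      rw [e1]
      have e3 : x * X 1 = (X 0 ^ 2 + y ^ 3 * X 0) * X 1 := by rw [← hx]
      rw [e3]
      linear_combination hc - (X 0 * (X 0 + y ^ 3) * X 1) * h2
    rw [X_dvd_iff] at hd
    have h3 := hd (Finsupp.single 1 2) (by simp)
    rw [coeff_X_pow, if_pos rfl] at h3
    exact one_ne_zero h3
  · intro hmem
    have h3 : ((3 : ℕ) : ℕ∞) ≤ x.order := maxIdeal_pow_le 3 hmem
    have h4 : coeff (Finsupp.single 0 2) x = 0 := by
      apply coeff_of_lt_order
      refine lt_of_lt_of_le ?_ h3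
      simp
      norm_num
    have h5 : coeff (Finsupp.single 0 2) (y ^ 3 * X 0 : MvPowerSeries (Fin 2) k) = 0 := by
      apply coeff_of_lt_order
      have h6 : ((4 : ℕ) : ℕ∞) ≤ (y ^ 3 * X 0).order :=
        maxIdeal_pow_le 4 (by
          rw [pow_succ]
          exact Ideal.mul_mem_mul (Ideal.pow_mem_pow hmy 3) hm0)
      refine lt_of_lt_of_le ?_ h6
      simp
      norm_num
    rw [hx, map_add, h5, coeff_X_pow, if_pos rfl, add_zero] at h4
    exact one_ne_zero h4
  · change x ∈ _
    rw [hx]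
    refine Ideal.add_mem _ (Ideal.pow_mem_pow hm0 2) ?_
    rw [pow_two]
    exact Ideal.mul_mem_mul (Ideal.pow_mem_of_mem _ hmy 3 (by norm_num)) hm0
  · change y ∈ _
    rw [hy]
    refine Ideal.add_mem _ (Ideal.pow_mem_pow hm1 2) ?_
    rw [pow_two]
    exact Ideal.mul_mem_mul hmx hm1
  · intro f
    refine hσw ?_ ?_ f
    · rw [pow_succ, pow_two, weightedOrder_mul, weightedOrder_mul, hwy]
      norm_num
    · rw [hwx]
      norm_num
  · change ∃ ε : MvPowerSeries (Fin 2) k, IsUnit ε ∧
      pderiv k 0 x * pderiv k 1 y - pderiv k 1 x * pderiv k 0 y = ε * (y ^ 3 * x)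
    have h10 : pderiv k (0 : Fin 2) (X 1 : MvPowerSeries (Fin 2) k) = 0 := pderiv_X_of_ne (by decide)
    have h01 : pderiv k (1 : Fin 2) (X 0 : MvPowerSeries (Fin 2) k) = 0 := pderiv_X_of_ne (by decide)
    have h00 : pderiv k (0 : Fin 2) (X 0 : MvPowerSeries (Fin 2) k) = 1 := pderiv_X_self
    have h11 : pderiv k (1 : Fin 2) (X 1 : MvPowerSeries (Fin 2) k) = 1 := pderiv_X_self
    have d1 : pderiv k 0 x = y ^ 3 + X 0 * y ^ 2 * pderiv k 0 y := by
      have := congrArg (pderiv k 0) hx
      rw [map_add, Derivation.leibniz_pow, Derivation.leibniz, Derivation.leibniz_pow, h00] at this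
      simp only [smul_eq_mul, nsmul_eq_mul, Nat.cast_ofNat] at this
      linear_combination this + (X 0 + X 0 * y ^ 2 * pderiv k 0 y) * h2
    have d2 : pderiv k 0 y = X 1 * pderiv k 0 x := by
      have := congrArg (pderiv k 0) hy
      rw [map_add, Derivation.leibniz_pow, Derivation.leibniz, h10] at this
      simp only [smul_eq_mul, nsmul_eq_mul, Nat.cast_ofNat] at this
      linear_combination this
    have d3 : pderiv k 1 x = X 0 * y ^ 2 * pderiv k 1 y := by
      have := congrArg (pderiv k 1) hx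
      rw [map_add, Derivation.leibniz_pow, Derivation.leibniz, Derivation.leibniz_pow, h01] at this
      simp only [smul_eq_mul, nsmul_eq_mul, Nat.cast_ofNat] at this
      linear_combination this + (X 0 * y ^ 2 * pderiv k 1 y) * h2
    have d4 : pderiv k 1 y = x + X 1 * pderiv k 1 x := by
      have := congrArg (pderiv k 1) hy
      rw [map_add, Derivation.leibniz_pow, Derivation.leibniz, h11] at this
      simp only [smul_eq_mul, nsmul_eq_mul, Nat.cast_ofNat] at this
      linear_combination this + X 1 * h2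
    have hunit : IsUnit (1 - X 0 * X 1 * y ^ 2 : MvPowerSeries (Fin 2) k) := by
      rw [isUnit_iff_constantCoeff]
      simp
    obtain ⟨t, ht⟩ := hunit
    refine ⟨(t⁻¹ : (MvPowerSeries (Fin 2) k)ˣ), Units.isUnit _, ?_⟩
    have ht1 : (((t⁻¹ : (MvPowerSeries (Fin 2) k)ˣ) : MvPowerSeries (Fin 2) k)) *
      (1 - X 0 * X 1 * y ^ 2) = 1 := by rw [← ht]; simp
    have e1 : pderiv k 0 x * (1 - X 0 * X 1 * y ^ 2) = y ^ 3 := by
      rw [d2] at d1
      linear_combination d1
    have e2 : pderiv k 1 y * (1 - X 0 * X 1 * y ^ 2) = x := by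
      rw [d3] at d4
      linear_combination d4
    rw [d2, d3]
    generalize (((t⁻¹ : (MvPowerSeries (Fin 2) k)ˣ) : MvPowerSeries (Fin 2) k)) = ε at *
    generalize pderiv k 0 x = p at *
    generalize pderiv k 1 y = s at *
    have e3 : p * s - X 0 * y ^ 2 * s * (X 1 * p) = y ^ 3 * s := by
      rw [← e1]; ring
    rw [e3]
    have e4 : s = ε * x := by
      rw [← e2]
      linear_combination (-s) * ht1
    rw [e4]; ring

end Pool.Agent.Helper165.LT

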