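import Pool.Agent.Helper165.LT.JA
import Pool.Agent.Helper165.LT.JB
import Pool.Agent.Helper165.LT.JD
import Pool.Agent.Helper165.LT.JD2
import Pool.Agent.Helper165.LT.JE1
import Pool.Agent.Helper165.LT.JE2
import Pool.Agent.Helper165.LT.JE3
import Pool.Agent.Helper165.LT.JF
import Pool.Agent.Helper165.LT.JM
import Pool.Agent.Helper165.LT.JM1
import Pool.Agent.Helper165.LT.JN1
import Pool.Agent.Helper165.LT.JN2
import Pool.Agent.Helper165.LT.JP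
import Pool.Agent.Helper165.LT.JQ1
import Pool.Agent.Helper165.LT.JQ2
import Pool.Agent.Helper165.LT.JQ3
import Pool.Agent.Helper165.LT.JR
import Pool.Agent.Helper165.LT.JT1
import Pool.Agent.Helper165.LT.JT2

set_option autoImplicit false

open KaehlerDifferential MvPowerSeries

namespace Pool.Agent.Helper165.LT

open JobB

theorem X_ne_zero' {k : Type*} [Field k] (i : Fin 2) : (X i : MvPowerSeries (Fin 2) k) ≠ 0 := by
  intro h
  have h1 := congrArg (coeff (Finsupp.single i 1)) h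
  rw [coeff_index_single_self_X, map_zero] at h1
  exact one_ne_zero h1

instance charP_fractionRing {k : Type*} [Field k] [CharP k 2] (S : Setup k) : CharP S.K 2 :=
  charP_of_injective_algebraMap (algebraMap k S.K).injective 2

section

variable {k : Type*} [Field k] [CharP k 2] (S : Setup k)

theorem Setup.generator [PerfectRing k 2]
    (hu : ∃ s c₀ c₁ c₂ c₃ : MvPowerSeries (Fin 2) k, s ≠ 0 ∧ S.σ s = s ∧
      s ^ 2 * X 0 = c₀ ^ 2 + c₁ ^ 2 * S.x + c₂ ^ 2 * S.y + c₃ ^ 2 * (S.x * S.y))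
    (hv : ∃ s c₀ c₁ c₂ c₃ : MvPowerSeries (Fin 2) k, s ≠ 0 ∧ S.σ s = s ∧
      s ^ 2 * X 1 = c₀ ^ 2 + c₁ ^ 2 * S.x + c₂ ^ 2 * S.y + c₃ ^ 2 * (S.x * S.y))
    (hJ : ∃ ε : MvPowerSeries (Fin 2) k, IsUnit ε ∧
      pderiv k 0 S.x * pderiv k 1 S.y - pderiv k 1 S.x * pderiv k 0 S.y = ε * (S.a * S.b))
    (hreg : ∀ P : Ideal S.R, P.IsPrime → ¬ (S.xR ∈ P ∧ S.yR ∈ P) →
      S.om ∈ regularForms (D k S.K) (localRing S.K P)) :
    IsPluricanonicalGenerator (R := S.R) (D k S.K) 1 S.om 1 := by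
  refine S.isPluricanonicalGenerator (S.br_span (S.pbasis decomp hu hv)) (S.jacobian hJ) ?_
  intro P hP h1
  refine hreg P hP ?_
  rintro ⟨hx, hy⟩
  exact S.height_ne_one P hx hy h1

theorem Setup.x_ne_zero : S.x ≠ 0 := by
  have hσu : S.σ (X 0) ≠ 0 := by
    intro h
    have : (X 0 : MvPowerSeries (Fin 2) k) = 0 := S.σ.injective (by rw [h, map_zero])
    exact (X_ne_zero' _) this
  rw [S.hx]
  have h2 : X 0 ^ 2 + S.a * X 0 = X 0 * S.σ (X 0) := by rw [S.σu]; ring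
  rw [h2]
  exact mul_ne_zero (X_ne_zero' _) hσu

theorem Setup.y_ne_zero : S.y ≠ 0 := by
  have hσu : S.σ (X 1) ≠ 0 := by
    intro h
    have : (X 1 : MvPowerSeries (Fin 2) k) = 0 := S.σ.injective (by rw [h, map_zero])
    exact (X_ne_zero' _) this
  rw [S.hy]
  have h2 : X 1 ^ 2 + S.b * X 1 = X 1 * S.σ (X 1) := by rw [S.σv]; ring
  rw [h2]
  exact mul_ne_zero (X_ne_zero' _) hσu

theorem Setup.hu1 (hax : S.a = S.x) : ∃ s c₀ c₁ c₂ c₃ : MvPowerSeries (Fin 2) k, s ≠ 0 ∧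
    S.σ s = s ∧
      s ^ 2 * X 0 = c₀ ^ 2 + c₁ ^ 2 * S.x + c₂ ^ 2 * S.y + c₃ ^ 2 * (S.x * S.y) := by
  refine ⟨S.x, S.x, X 0, 0, 0, S.x_ne_zero, S.σx, ?_⟩
  have h := S.hx
  rw [hax] at h
  have h2 : (2 : MvPowerSeries (Fin 2) k) = 0 := CharTwo.two_eq_zero
  linear_combination (-S.x) * h + (- X 0 ^ 2 * S.x) * h2

theorem Setup.hv1 (hby : S.b = S.y) : ∃ s c₀ c₁ c₂ c₃ : MvPowerSeries (Fin 2) k, s ≠ 0 ∧
    S.σ s = s ∧
      s ^ 2 * X 1 = c₀ ^ 2 + c₁ ^ 2 * S.x + c₂ ^ 2 * S.y + c₃ ^ 2 * (S.x * S.y) := by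
  refine ⟨S.y, S.y, 0, X 1, 0, S.y_ne_zero, S.σy, ?_⟩
  have h := S.hy
  rw [hby] at h
  have h2 : (2 : MvPowerSeries (Fin 2) k) = 0 := CharTwo.two_eq_zero
  linear_combination (-S.y) * h + (- X 1 ^ 2 * S.y) * h2

theorem Setup.hu2 (hax : S.a = S.y ^ 3) : ∃ s c₀ c₁ c₂ c₃ : MvPowerSeries (Fin 2) k, s ≠ 0 ∧
    S.σ s = s ∧
      s ^ 2 * X 0 = c₀ ^ 2 + c₁ ^ 2 * S.x + c₂ ^ 2 * S.y + c₃ ^ 2 * (S.x * S.y) := by
  refine ⟨S.y ^ 2, 0, 0, X 0, 1, pow_ne_zero _ S.y_ne_zero, by rw [map_pow, S.σy], ?_⟩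
  have h := S.hx
  rw [hax] at h
  have h2 : (2 : MvPowerSeries (Fin 2) k) = 0 := CharTwo.two_eq_zero
  linear_combination (-S.y) * h + (- X 0 ^ 2 * S.y) * h2

theorem Setup.hv2 (hbx : S.b = S.x) : ∃ s c₀ c₁ c₂ c₃ : MvPowerSeries (Fin 2) k, s ≠ 0 ∧
    S.σ s = s ∧
      s ^ 2 * X 1 = c₀ ^ 2 + c₁ ^ 2 * S.x + c₂ ^ 2 * S.y + c₃ ^ 2 * (S.x * S.y) := by
  refine ⟨S.x, 0, X 1, 0, 1, S.x_ne_zero, S.σx, ?_⟩
  have h := S.hy
  rw [hbx] at h
  have h2 : (2 : MvPowerSeries (Fin 2) k) = 0 := CharTwo.two_eq_zero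
  linear_combination (-S.x) * h + (- X 1 ^ 2 * S.x) * h2

theorem Setup.isLogTerminal_S1 (hax : S.a = S.x) (hby : S.b = S.y)
    (hgen : IsPluricanonicalGenerator (R := S.R) (D k S.K) 1 S.om 1) :
    IsLogTerminal k S.R := by
  refine ⟨1, Nat.one_pos, S.om, 1, hgen, ?_⟩
  intro V π hV
  refine ⟨1, one_ne_zero, ?_, ?_⟩
  · rw [one_smul]
    have hinj : Function.Injective (algebraMap S.R S.K) := IsFractionRing.injective S.R S.K
    have hx : S.xR ≠ 0 := fun h => S.x_ne_zero (congrArg Subtype.val h)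
    have hy : S.yR ≠ 0 := fun h => S.y_ne_zero (congrArg Subtype.val h)
    have ha : S.aR = S.xR := Subtype.ext hax
    have hb : S.bR = S.yR := Subtype.ext hby
    have hrel0 := S.rel
    rw [ha, hb] at hrel0
    have hrel := congrArg (algebraMap S.R S.K) hrel0
    rw [map_add, map_add, map_add, map_pow, map_mul, map_mul, map_mul, map_mul, map_pow, map_pow,
      map_zero] at hrel
    have := regular_X1 (k := k) V (algebraMap S.R S.K S.xR) (algebraMap S.R S.K S.yR)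
      (algebraMap S.R S.K S.zR)
      (fun h => hx (hinj (by rw [h, map_zero]))) (fun h => hy (hinj (by rw [h, map_zero])))
      (hV.contains _) (hV.contains _) (hV.contains _) hrel
    rw [Setup.om, ha, hb]
    exact this
  · obtain ⟨hπ, hirr⟩ := hV.uniformizer
    rw [pow_one, one_pow, div_one, mul_one]
    rw [ValuationSubring.mem_nonunits_iff_exists_mem_maximalIdeal]
    refine ⟨hπ, ?_⟩
    exact hirr.not_isUnit

end

theorem main (k : Type*) [Field k] [IsAlgClosed k] [CharP k 2] :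
    ∃ (σ₁ σ₂ : MvPowerSeries (Fin 2) k ≃ₐ[k] MvPowerSeries (Fin 2) k) (r n : ℕ),
      (IsWildAction 2 σ₁ ∧ HasInvariants σ₁ r n ∧ IsLogTerminal k (invariants σ₁)) ∧
      (IsWildAction 2 σ₂ ∧ HasInvariants σ₂ r n ∧ IsCanonicalCartier k (invariants σ₂) ∧
        ¬ IsLogTerminal k (invariants σ₂)) := by
  obtain ⟨S₁, ha₁, hb₁, hx3, hx2, hy2, hJ₁⟩ := exists_S1 k
  obtain ⟨S₂, ha₂, hb₂, hx3', hx2', hy2', hwx, hwy, hwσ, hJ₂⟩ := exists_S2 k
  refine ⟨S₁.σ, S₂.σ, 2, 0, ⟨?_, ?_, ?_⟩, ⟨?_, ?_, ?_⟩⟩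
  · refine S₁.isWildAction ?_ ?_
    · rw [← ha₁]
      exact Ideal.le_radical (Ideal.subset_span (by simp))
    · rw [← hb₁]
      exact Ideal.le_radical (Ideal.subset_span (by simp))
  · refine S₁.hasInvariants ?_ ?_ (Or.inl ?_)
    · rw [ha₁]; exact hx2
    · rw [hb₁]; exact hy2
    · rw [ha₁]; exact hx3
  · exact S₁.isLogTerminal_S1 ha₁ hb₁ (S₁.generator (S₁.hu1 ha₁) (S₁.hv1 hb₁) hJ₁
      (fun P hP h => S₁.reg_S1 ha₁ hb₁ P h))
  · refine S₂.isWildAction ?_ ?_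
    · rw [← hb₂]
      exact Ideal.le_radical (Ideal.subset_span (by simp))
    · refine ⟨3, ?_⟩
      rw [← ha₂]
      exact Ideal.subset_span (by simp)
  · refine S₂.hasInvariants ?_ ?_ (Or.inr ?_)
    · rw [ha₂]; exact Ideal.pow_mem_of_mem _ hy2' 3 (by norm_num)
    · rw [hb₂]; exact hx2'
    · rw [hb₂]; exact hx3'
  · have hgen := S₂.generator (S₂.hu2 ha₂) (S₂.hv2 hb₂) hJ₂ (fun P hP h => S₂.reg_S2 ha₂ hb₂ P h)
    refine ⟨⟨S₂.om, hgen⟩, ?_⟩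
    have hpb := S₂.pbasis decomp (S₂.hu2 ha₂) (S₂.hv2 hb₂)
    have hwa : 6 ≤ weightedOrder w S₂.a := by
      rw [ha₂]
      refine le_trans ?_ (le_weightedOrder_pow w 3)
      rw [hwy]
      norm_num
    have hgap := gap (S₂.σ : MvPowerSeries (Fin 2) k →ₐ[k] MvPowerSeries (Fin 2) k) hwσ
      (by
        change 5 ≤ weightedOrder w (S₂.σ (X 0) - X 0)
        rw [S₂.σu, add_sub_cancel_left]
        exact le_trans (by norm_num) hwa)
      (by
        change 4 ≤ weightedOrder w (S₂.σ (X 1) - X 1)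
        rw [S₂.σv, add_sub_cancel_left, hb₂, hwx])
    have heven : ∀ r : S₂.R, r ≠ 0 →
        ∃ n : ℕ, weightedOrder w (r : MvPowerSeries (Fin 2) k) = 2 * (n : ℕ∞) := by
      intro r hr
      exact S₂.even_weight decomp weight_sq_add hwσ hgap hwa (by rw [hb₂]; exact hwx) r.1 r.2
        (fun h => hr (Subtype.ext h))
    obtain ⟨V, hV⟩ := S₂.exists_valuation
    have hdiv := S₂.isDivisorOver V hV heven ha₂ hb₂ hwx hwy
    exact not_isLogTerminal S₂.om (S₂.br_span hpb) hgen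
      (S₂.hartogs (fun P hP h1 h2 => S₂.height_eq_one P h1 h2)) V _ hdiv
      (S₂.forms_bound hpb weight_sq_add V hV heven ha₂ hb₂ hwx hwy)

end Pool.Agent.Helper165.LT
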