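import Pool.Agent.Helper165.LT.Setup

set_option autoImplicit false

open KaehlerDifferential MvPowerSeries

namespace Pool.Agent.Helper165.LT

/-- weight 2 for `u = X 0` and weight 1 for `v = X 1` -/
def w : Fin 2 → ℕ := ![2, 1]

/-- the 2-form `dx ∧ dy / (a b)` -/
noncomputable def Setup.om {k : Type*} [Field k] (S : Setup k) : ⋀[S.K]^2 (Ω[S.K⁄k]) :=
  (algebraMap S.R S.K S.aR * algebraMap S.R S.K S.bR)⁻¹ •
    br k (algebraMap S.R S.K S.xR) (algebraMap S.R S.K S.yR)

end Pool.Agent.Helper165.LT
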