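import Pool.Agent.Helper165.LT.Br

set_option autoImplicit false

open KaehlerDifferential MvPowerSeries

namespace Pool.Agent.Helper165.LT

instance charP_mvPowerSeries (k : Type*) [Field k] [CharP k 2] :
    CharP (MvPowerSeries (Fin 2) k) 2 :=
  charP_of_injective_algebraMap (algebraMap k (MvPowerSeries (Fin 2) k)).injective 2

/-- An involution `σ` of `A = k[[u,v]]`, `u = X 0`, `v = X 1`, with
`σ u = u + a`, `σ v = v + b`, and `x = u σ(u)`, `y = v σ(v)`. -/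
structure Setup (k : Type*) [Field k] where
  σ : MvPowerSeries (Fin 2) k ≃ₐ[k] MvPowerSeries (Fin 2) k
  a : MvPowerSeries (Fin 2) k
  b : MvPowerSeries (Fin 2) k
  x : MvPowerSeries (Fin 2) k
  y : MvPowerSeries (Fin 2) k
  inv : ∀ f, σ (σ f) = f
  σu : σ (X 0) = X 0 + a
  σv : σ (X 1) = X 1 + b
  σa : σ a = a
  σb : σ b = b
  σx : σ x = x
  σy : σ y = y
  hx : x = X 0 ^ 2 + a * X 0
  hy : y = X 1 ^ 2 + b * X 1
  a0 : a ≠ 0
  b0 : b ≠ 0
  ha : a ∈ Ideal.span {x, y}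
  hb : b ∈ Ideal.span {x, y}
  hσ0 : ∀ f, constantCoeff f = 0 → constantCoeff (σ f) = 0
  ndvd : ¬ (X 0 : MvPowerSeries (Fin 2) k) ∣ y

namespace Setup

variable {k : Type*} [Field k] (S : Setup k)

/-- The ring of invariants. -/
noncomputable abbrev R : Subalgebra k (MvPowerSeries (Fin 2) k) := invariants S.σ

/-- Its fraction field. -/
noncomputable abbrev K : Type _ := FractionRing S.R

lemma mem_R {f : MvPowerSeries (Fin 2) k} : f ∈ S.R ↔ S.σ f = f := Iff.rfl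

/-- `x` as an invariant. -/
noncomputable def xR : S.R := ⟨S.x, S.σx⟩

/-- `y` as an invariant. -/
noncomputable def yR : S.R := ⟨S.y, S.σy⟩

/-- `a` as an invariant. -/
noncomputable def aR : S.R := ⟨S.a, S.σa⟩

/-- `b` as an invariant. -/
noncomputable def bR : S.R := ⟨S.b, S.σb⟩

variable [CharP k 2]

/-- `z = b u + a v` as an invariant. -/
noncomputable def zR : S.R := ⟨S.b * X 0 + S.a * X 1, by
  rw [mem_R, map_add, map_mul, map_mul, S.σa, S.σb, S.σu, S.σv]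
  have h2 : (2 : MvPowerSeries (Fin 2) k) = 0 := CharTwo.two_eq_zero
  linear_combination (S.a * S.b) * h2⟩

lemma rel : S.zR ^ 2 + S.aR * S.bR * S.zR + S.aR ^ 2 * S.yR + S.bR ^ 2 * S.xR = 0 := by
  apply Subtype.ext
  have h2 : (2 : MvPowerSeries (Fin 2) k) = 0 := CharTwo.two_eq_zero
  change (S.b * X 0 + S.a * X 1) ^ 2 + S.a * S.b * (S.b * X 0 + S.a * X 1) + S.a ^ 2 * S.y
    + S.b ^ 2 * S.x = 0
  rw [S.hx, S.hy]
  linear_combination (S.b ^ 2 * X 0 ^ 2 + S.a ^ 2 * X 1 ^ 2 + S.a * S.b * X 0 * X 1 +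
    S.a * S.b ^ 2 * X 0 + S.a ^ 2 * S.b * X 1) * h2

end Setup

end Pool.Agent.Helper165.LT
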